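import Pool.Agent.Q291.SA.Sum
import Pool.Agent.Q291.CS.Union

/-!
The volume of the part of the cluster of the origin in a large box, above the critical point: sum
over blocks.
-/

set_option autoImplicit false

namespace Q291.SA
open Finset H974 Pool.Agent.H160R2.CV Pool.Agent.H160R2.CV.Quad H362P Pool.Agent.Y244.PC Q291.CS
open Pool.Agent.TH981.LO (nm)

variable {q : ℝ}

/-- the sink of a block -/
def Tz (M : ℕ) (z : Ix) : Set Vtx := {w | 2 * M ≤ nv (w - cz M z)}

/-- the vertices of a block connected to the sink -/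
noncomputable def VB (M : ℕ) (z : Ix) (F : Finset Edg) : ℝ := VT (Tz M z) (blk M z) F

theorem VB_nonneg (M : ℕ) (z : Ix) (F : Finset Edg) : 0 ≤ VB M z F := VT_nonneg _ _ _

theorem GT_Tz_loc {M : ℕ} {z : Ix} {y : Vtx} (hy : y ∈ blk M z) :
    LocE (bo (cz M z) (2 * M)) (GT (Tz M z) {y}) := by
  intro F
  constructor
  · intro h u hu
    rw [Finset.mem_singleton] at hu
    subst hu
    obtain ⟨w, hw, hr⟩ := h u (Finset.mem_singleton_self u)
    have hyn := blk_near hy
    have hw' : 2 * M ≤ nv (w - cz M z) := hw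
    unfold nv at hyn hw'
    simp only [Prod.fst_sub, Prod.snd_sub] at hyn hw'
    obtain ⟨w', k1, k2, k3⟩ := first_exit (a := (cz M z).1 - (2 * M : ℕ))
      (b := (cz M z).1 + (2 * M : ℕ)) (c := (cz M z).2 - (2 * M : ℕ))
      (d := (cz M z).2 + (2 * M : ℕ)) (u := u)
      (by unfold inR; push_cast; omega) hr (by
        push_cast
        omega)
    refine ⟨w', ?_, ?_⟩
    · show 2 * M ≤ nv (w' - cz M z)
      unfold nv inR at *
      simp only [Prod.fst_sub, Prod.snd_sub]
      push_cast at k1 k2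
      omega
    · refine k3.mono ?_
      rw [Finset.coe_inter]
      exact subset_rfl
  · intro h
    exact GT_inc _ _ _ _ Finset.inter_subset_left h

theorem VB_loc (M : ℕ) (z : Ix) (F : Finset Edg) :
    VB M z F = VB M z (F ∩ bo (cz M z) (2 * M)) := by
  unfold VB VT
  apply Finset.sum_congr rfl
  intro y hy
  exact ind_congr (GT_Tz_loc hy F)

theorem card_blk (M : ℕ) (z : Ix) : (blk M z).card = M ^ 2 := by
  unfold blk
  rw [Finset.card_product, Int.card_Ico, Int.card_Ico]
  have e1 : ((M : ℤ) * z 0 + M - M * z 0).toNat = M := by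
    rw [add_sub_cancel_left]
    exact Int.toNat_natCast M
  have e2 : ((M : ℤ) * z 1 + M - M * z 1).toNat = M := by
    rw [add_sub_cancel_left]
    exact Int.toNat_natCast M
  rw [e1, e2, sq]

theorem VB_exp (hq : 1 / 2 ≤ q) (h1 : q ≤ 1) {M : ℕ} (hM : 1 ≤ M) (z : Ix) {S : Finset Edg}
    (hS : bo (cz M z) (2 * M) ⊆ S) {s : ℝ} (hs : 0 ≤ s)
    (hs2 : s * (K0 * ((M : ℝ) ^ 2 * arm q M)) ≤ 1 / 2) :
    Ex (fun _ => q) S (fun F => Real.exp (s * VB M z F)) ≤ 2 := by
  have h0 : 0 ≤ q := by linarith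
  have hK0 := K0_pos
  have hb := arm_nonneg h0 h1 M
  have hmom := fun k : ℕ => mom_far hq h1 (T := Tz M z) (B := blk M z) (S := S) hM
    (by
      intro x hx y hy
      have g1 := blk_near hx
      have g2 := blk_near hy
      rw [mem_blk] at hx hy
      unfold nv
      simp only [Prod.fst_sub, Prod.snd_sub]
      omega)
    (by
      rw [card_blk]
      push_cast
      nlinarith [sq_nonneg (M : ℝ)])
    (by
      intro x hx w hw
      have g1 := blk_near hx
      have g2 : 2 * M ≤ nv (w - cz M z) := hw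
      have g3 := nv_tri w x (cz M z)
      omega)
    (by
      intro x hx
      refine Finset.Subset.trans ?_ hS
      have g1 := blk_near hx
      unfold nv at g1
      simp only [Prod.fst_sub, Prod.snd_sub] at g1
      unfold bo
      apply RE_subset <;> push_cast <;> omega) k
  have h := exp_moment (p := fun _ => q) (S := S) (w := fun _ => 1) (V := VB M z)
    (A := 1) (A0 := 1) (b := K0 * ((M : ℝ) ^ 2 * arm q M)) (s := s) zero_le_one
    (by positivity) hs hs2 (by rw [Ex_const]) (by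
      intro k
      rw [one_mul]
      refine le_trans (le_of_eq ?_) (hmom (k + 1))
      apply Ex_congr
      intro F _
      rw [one_mul]
      rfl)
  have e : Ex (fun _ => q) S (fun F => Real.exp (s * VB M z F)) =
      Ex (fun _ => q) S (fun F => 1 * Real.exp (s * VB M z F)) := by
    apply Ex_congr
    intro F _
    rw [one_mul]
  rw [e]
  refine h.trans ?_
  linarith

/-- one colour class -/
theorem class_far (hq : 1 / 2 ≤ q) (h1 : q ≤ 1) {M : ℕ} (hM : 1 ≤ M) {U : Finset Edg}
    {s : ℝ} (hs : 0 ≤ s) (hs2 : s * (K0 * ((M : ℝ) ^ 2 * arm q M)) ≤ 1 / 2) (J : Finset Ix)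
    (hJ : ∀ z ∈ J, 4 ≤ nm z) (hU : ∀ z ∈ J, bo (cz M z) (2 * M) ⊆ U)
    (hcol : ∀ z ∈ J, ∀ w ∈ J, z ≠ w → 5 ≤ nm (z - w)) :
    Ex (fun _ => q) U (fun F => ind (LA 0 M F) * ∏ z ∈ J, Real.exp (s * VB M z F)) ≤
      arm q M * 2 ^ J.card := by
  classical
  have h0 : 0 ≤ q := by linarith
  have ok := okq h0 h1
  have hb := arm_nonneg h0 h1 M
  have key : Ex (fun _ => q) U (fun F => ind (LA 0 M F) *
      ∏ z ∈ J, (Real.exp (s * VB M z F) / 2)) ≤ arm q M := by
    apply prod_far ok J (fun F => ind (LA 0 M F)) (bo 0 M)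
      (fun z F => Real.exp (s * VB M z F) / 2) (fun z => bo (cz M z) (2 * M))
    · intro F
      exact ind_congr (LA_loc (Finset.Subset.refl _) F)
    · intro z _ F
      show Real.exp (s * VB M z F) / 2 = Real.exp (s * VB M z (F ∩ bo (cz M z) (2 * M))) / 2
      rw [← VB_loc]
    · intro z hz
      apply bo_disj
      rw [← cz_zero M, nv_cz, nm_neg]
      have : M * 4 ≤ M * nm z := Nat.mul_le_mul_left _ (hJ z hz)
      omega
    · intro z hz w hw hne
      apply bo_disj
      rw [nv_cz]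
      have : M * 5 ≤ M * nm (z - w) := Nat.mul_le_mul_left _ (hcol z hz w hw hne)
      omega
    · intro F
      exact ind_nonneg _
    · intro z _ F
      positivity
    · intro z hz
      have g := VB_exp hq h1 hM z (hU z hz) hs hs2
      have e : Ex (fun _ => q) U (fun F => Real.exp (s * VB M z F) / 2) =
          Ex (fun _ => q) U (fun F => Real.exp (s * VB M z F)) * (1 / 2) := by
        rw [← Ex_mul_right]
        apply Ex_congr
        intro F _
        ring
      rw [e]
      linarith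
    · exact pr_LAq h0 h1 U 0 M
  have e : Ex (fun _ => q) U (fun F => ind (LA 0 M F) * ∏ z ∈ J, Real.exp (s * VB M z F)) =
      Ex (fun _ => q) U (fun F => ind (LA 0 M F) *
        ∏ z ∈ J, (Real.exp (s * VB M z F) / 2)) * 2 ^ J.card := by
    rw [← Ex_mul_right]
    apply Ex_congr
    intro F _
    rw [Finset.prod_div_distrib, Finset.prod_const]
    field_simp
  rw [e]
  exact mul_le_mul_of_nonneg_right key (by positivity)

/-- all the far blocks -/
theorem far_exp (hq : 1 / 2 ≤ q) (h1 : q ≤ 1) {M : ℕ} (hM : 1 ≤ M) {U : Finset Edg}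
    {s : ℝ} (hs : 0 ≤ s) (hs2 : 25 * s * (K0 * ((M : ℝ) ^ 2 * arm q M)) ≤ 1 / 2) (J : Finset Ix)
    (hJ : ∀ z ∈ J, 4 ≤ nm z) (hU : ∀ z ∈ J, bo (cz M z) (2 * M) ⊆ U) :
    Ex (fun _ => q) U (fun F => ind (LA 0 M F) * ∏ z ∈ J, Real.exp (s * VB M z F)) ≤
      arm q M * 2 ^ J.card := by
  classical
  have h0 : 0 ≤ q := by linarith
  have ok := okq h0 h1
  have hb := arm_nonneg h0 h1 M
  have hpt : ∀ F ⊆ U, ind (LA 0 M F) * ∏ z ∈ J, Real.exp (s * VB M z F) ≤
      ∑ c : Fin 2 → ZMod 5, (1 / 25 : ℝ) * (ind (LA 0 M F) *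
        ∏ z ∈ J.filter (fun z => colr z = c), Real.exp (25 * s * VB M z F)) := by
    intro F _
    have g := colour (κ := Fin 2 → ZMod 5) colr J (fun z => Real.exp (s * VB M z F))
      (fun z _ => (Real.exp_pos _).le)
    rw [card_col] at g
    have g2 := mul_le_mul_of_nonneg_left g (ind_nonneg (LA 0 M F))
    refine g2.trans (le_of_eq ?_)
    rw [Finset.mul_sum]
    apply Finset.sum_congr rfl
    intro c _
    have e : ∀ z ∈ J.filter (fun z => colr z = c), Real.exp (s * VB M z F) ^ 25 =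
        Real.exp (25 * s * VB M z F) := by
      intro z _
      rw [← Real.exp_nat_mul]
      congr 1
      push_cast
      ring
    rw [Finset.prod_congr rfl e]
    push_cast
    ring
  refine (Ex_mono ok hpt).trans ?_
  rw [Ex_sum]
  have hc : ∀ c ∈ (Finset.univ : Finset (Fin 2 → ZMod 5)), Ex (fun _ => q) U
      (fun F => (1 / 25 : ℝ) * (ind (LA 0 M F) *
        ∏ z ∈ J.filter (fun z => colr z = c), Real.exp (25 * s * VB M z F))) ≤
      1 / 25 * (arm q M * 2 ^ J.card) := by
    intro c _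
    rw [Ex_mul_left]
    apply mul_le_mul_of_nonneg_left _ (by norm_num)
    refine (class_far hq h1 hM (U := U) (s := 25 * s) (by positivity) hs2
      (J.filter (fun z => colr z = c))
      (fun z hz => hJ z (Finset.mem_filter.mp hz).1)
      (fun z hz => hU z (Finset.mem_filter.mp hz).1) ?_).trans ?_
    · intro z hz w hw hne
      rw [Finset.mem_filter] at hz hw
      exact colr_far (hz.2.trans hw.2.symm) hne
    · apply mul_le_mul_of_nonneg_left _ hb
      exact pow_le_pow_right₀ (by norm_num) (Finset.card_filter_le _ _)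
  refine (Finset.sum_le_sum hc).trans (le_of_eq ?_)
  rw [Finset.sum_const, nsmul_eq_mul, Finset.card_univ, card_col]
  push_cast
  ring

theorem far_tail (hq : 1 / 2 ≤ q) (h1 : q ≤ 1) {M : ℕ} (hM : 1 ≤ M) {U : Finset Edg}
    {s : ℝ} (hs : 0 ≤ s) (hs2 : 25 * s * (K0 * ((M : ℝ) ^ 2 * arm q M)) ≤ 1 / 2) (J : Finset Ix)
    (hJ : ∀ z ∈ J, 4 ≤ nm z) (hU : ∀ z ∈ J, bo (cz M z) (2 * M) ⊆ U) (y : ℝ) :
    Pr (fun _ => q) U (fun F => LA 0 M F ∧ y ≤ ∑ z ∈ J, VB M z F) ≤
      arm q M * 2 ^ J.card * Real.exp (-(s * y)) := by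
  have h0 : 0 ≤ q := by linarith
  have ok := okq h0 h1
  have h := far_exp hq h1 hM (U := U) hs hs2 J hJ hU
  have hpt : ∀ F ⊆ U, ind (LA 0 M F ∧ y ≤ ∑ z ∈ J, VB M z F) ≤
      (ind (LA 0 M F) * ∏ z ∈ J, Real.exp (s * VB M z F)) * Real.exp (-(s * y)) := by
    intro F _
    rw [← Real.exp_sum, ← Finset.mul_sum]
    by_cases hF : LA 0 M F ∧ y ≤ ∑ z ∈ J, VB M z F
    · rw [ind_of hF, ind_of hF.1, one_mul, ← Real.exp_add]
      rw [← Real.exp_zero]
      apply Real.exp_le_exp.mpr
      have := mul_le_mul_of_nonneg_left hF.2 hs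
      linarith
    · rw [ind_not_of hF]
      have := ind_nonneg (LA 0 M F)
      positivity
  unfold Pr
  refine (Ex_mono ok hpt).trans ?_
  rw [Ex_mul_right]
  exact mul_le_mul_of_nonneg_right h (Real.exp_pos _).le

/-- the far blocks met by a large box -/
noncomputable def JJ (K : ℕ) : Finset Ix :=
  (Fintype.piFinset fun _ : Fin 2 => Finset.Icc (-(K : ℤ)) K).filter (fun z => 4 ≤ nm z)

theorem mem_JJ {K : ℕ} {z : Ix} : z ∈ JJ K ↔ nm z ≤ K ∧ 4 ≤ nm z := by
  unfold JJ
  rw [Finset.mem_filter, Fintype.mem_piFinset]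
  rw [nm_le (k := K)]
  constructor
  · rintro ⟨h1, h2⟩
    have a := h1 0
    have b := h1 1
    rw [Finset.mem_Icc] at a b
    exact ⟨⟨by omega, by omega⟩, h2⟩
  · rintro ⟨⟨h1, h2⟩, h3⟩
    refine ⟨?_, h3⟩
    intro i
    rw [Finset.mem_Icc]
    fin_cases i
    · show -(K : ℤ) ≤ z 0 ∧ z 0 ≤ K
      omega
    · show -(K : ℤ) ≤ z 1 ∧ z 1 ≤ K
      omega

theorem card_JJ (K : ℕ) : (JJ K).card ≤ (2 * K + 1) ^ 2 := by
  unfold JJ
  refine (Finset.card_filter_le _ _).trans ?_
  rw [Fintype.card_piFinset, Finset.prod_const, Finset.card_univ, Fintype.card_fin, Int.card_Icc]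
  apply Nat.pow_le_pow_left
  omega

theorem nm_bid_le {M : ℕ} (hM : 1 ≤ M) (y : Vtx) : nm (bid M y) ≤ nv y / M + 1 := by
  have h := mem_blk_bid hM y
  rw [mem_blk] at h
  rw [nm_le]
  obtain ⟨⟨a1, a2⟩, b1, b2⟩ := h
  have hM0 : (0 : ℤ) < M := by exact_mod_cast hM
  have hn1 : (y.1.natAbs) ≤ nv y := le_max_left _ _
  have hn2 : (y.2.natAbs) ≤ nv y := le_max_right _ _
  have hdiv : nv y < M * (nv y / M + 1) := Nat.lt_mul_div_succ _ (by omega)
  have hdivz : ((nv y : ℕ) : ℤ) < M * ((nv y / M + 1 : ℕ) : ℤ) := by exact_mod_cast hdiv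
  set D : ℕ := nv y / M + 1 with hD
  have key : ∀ t x : ℤ, (M : ℤ) * t ≤ x → x < (M : ℤ) * t + M → x.natAbs ≤ nv y →
      t.natAbs ≤ D := by
    intro t x h1 h2 h3
    have h4 : -(nv y : ℤ) ≤ x ∧ x ≤ nv y := by omega
    have h5 : t < D := by
      by_contra hcon
      push Not at hcon
      have := mul_le_mul_of_nonneg_left hcon hM0.le
      linarith [h4.2]
    have h6 : -(D : ℤ) ≤ t := by
      by_contra hcon
      push Not at hcon
      have h7 : t + 1 ≤ -(D : ℤ) := by omega
      have := mul_le_mul_of_nonneg_left h7 hM0.le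
      have e : (M : ℤ) * (t + 1) = M * t + M := by ring
      have e2 : (M : ℤ) * (-(D : ℤ)) = -(M * D) := by ring
      linarith [h4.1]
    omega
  exact ⟨key _ _ a1 a2 hn1, key _ _ b1 b2 hn2⟩

/-- decomposition of the volume -/
theorem vol_split {M K R : ℕ} (hM : 1 ≤ M) (hK : R / M + 1 ≤ K) {F : Finset Edg} {x : ℝ}
    (hV : Vol x ↑F) (hR : ∀ w : Vtx, Reach (↑F) (0, 0) w → nv w ≤ R) :
    x / 2 ≤ VT {(0 : Vtx)} (bx (5 * M)) F ∨
      (LA 0 M F ∧ x / 2 ≤ ∑ z ∈ JJ K, VB M z F) := by
  classical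
  obtain ⟨T, hT, hTr⟩ := hV
  set Tn := T.filter (fun y => nm (bid M y) < 4) with hTn
  set Tf := T.filter (fun y => ¬ nm (bid M y) < 4) with hTf
  have hcard : (T.card : ℝ) = Tn.card + Tf.card := by
    rw [hTn, hTf]
    exact_mod_cast (Finset.card_filter_add_card_filter_not (s := T)
      (fun y => nm (bid M y) < 4)).symm
  have hnear : (Tn.card : ℝ) ≤ VT {(0 : Vtx)} (bx (5 * M)) F := by
    unfold VT
    have hsub : Tn ⊆ bx (5 * M) := by
      intro y hy
      rw [hTn, Finset.mem_filter] at hy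
      have h := mem_blk_bid hM y
      have h1 := blk_near h
      have h2 := nv_cz M (bid M y) 0
      rw [cz_zero, sub_zero, sub_zero] at h2
      have h3 := nv_tri y (cz M (bid M y)) 0
      rw [sub_zero, sub_zero] at h3
      rw [mem_bx]
      have h4 : M * nm (bid M y) ≤ M * 3 := Nat.mul_le_mul_left _ (by omega)
      omega
    calc (Tn.card : ℝ) = ∑ y ∈ Tn, (1 : ℝ) := by rw [Finset.sum_const, nsmul_eq_mul, mul_one]
      _ = ∑ y ∈ Tn, ind (GT {(0 : Vtx)} {y} F) := by
          apply Finset.sum_congr rfl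
          intro y hy
          rw [ind_of]
          intro u hu
          rw [Finset.mem_singleton] at hu
          rw [hu]
          exact ⟨0, Set.mem_singleton _, (hTr y (Finset.mem_filter.mp hy).1).symm⟩
      _ ≤ _ := Finset.sum_le_sum_of_subset_of_nonneg hsub (fun _ _ _ => ind_nonneg _)
  have hfar : (Tf.card : ℝ) ≤ ∑ z ∈ JJ K, VB M z F := by
    have hmap : ∀ y ∈ Tf, bid M y ∈ JJ K := by
      intro y hy
      rw [hTf, Finset.mem_filter] at hy
      rw [mem_JJ]
      have h1 := nm_bid_le hM y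
      have h2 := hR y (hTr y hy.1)
      have h3 : nv y / M ≤ R / M := Nat.div_le_div_right h2
      omega
    have h1 : Tf.card = ∑ z ∈ JJ K, (Tf.filter (fun y => bid M y = z)).card :=
      Finset.card_eq_sum_card_fiberwise hmap
    rw [h1]
    push_cast
    apply Finset.sum_le_sum
    intro z hz
    have hz4 := (mem_JJ.mp hz).2
    unfold VB VT
    have hsub : Tf.filter (fun y => bid M y = z) ⊆ blk M z := by
      intro y hy
      rw [Finset.mem_filter] at hy
      rw [← hy.2]
      exact mem_blk_bid hM y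
    calc ((Tf.filter (fun y => bid M y = z)).card : ℝ)
        = ∑ y ∈ Tf.filter (fun y => bid M y = z), (1 : ℝ) := by
          rw [Finset.sum_const, nsmul_eq_mul, mul_one]
      _ = ∑ y ∈ Tf.filter (fun y => bid M y = z), ind (GT (Tz M z) {y} F) := by
          apply Finset.sum_congr rfl
          intro y hy
          rw [ind_of]
          intro u hu
          rw [Finset.mem_singleton] at hu
          rw [hu]
          have hyT : y ∈ T := (Finset.mem_filter.mp (Finset.mem_filter.mp hy).1).1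
          refine ⟨0, ?_, (hTr y hyT).symm⟩
          show 2 * M ≤ nv (0 - cz M z)
          rw [← cz_zero M, nv_cz, nm_neg]
          have : M * 4 ≤ M * nm z := Nat.mul_le_mul_left _ hz4
          omega
      _ ≤ _ := Finset.sum_le_sum_of_subset_of_nonneg hsub (fun _ _ _ => ind_nonneg _)
  by_cases hx : x / 2 ≤ VT {(0 : Vtx)} (bx (5 * M)) F
  · exact Or.inl hx
  · right
    push Not at hx
    have hsum : x / 2 ≤ ∑ z ∈ JJ K, VB M z F := by linarith
    refine ⟨?_, hsum⟩
    -- some far vertex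
    have hne : Tf.Nonempty := by
      rw [Finset.nonempty_iff_ne_empty]
      intro he
      rw [he, Finset.card_empty, Nat.cast_zero, add_zero] at hcard
      have hx0 : 0 ≤ VT {(0 : Vtx)} (bx (5 * M)) F := VT_nonneg _ _ _
      linarith
    obtain ⟨y, hy⟩ := hne
    rw [hTf, Finset.mem_filter] at hy
    have h1 := nm_bid_le hM y
    have h2 : 3 ≤ nv y / M := by omega
    have h3 : M ≤ nv y := by
      have := Nat.div_mul_le_self (nv y) M
      nlinarith
    apply LA_of_reach (u := y) _ (hTr y hy.1)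
    have : y - ((0, 0) : Vtx) = y := sub_zero y
    show M ≤ nv (y - 0)
    rw [sub_zero]
    exact h3

end Q291.SA
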