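import Pool.Agent.Q291.SA.Rec
import Pool.Agent.W424.NC.ArmUp

/-!
The radius of a finite cluster above the critical point.
-/

set_option autoImplicit false

namespace Q291.SA
open Finset H974 Pool.Agent.H160R2.CV Pool.Agent.H160R2.CV.Quad H362P

variable {q : ℝ}

theorem Step_incr (S : Finset Edg) (N j : ℕ) : IncrE S (Step N j) :=
  fun _ _ h _ hF => hF.mono h

theorem pr_Step {N : ℕ} (hN : 2 ≤ N) (j : ℕ) {S : Finset Edg} (hS : boxE (2 * (2 ^ j * N)) ⊆ S) :
    Pr (fun _ => q) S (Step N j) = 1 - eps q (2 ^ j * N) := by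
  have hN2 : 2 ≤ 2 ^ j * N := le_trans hN (Nat.le_mul_of_pos_left _ (by positivity))
  unfold eps
  rw [sub_sub_cancel]
  have hM' : (2 : ℤ) ≤ ((2 ^ j * N : ℕ) : ℤ) := by exact_mod_cast hN2
  by_cases hev : Even j
  · have e : Step N j = LRc 0 (2 * (2^j * N : ℕ)) 0 ((2^j * N : ℕ) - 1) := by
      funext F
      unfold Step
      rw [if_pos hev]
    rw [e, pr_LRc]
    · congr 1 <;> ring
    · refine Finset.Subset.trans LRE_subset_RE (Finset.Subset.trans ?_ hS)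
      unfold boxE
      apply RE_subset <;> push_cast at hM' ⊢ <;> omega
  · have e : Step N j = TBc 0 ((2^j * N : ℕ) - 1) 0 (2 * (2^j * N : ℕ)) := by
      funext F
      unfold Step
      rw [if_neg hev]
    rw [e, pr_TBc]
    · congr 1 <;> ring
    · refine Finset.Subset.trans TBE_subset_RE (Finset.Subset.trans ?_ hS)
      unfold boxE
      apply RE_subset <;> push_cast at hM' ⊢ <;> omega

theorem pr_Circ_far (h0 : 0 ≤ q) (h1 : q ≤ 1) {N : ℕ} (hN : 2 ≤ N) (he : 5 * eps q N ≤ 1)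
    {S : Finset Edg} (hS : boxE (2 * N) ⊆ S) :
    1 - 20 * eps q N ≤ Pr (fun _ => q) S (Circ N ((2 * N : ℕ) : ℤ)) := by
  have g := pr_Circ h0 h1 (R1 := N) (R2 := ((2 * N : ℕ) : ℤ)) (by positivity)
    (by push_cast; omega) hS
  have g2 := long_cross h0 h1 hN
  have g3 : hh q (4 * N) (N - 1) ≤ hh q (2 * ((2 * N : ℕ) : ℤ)) (((2 * N : ℕ) : ℤ) - N) := by
    apply hh_mono h0 h1 <;> push_cast <;> omega
  have g4 : 1 - 5 * eps q N ≤ hh q (2 * ((2 * N : ℕ) : ℤ)) (((2 * N : ℕ) : ℤ) - N) := by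
    linarith
  have he0 := eps_nonneg h0 h1 N
  have g5 : (1 - 5 * eps q N) ^ 4 ≤ (hh q (2 * ((2 * N : ℕ) : ℤ)) (((2 * N : ℕ) : ℤ) - N)) ^ 4 :=
    pow_le_pow_left₀ (by linarith) g4 4
  have g6 : 1 - 20 * eps q N ≤ (1 - 5 * eps q N) ^ 4 := by
    have := one_add_mul_le_pow (a := -(5 * eps q N)) (by linarith) 4
    push_cast at this
    calc 1 - 20 * eps q N = 1 + 4 * (-(5 * eps q N)) := by ring
      _ ≤ (1 + -(5 * eps q N)) ^ 4 := this
      _ = _ := by ring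
  linarith

/-- the event of the circuit and the chain -/
def Ch (N I : ℕ) (F : Finset Edg) : Prop :=
  Circ N ((2 * N : ℕ) : ℤ) F ∧ ∀ i ∈ range (I + 1), Step N i F

theorem Ch_incr (S : Finset Edg) (N I : ℕ) : IncrE S (Ch N I) :=
  fun _ _ h _ hF => ⟨hF.1.mono h, fun i hi => (hF.2 i hi).mono h⟩

theorem Ch_reach {N I : ℕ} (hN : 2 ≤ N) {F : Finset Edg} (h : Ch N I F) {w : Vtx}
    (hw : Reach (↑F) (0, 0) w) (hw2 : 2 * N ≤ nv w) :
    ∃ v : Vtx, Reach (↑F) (0, 0) v ∧ 2 * (2 ^ I * N) ≤ nv v := by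
  obtain ⟨hC, hSt⟩ := h
  obtain ⟨z, hz⟩ := circ_meet (R1 := N) (R2 := ((2 * N : ℕ) : ℤ)) (by positivity)
    (by push_cast; omega) hC
  obtain ⟨a, v, hv, hza, hst⟩ := chain_conn hN (z := z) (F := F) (by
    intro u v' hu hv' hr
    have := hz u v' hu (by push_cast at hv' ⊢; exact hv') hr
    exact this) I (fun j hj => hSt j (Finset.mem_range.mpr (by omega)))
  -- the cluster crosses the annulus
  obtain ⟨w', k1, k2, k3⟩ := first_exit (a := -((2 * N : ℕ) : ℤ)) (b := ((2 * N : ℕ) : ℤ))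
    (c := -((2 * N : ℕ) : ℤ)) (d := ((2 * N : ℕ) : ℤ)) (u := (0, 0))
    (by unfold inR; simp only; omega) hw (by
      unfold nv at hw2
      omega)
  have h0z : Reach (↑F) (0, 0) z := by
    have := hz (0, 0) w' (by unfold inR; simp only; omega) k2 k3
    exact this.mono Set.inter_subset_left
  have hzv : Reach (↑F) z v := by
    have h1 : Reach (↑F) z a := hza.mono Set.inter_subset_left
    split_ifs at hst with hev
    · exact h1.trans (hst.2.2.mono Set.inter_subset_left)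
    · exact h1.trans (hst.2.2.mono Set.inter_subset_left)
  refine ⟨v, h0z.trans hzv, ?_⟩
  obtain ⟨hv1, hv2⟩ := hv
  unfold nv
  rcases hv2 with hv2 | hv2
  · push_cast at hv2
    have : (2 * (2 ^ I * N : ℕ) : ℤ) = v.1 := by push_cast; linarith
    omega
  · push_cast at hv2
    have : (2 * (2 ^ I * N : ℕ) : ℤ) = v.2 := by push_cast; linarith
    omega

theorem geo_small (j I : ℕ) : ∑ i ∈ range (I + 1), ((1 : ℝ) / 4) ^ (2 ^ (j + i)) ≤
    (4 / 3) * (1 / 4) ^ (2 ^ j) := by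
  have h1 : ∀ i ∈ range (I + 1), ((1 : ℝ) / 4) ^ (2 ^ (j + i)) ≤ (1 / 4) ^ (2 ^ j) * (1 / 4) ^ i := by
    intro i _
    rw [← pow_add]
    apply pow_le_pow_of_le_one (by norm_num) (by norm_num)
    have h2 : i + 1 ≤ 2 ^ i := Nat.lt_two_pow_self
    have h3 : 1 ≤ 2 ^ j := Nat.one_le_two_pow
    calc 2 ^ j + i ≤ 2 ^ j + 2 ^ j * i := by nlinarith
      _ = 2 ^ j * (i + 1) := by ring
      _ ≤ 2 ^ j * 2 ^ i := Nat.mul_le_mul_left _ h2
      _ = 2 ^ (j + i) := by rw [pow_add]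
  refine (Finset.sum_le_sum h1).trans ?_
  rw [← Finset.mul_sum, mul_comm]
  apply mul_le_mul_of_nonneg_right _ (by positivity)
  have h2 := geom_sum_eq (show (1 / 4 : ℝ) ≠ 1 by norm_num) (I + 1)
  rw [h2]
  have h3 : (0 : ℝ) ≤ (1 / 4) ^ (I + 1) := by positivity
  rw [div_le_iff_of_neg (by norm_num)]
  linarith

/-- the finite clusters with a large radius -/
theorem pr_rad (h0 : 0 ≤ q) (h1 : q ≤ 1) {M : ℕ} (hM : 2 ≤ M) (he : eps q M ≤ 1 / 100) (j n : ℕ)
    {S : Finset Edg} (hS : boxE (4 * (2 ^ (j + n) * M)) ⊆ S) :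
    Pr (fun _ => q) S (fun F => (∃ w : Vtx, Reach (↑F) (0, 0) w ∧ 2 * (2 ^ j * M) ≤ nv w) ∧
      ∀ w : Vtx, Reach (↑F) (0, 0) w → nv w ≤ n) ≤ arm q M * (1 / 4) ^ (2 ^ j) := by
  have ok := okq h0 h1
  set N := 2 ^ j * M with hN
  have hMN : M ≤ N := Nat.le_mul_of_pos_left _ (by positivity)
  have hN2 : 2 ≤ N := hM.trans hMN
  have heN := H31K.eps_pow2 h0 h1 hM he j
  rw [← hN] at heN
  have he0 := eps_nonneg h0 h1 N
  have hb := arm_nonneg h0 h1 M
  have hq4 : ((1 : ℝ) / 4) ^ (2 ^ j) ≤ 1 / 4 := by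
    calc ((1 : ℝ) / 4) ^ (2 ^ j) ≤ (1 / 4) ^ 1 :=
          pow_le_pow_of_le_one (by norm_num) (by norm_num) Nat.one_le_two_pow
      _ = 1 / 4 := pow_one _
  have hn : n < 2 * (2 ^ n * N) := by
    have : n < 2 ^ n := Nat.lt_two_pow_self
    nlinarith
  have hbig : ∀ i ≤ n, boxE (2 * (2 ^ i * N)) ⊆ S := by
    intro i hi
    refine Finset.Subset.trans (boxE_mono ?_) hS
    have e : 2 ^ (j + n) * M = 2 ^ n * N := by rw [hN, pow_add]; ring
    rw [e]
    have : 2 ^ i * N ≤ 2 ^ n * N := Nat.mul_le_mul_right _ (Nat.pow_le_pow_right (by norm_num) hi)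
    omega
  have hbox : boxE (2 * N) ⊆ S := by
    have := hbig 0 (Nat.zero_le n)
    rwa [pow_zero, one_mul] at this
  have s1 : Pr (fun _ => q) S (fun F => (∃ w : Vtx, Reach (↑F) (0, 0) w ∧ 2 * N ≤ nv w) ∧
      ∀ w : Vtx, Reach (↑F) (0, 0) w → nv w ≤ n) ≤
      Pr (fun _ => q) S (fun F => LA 0 M F ∧ ¬ Ch N n F) := by
    apply Pr_mono ok
    rintro F _ ⟨⟨w, hw, hw2⟩, hall⟩
    refine ⟨LA_of_reach (u := w) ?_ hw, ?_⟩
    · have : w - (0 : Vtx) = w := sub_zero w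
      rw [this]
      omega
    · intro hCh
      obtain ⟨v, hv, hv2⟩ := Ch_reach hN2 hCh hw hw2
      have := hall v hv
      omega
  have s2 : Pr (fun _ => q) S (fun F => LA 0 M F ∧ ¬ Ch N n F) ≤
      Pr (fun _ => q) S (LA 0 M) * Pr (fun _ => q) S (fun F => ¬ Ch N n F) := by
    apply Pr_harris_decr ok
    · exact fun F G h _ hF => LA_inc 0 M F G h hF
    · intro F G h hG hF
      rw [not_not] at hF ⊢
      exact Ch_incr S N n F G h hG hF
  have s3 : Pr (fun _ => q) S (fun F => ¬ Ch N n F) ≤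
      20 * eps q N + ∑ i ∈ range (n + 1), eps q (2 ^ i * N) := by
    have t1 : Pr (fun _ => q) S (fun F => ¬ Ch N n F) ≤
        Pr (fun _ => q) S (fun F => (¬ Circ N ((2 * N : ℕ) : ℤ) F) ∨
          ∃ i ∈ range (n + 1), ¬ Step N i F) := by
      apply Pr_mono ok
      intro F _ hF
      unfold Ch at hF
      by_contra hcon
      push Not at hcon
      exact hF hcon
    have t2 := Pr_or_le ok S (fun F => ¬ Circ N ((2 * N : ℕ) : ℤ) F)
      (fun F => ∃ i ∈ range (n + 1), ¬ Step N i F)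
    have t3 : Pr (fun _ => q) S (fun F => ¬ Circ N ((2 * N : ℕ) : ℤ) F) ≤ 20 * eps q N := by
      rw [Pr_not]
      have := pr_Circ_far h0 h1 hN2 (by linarith) hbox
      linarith
    have t4 : Pr (fun _ => q) S (fun F => ∃ i ∈ range (n + 1), ¬ Step N i F) ≤
        ∑ i ∈ range (n + 1), Pr (fun _ => q) S (fun F => ¬ Step N i F) := by
      have hpt : ∀ F ⊆ S, ind (∃ i ∈ range (n + 1), ¬ Step N i F) ≤
          ∑ i ∈ range (n + 1), ind (¬ Step N i F) := by
        intro F _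
        by_cases hF : ∃ i ∈ range (n + 1), ¬ Step N i F
        · obtain ⟨i, hi, hF2⟩ := hF
          rw [ind_of ⟨i, hi, hF2⟩, ← ind_of hF2]
          exact Finset.single_le_sum (f := fun i => ind (¬ Step N i F))
            (fun _ _ => ind_nonneg _) hi
        · rw [ind_not_of hF]
          exact Finset.sum_nonneg fun _ _ => ind_nonneg _
      unfold Pr
      refine (Ex_mono ok hpt).trans ?_
      rw [Ex_sum]
    have t5 : ∑ i ∈ range (n + 1), Pr (fun _ => q) S (fun F => ¬ Step N i F) =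
        ∑ i ∈ range (n + 1), eps q (2 ^ i * N) := by
      apply Finset.sum_congr rfl
      intro i hi
      rw [Finset.mem_range] at hi
      rw [Pr_not, pr_Step hN2 i (hbig i (by omega))]
      ring
    linarith
  have s4 : ∑ i ∈ range (n + 1), eps q (2 ^ i * N) ≤ (1 / 25) * ((4 / 3) * (1 / 4) ^ (2 ^ j)) := by
    have t1 : ∀ i ∈ range (n + 1), eps q (2 ^ i * N) ≤ (1 / 25) * (1 / 4) ^ (2 ^ (j + i)) := by
      intro i _
      have := H31K.eps_pow2 h0 h1 hM he (j + i)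
      have e : 2 ^ (j + i) * M = 2 ^ i * N := by rw [hN, pow_add]; ring
      rw [e] at this
      linarith
    refine (Finset.sum_le_sum t1).trans ?_
    rw [← Finset.mul_sum]
    exact mul_le_mul_of_nonneg_left (geo_small j n) (by norm_num)
  have s5 : Pr (fun _ => q) S (fun F => ¬ Ch N n F) ≤ (1 / 4) ^ (2 ^ j) := by
    have : (0 : ℝ) ≤ (1 / 4) ^ (2 ^ j) := by positivity
    linarith
  calc _ ≤ Pr (fun _ => q) S (LA 0 M) * Pr (fun _ => q) S (fun F => ¬ Ch N n F) := s1.trans s2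
    _ ≤ arm q M * (1 / 4) ^ (2 ^ j) :=
        mul_le_mul (pr_LAq h0 h1 S 0 M) s5 (Pr_nonneg ok _ _) hb

end Q291.SA
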