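import Pool.Agent.Q291.SA.Far
import Pool.Agent.Q291.SA.Rad

/-!
The upper bound for the size of the finite clusters above the critical point, in finite volume.
-/

set_option autoImplicit false

namespace Q291.SA
open Finset H974 Pool.Agent.H160R2.CV Pool.Agent.H160R2.CV.Quad H362P Pool.Agent.Y244.PC Q291.CS
open Pool.Agent.TH981.LO (nm)

variable {q : ℝ}

theorem pow2_ge (k : ℕ) : ((k : ℝ) + 2) ≤ 2 ^ (k + 1) := by
  induction k with
  | zero => norm_num
  | succ k ih =>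
    rw [pow_succ]
    push_cast
    linarith

/-- the near part of the cluster -/
theorem near_tail (hq : 1 / 2 ≤ q) (h1 : q ≤ 1) {n : ℕ} (hn : 1 ≤ n) {S : Finset Edg}
    (hS : boxE (2 * n) ⊆ S) {s y : ℝ} (hs : 0 ≤ s) (hy : 0 < y)
    (hs2 : s * (2 * (K0 * (((2 * n : ℕ) : ℝ) ^ 2 * arm q (2 * n)))) ≤ 1 / 2) :
    Pr (fun _ => q) S (fun F => y ≤ VT {(0 : Vtx)} (bx n) F) ≤
      2 * (6912 / kap ^ 2 * ((n : ℝ) ^ 2 * (arm q n) ^ 2)) / y * Real.exp (-(s * y)) := by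
  have h0 : 0 ≤ q := by linarith
  have ok := okq h0 h1
  have hka := kap_pos
  have hK0 := K0_pos
  have hb := arm_nonneg h0 h1 (2 * n)
  have hb1 := arm_nonneg h0 h1 n
  obtain ⟨A1, hA1⟩ : ∃ A1 : ℝ, A1 = 6912 / kap ^ 2 * ((n : ℝ) ^ 2 * (arm q n) ^ 2) := ⟨_, rfl⟩
  obtain ⟨K1, hK1⟩ : ∃ K1 : ℝ, K1 = K0 * (((2 * n : ℕ) : ℝ) ^ 2 * arm q (2 * n)) := ⟨_, rfl⟩
  have hA0 : 0 ≤ A1 := by rw [hA1]; positivity
  have hK10 : 0 ≤ K1 := by rw [hK1]; positivity
  have hm := mom_zero hq h1 hn hS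
  rw [← hA1, ← hK1] at hm
  rw [← hK1] at hs2
  rw [← hA1]
  set V : Finset Edg → ℝ := VT {(0 : Vtx)} (bx n) with hV
  have hVn : ∀ F, 0 ≤ V F := fun F => VT_nonneg _ _ _
  have e0 : Ex (fun _ => q) S V ≤ A1 := by
    have := hm 0
    rw [Nat.factorial_one, pow_zero] at this
    refine le_trans (le_of_eq ?_) (this.trans (le_of_eq ?_))
    · apply Ex_congr
      intro F _
      rw [zero_add, pow_one]
    · push_cast
      ring
  have e1 : ∀ k : ℕ, Ex (fun _ => q) S (fun F => V F * V F ^ (k + 1)) ≤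
      A1 * ((k + 1).factorial * (2 * K1) ^ (k + 1)) := by
    intro k
    have e : Ex (fun _ => q) S (fun F => V F * V F ^ (k + 1)) =
        Ex (fun _ => q) S (fun F => V F ^ (k + 1 + 1)) := by
      apply Ex_congr
      intro F _
      rw [pow_succ _ (k + 1), mul_comm]
    rw [e]
    refine (hm (k + 1)).trans ?_
    apply mul_le_mul_of_nonneg_left _ hA0
    have hf : ((k + 1 + 1).factorial : ℝ) = ((k : ℝ) + 2) * (k + 1).factorial := by
      rw [Nat.factorial_succ (k + 1)]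
      push_cast
      ring
    rw [hf, mul_pow]
    calc ((k : ℝ) + 2) * (k + 1).factorial * K1 ^ (k + 1)
        = ((k + 1).factorial * K1 ^ (k + 1)) * ((k : ℝ) + 2) := by ring
      _ ≤ ((k + 1).factorial * K1 ^ (k + 1)) * 2 ^ (k + 1) :=
          mul_le_mul_of_nonneg_left (pow2_ge k) (by positivity)
      _ = _ := by ring
  have h2 := exp_moment (p := fun _ => q) (S := S) (w := V) (V := V) (A := A1) (A0 := A1)
    (b := 2 * K1) (s := s) hA0 (by positivity) hs hs2 e0 e1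
  have h3 : Ex (fun _ => q) S (fun F => V F * Real.exp (s * V F)) ≤ 2 * A1 := by
    nlinarith
  have hpt : ∀ F ⊆ S, ind (y ≤ V F) ≤
      (V F * Real.exp (s * V F)) * (1 / y * Real.exp (-(s * y))) := by
    intro F _
    by_cases hF : y ≤ V F
    · rw [ind_of hF]
      have g1 : 1 ≤ V F * (1 / y) := by
        rw [mul_one_div, le_div_iff₀ hy, one_mul]
        exact hF
      have g2 : 1 ≤ Real.exp (s * V F) * Real.exp (-(s * y)) := by
        rw [← Real.exp_add, ← Real.exp_zero]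
        apply Real.exp_le_exp.mpr
        have := mul_le_mul_of_nonneg_left hF hs
        linarith
      calc (1 : ℝ) = 1 * 1 := by ring
        _ ≤ (V F * (1 / y)) * (Real.exp (s * V F) * Real.exp (-(s * y))) :=
            mul_le_mul g1 g2 zero_le_one (by linarith)
        _ = _ := by ring
    · rw [ind_not_of hF]
      have := hVn F
      positivity
  unfold Pr
  refine (Ex_mono ok hpt).trans ?_
  rw [Ex_mul_right]
  refine (mul_le_mul_of_nonneg_right h3 (by positivity)).trans (le_of_eq ?_)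
  ring

theorem exists_pow4 {t : ℝ} (ht : 1 ≤ t) : ∃ j : ℕ, (4 : ℝ) ^ j ≤ t ∧ t < 4 ^ (j + 1) := by
  obtain ⟨n, hn1, hn2⟩ := exists_nat_pow_near ht (show (1 : ℝ) < 4 by norm_num)
  exact ⟨n, hn1, hn2⟩

theorem up_fin : ∃ A c E K : ℝ, 0 < A ∧ 0 < c ∧ 1 ≤ E ∧ 1 ≤ K ∧ ∀ q : ℝ, 1 / 2 < q → q ≤ 1 →
    ∃ M : ℕ, 2 ≤ M ∧ (M : ℝ) * (q - 1 / 2) ^ (4 / 3 : ℝ) ≤ E ∧
      1 ≤ (M : ℝ) * (q - 1 / 2) ^ (4 / 3 : ℝ) ∧
      (∀ j n : ℕ, ∃ L0 : ℕ, ∀ L : ℕ, L0 ≤ L → Pr (fun _ => q) (boxE L)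
        (fun F => (∃ w : Vtx, Reach (↑F) (0, 0) w ∧ 2 * (2 ^ j * M) ≤ nv w) ∧
          ∀ w : Vtx, Reach (↑F) (0, 0) w → nv w ≤ n) ≤
        A * (M : ℝ) ^ (-(5 / 48) : ℝ) * (1 / 4) ^ (2 ^ j)) ∧
      ∀ x : ℝ, K * (M : ℝ) ^ (91 / 48 : ℝ) ≤ x → ∀ n : ℕ, ∃ L0 : ℕ, ∀ L : ℕ, L0 ≤ L →
        Pr (fun _ => q) (boxE L) (fun F => Vol x ↑F ∧
          ∀ w : Vtx, Reach (↑F) (0, 0) w → nv w ≤ n) ≤
          A * (M : ℝ) ^ (-(5 / 48) : ℝ) *
            Real.exp (-(c * √(x / (M : ℝ) ^ (91 / 48 : ℝ)))) := by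
  obtain ⟨E, hE1, hfar⟩ := Pool.Agent.W424.NC.farN
  obtain ⟨C, hC, harm⟩ := arm_win E
  have hka := kap_pos
  have hK0 := K0_pos
  -- the constants
  obtain ⟨c1, hc1⟩ : ∃ c1 : ℝ, c1 = 1 / (50 * K0 * C) := ⟨_, rfl⟩
  have hc1p : 0 < c1 := by rw [hc1]; positivity
  obtain ⟨c0, hc0⟩ : ∃ c0 : ℝ, c0 = 1 / (400 * K0 * C) := ⟨_, rfl⟩
  have hc0p : 0 < c0 := by rw [hc0]; positivity
  obtain ⟨c2, hc2⟩ : ∃ c2 : ℝ, c2 = c1 / 256 := ⟨_, rfl⟩
  have hc2p : 0 < c2 := by rw [hc2]; positivity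
  obtain ⟨B1, hB1⟩ : ∃ B1 : ℝ, B1 = 4 * (6912 / kap ^ 2 * 25) * C ^ 2 := ⟨_, rfl⟩
  have hB1p : 0 < B1 := by rw [hB1]; positivity
  refine ⟨C + (B1 + C), min (√c2 / 2) (min (c0 / 2) (c1 / 4)), E, max 1 (1 / c2), by positivity,
    ?_, hE1, le_max_left _ _, ?_⟩
  · refine lt_min (by positivity) (lt_min (by positivity) (by positivity))
  intro q hq1 hq2
  have hq : 1 / 2 ≤ q := hq1.le
  have h0 : 0 ≤ q := by linarith
  have ok := okq h0 hq2
  obtain ⟨M, hM2, hME, hM1, heps⟩ := hfar (1 - q) (by linarith) (by linarith)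
  have e12 : 1 / 2 - (1 - q) = q - 1 / 2 := by ring
  rw [e12] at hME hM1
  rw [sub_sub_cancel] at heps
  have hMA : arm q M ≤ C * (M : ℝ) ^ (-(5 / 48) : ℝ) := harm q hq hq2 M (by omega) hME
  have hM0 : (0 : ℝ) < M := by exact_mod_cast (by omega : 0 < M)
  obtain ⟨a, ha⟩ : ∃ a : ℝ, a = (M : ℝ) ^ (-(5 / 48) : ℝ) := ⟨_, rfl⟩
  obtain ⟨Y, hY⟩ : ∃ Y : ℝ, Y = (M : ℝ) ^ (91 / 48 : ℝ) := ⟨_, rfl⟩
  have ha0 : 0 < a := by rw [ha]; positivity
  have hY0 : 0 < Y := by rw [hY]; positivity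
  have haY : (M : ℝ) ^ 2 * a = Y := by
    rw [ha, hY, ← Real.rpow_natCast, ← Real.rpow_add hM0]
    norm_num
  rw [← ha] at hMA
  have hMn := arm_nonneg h0 hq2 M
  refine ⟨M, hM2, hME, hM1, ?_, ?_⟩
  · intro j n
    refine ⟨4 * (2 ^ (j + n) * M), fun L hL => ?_⟩
    rw [← ha]
    refine (pr_rad h0 hq2 hM2 heps j n (boxE_mono hL)).trans ?_
    apply mul_le_mul_of_nonneg_right _ (by positivity)
    refine hMA.trans ?_
    apply mul_le_mul_of_nonneg_right _ ha0.le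
    linarith
  rw [← ha, ← hY]
  intro x hx n
  obtain ⟨y, hy⟩ : ∃ y : ℝ, y = x / Y := ⟨_, rfl⟩
  rw [← hy]
  have hxy : x = y * Y := by rw [hy]; field_simp
  have hyK : max 1 (1 / c2) ≤ y := by
    rw [hy, le_div_iff₀ hY0]
    exact hx
  have hy1 : 1 ≤ y := (le_max_left _ _).trans hyK
  have hy2 : 1 ≤ c2 * y := by
    have := (le_max_right _ _).trans hyK
    rw [div_le_iff₀ hc2p] at this
    linarith
  have hx0 : 0 < x := by rw [hxy]; positivity
  obtain ⟨j, hj1, hj2⟩ := exists_pow4 hy2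
  -- the size of the box
  refine ⟨4 * (2 ^ (j + n) * M) + (10 * M + (2 ^ (j + 2) * M + 10 * M)), fun L hL => ?_⟩
  have hLa : 4 * (2 ^ (j + n) * M) ≤ L := by omega
  have hLb : 2 * (5 * M) ≤ L := by omega
  have hLc : 2 ^ (j + 2) * M + 10 * M ≤ L := by omega
  -- the three cases
  have s1 : Pr (fun _ => q) (boxE L) (fun F => Vol x ↑F ∧
      ∀ w : Vtx, Reach (↑F) (0, 0) w → nv w ≤ n) ≤
      Pr (fun _ => q) (boxE L) (fun F =>
        ((∃ w : Vtx, Reach (↑F) (0, 0) w ∧ 2 * (2 ^ j * M) ≤ nv w) ∧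
          ∀ w : Vtx, Reach (↑F) (0, 0) w → nv w ≤ n) ∨
        (x / 2 ≤ VT {(0 : Vtx)} (bx (5 * M)) F ∨
          (LA 0 M F ∧ x / 2 ≤ ∑ z ∈ JJ (2 * 2 ^ j + 1), VB M z F))) := by
    apply Pr_mono ok
    rintro F _ ⟨hV, hn⟩
    by_cases hw : ∃ w : Vtx, Reach (↑F) (0, 0) w ∧ 2 * (2 ^ j * M) ≤ nv w
    · exact Or.inl ⟨hw, hn⟩
    · right
      push Not at hw
      apply vol_split (R := 2 * (2 ^ j * M)) (by omega) _ hV (fun w hw2 => (hw w hw2).le)
      have : 2 * (2 ^ j * M) / M = 2 * 2 ^ j := by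
        rw [← mul_assoc]
        exact Nat.mul_div_cancel _ (by omega)
      rw [this]
  have s2 := Pr_or_le ok (boxE L) (fun F =>
        ((∃ w : Vtx, Reach (↑F) (0, 0) w ∧ 2 * (2 ^ j * M) ≤ nv w) ∧
          ∀ w : Vtx, Reach (↑F) (0, 0) w → nv w ≤ n))
        (fun F => (x / 2 ≤ VT {(0 : Vtx)} (bx (5 * M)) F ∨
          (LA 0 M F ∧ x / 2 ≤ ∑ z ∈ JJ (2 * 2 ^ j + 1), VB M z F)))
  have s3 := Pr_or_le ok (boxE L) (fun F => x / 2 ≤ VT {(0 : Vtx)} (bx (5 * M)) F)
        (fun F => (LA 0 M F ∧ x / 2 ≤ ∑ z ∈ JJ (2 * 2 ^ j + 1), VB M z F))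
  have s4 := pr_rad h0 hq2 hM2 heps j n (boxE_mono hLa)
  -- the near part
  have hb5 : arm q (5 * M) ≤ C * a := (arm_anti h0 hq2 (by omega)).trans hMA
  have hb10 : arm q (2 * (5 * M)) ≤ C * a := (arm_anti h0 hq2 (by omega)).trans hMA
  have s5 := near_tail hq hq2 (n := 5 * M) (by omega) (S := boxE L) (boxE_mono hLb)
    (s := c0 / Y) (y := x / 2) (by positivity) (by positivity) (by
      have g1 : K0 * (((2 * (5 * M) : ℕ) : ℝ) ^ 2 * arm q (2 * (5 * M))) ≤ 100 * K0 * C * Y := by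
        rw [← haY]
        push_cast
        calc K0 * ((2 * (5 * (M : ℝ))) ^ 2 * arm q (2 * (5 * M)))
            ≤ K0 * ((2 * (5 * (M : ℝ))) ^ 2 * (C * a)) := by
              apply mul_le_mul_of_nonneg_left _ hK0.le
              exact mul_le_mul_of_nonneg_left hb10 (by positivity)
          _ = _ := by ring
      calc c0 / Y * (2 * (K0 * (((2 * (5 * M) : ℕ) : ℝ) ^ 2 * arm q (2 * (5 * M)))))
          ≤ c0 / Y * (2 * (100 * K0 * C * Y)) := by
            apply mul_le_mul_of_nonneg_left _ (by positivity)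
            linarith
        _ = 1 / 2 := by
            rw [hc0]
            field_simp
            norm_num)
  have s5' : Pr (fun _ => q) (boxE L) (fun F => x / 2 ≤ VT {(0 : Vtx)} (bx (5 * M)) F) ≤
      B1 * a * Real.exp (-(c0 / 2 * y)) := by
    refine s5.trans ?_
    have e1 : c0 / Y * (x / 2) = c0 / 2 * y := by
      rw [hxy]
      field_simp
    rw [e1]
    apply mul_le_mul_of_nonneg_right _ (Real.exp_pos _).le
    rw [div_le_iff₀ (by positivity)]
    have hb50 := arm_nonneg h0 hq2 (5 * M)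
    have g1 : (arm q (5 * M)) ^ 2 ≤ (C * a) ^ 2 := pow_le_pow_left₀ hb50 hb5 2
    have g2 : Y ≤ x := by rw [hxy]; nlinarith
    have g3 : (0 : ℝ) ≤ 6912 / kap ^ 2 := by positivity
    calc 2 * (6912 / kap ^ 2 * (((5 * M : ℕ) : ℝ) ^ 2 * (arm q (5 * M)) ^ 2))
        ≤ 2 * (6912 / kap ^ 2 * (((5 * M : ℕ) : ℝ) ^ 2 * (C * a) ^ 2)) := by
          apply mul_le_mul_of_nonneg_left _ (by norm_num)
          apply mul_le_mul_of_nonneg_left _ g3
          exact mul_le_mul_of_nonneg_left g1 (by positivity)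
      _ = 2 * (6912 / kap ^ 2 * 25) * C ^ 2 * a * ((M : ℝ) ^ 2 * a) := by
          push_cast
          ring
      _ = 2 * (6912 / kap ^ 2 * 25) * C ^ 2 * a * Y := by rw [haY]
      _ ≤ 2 * (6912 / kap ^ 2 * 25) * C ^ 2 * a * x :=
          mul_le_mul_of_nonneg_left g2 (by positivity)
      _ = B1 * a * (x / 2) := by rw [hB1]; ring
  -- the far part
  have s6 := far_tail hq hq2 (M := M) (by omega) (U := boxE L) (s := c1 / Y) (by positivity) (by
      calc 25 * (c1 / Y) * (K0 * ((M : ℝ) ^ 2 * arm q M))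
          ≤ 25 * (c1 / Y) * (K0 * ((M : ℝ) ^ 2 * (C * a))) := by
            apply mul_le_mul_of_nonneg_left _ (by positivity)
            apply mul_le_mul_of_nonneg_left _ hK0.le
            exact mul_le_mul_of_nonneg_left hMA (by positivity)
        _ = 25 * (c1 / Y) * (K0 * C * ((M : ℝ) ^ 2 * a)) := by ring
        _ = 25 * (c1 / Y) * (K0 * C * Y) := by rw [haY]
        _ = 1 / 2 := by
            rw [hc1]
            field_simp
            norm_num) (JJ (2 * 2 ^ j + 1)) (fun z hz => (mem_JJ.mp hz).2) (by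
      intro z hz
      refine bo_sub.trans (boxE_mono ?_)
      have h2 := nv_cz M z 0
      rw [cz_zero, sub_zero, sub_zero] at h2
      rw [h2]
      have h3 := (mem_JJ.mp hz).1
      have h4 : M * nm z ≤ M * (2 * 2 ^ j + 1) := Nat.mul_le_mul_left _ h3
      have h5 : M * (2 * 2 ^ j + 1) + 2 * M ≤ 2 ^ (j + 2) * M + 10 * M := by
        rw [pow_add]
        nlinarith [Nat.zero_le (2 ^ j * M)]
      omega) (x / 2)
  have s6' : Pr (fun _ => q) (boxE L) (fun F => LA 0 M F ∧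
      x / 2 ≤ ∑ z ∈ JJ (2 * 2 ^ j + 1), VB M z F) ≤ C * a * Real.exp (-(c1 / 4 * y)) := by
    refine s6.trans ?_
    have e1 : c1 / Y * (x / 2) = c1 / 2 * y := by
      rw [hxy]
      field_simp
    rw [e1]
    have g1 : ((2 : ℝ)) ^ (JJ (2 * 2 ^ j + 1)).card ≤ Real.exp (c1 / 4 * y) := by
      have hc : (JJ (2 * 2 ^ j + 1)).card ≤ 64 * 4 ^ j := by
        refine (card_JJ _).trans ?_
        have e4 : (4 : ℕ) ^ j = 2 ^ j * 2 ^ j := by
          rw [← mul_pow]
          norm_num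
        have h1 : 1 ≤ 2 ^ j := Nat.one_le_two_pow
        rw [e4]
        nlinarith
      calc ((2 : ℝ)) ^ (JJ (2 * 2 ^ j + 1)).card ≤ 2 ^ (64 * 4 ^ j) :=
            pow_le_pow_right₀ (by norm_num) hc
        _ ≤ Real.exp 1 ^ (64 * 4 ^ j) := by
            apply pow_le_pow_left₀ (by norm_num)
            have := Real.add_one_le_exp (1 : ℝ)
            linarith
        _ = Real.exp (((64 * 4 ^ j : ℕ) : ℝ)) := by
            rw [← Real.exp_nat_mul, mul_one]
        _ ≤ Real.exp (c1 / 4 * y) := by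
            apply Real.exp_le_exp.mpr
            push_cast
            have : 64 * (4 : ℝ) ^ j ≤ 64 * (c2 * y) := mul_le_mul_of_nonneg_left hj1 (by norm_num)
            refine this.trans (le_of_eq ?_)
            rw [hc2]
            ring
    calc arm q M * 2 ^ (JJ (2 * 2 ^ j + 1)).card * Real.exp (-(c1 / 2 * y))
        ≤ (C * a) * Real.exp (c1 / 4 * y) * Real.exp (-(c1 / 2 * y)) := by
          apply mul_le_mul_of_nonneg_right _ (Real.exp_pos _).le
          exact mul_le_mul hMA g1 (by positivity) (by positivity)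
      _ = C * a * Real.exp (-(c1 / 4 * y)) := by
          rw [mul_assoc, ← Real.exp_add]
          congr 2
          ring
  -- comparison of the exponentials
  obtain ⟨c, hc⟩ : ∃ c : ℝ, c = min (√c2 / 2) (min (c0 / 2) (c1 / 4)) := ⟨_, rfl⟩
  rw [← hc]
  have hcp : 0 ≤ c := by
    rw [hc]
    positivity
  have hsy : √y ≤ y := by
    rw [Real.sqrt_le_left (by linarith)]
    nlinarith
  have hsy0 : 0 ≤ √y := Real.sqrt_nonneg _
  have x1 : ((1 : ℝ) / 4) ^ (2 ^ j) ≤ Real.exp (-(c * √y)) := by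
    have g1 : √(c2 * y) ≤ 2 * 2 ^ j := by
      rw [Real.sqrt_le_left (by positivity)]
      have : (2 * (2 : ℝ) ^ j) ^ 2 = 4 ^ (j + 1) := by
        rw [mul_pow, pow_succ, ← pow_mul, mul_comm j 2, pow_mul]
        norm_num
        ring
      rw [this]
      exact hj2.le
    have g2 : c * √y ≤ 2 ^ j := by
      have h1 : c ≤ √c2 / 2 := by rw [hc]; exact min_le_left _ _
      calc c * √y ≤ √c2 / 2 * √y := mul_le_mul_of_nonneg_right h1 hsy0
        _ = √(c2 * y) / 2 := by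
            rw [Real.sqrt_mul hc2p.le]
            ring
        _ ≤ 2 ^ j := by linarith
    calc ((1 : ℝ) / 4) ^ (2 ^ j) ≤ (Real.exp (-1)) ^ (2 ^ j) := by
          apply pow_le_pow_left₀ (by norm_num)
          rw [Real.exp_neg, one_div]
          apply inv_anti₀ (Real.exp_pos _)
          have := Real.exp_one_lt_d9
          linarith
      _ = Real.exp (-((2 : ℝ) ^ j)) := by
          rw [← Real.exp_nat_mul]
          congr 1
          push_cast
          ring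
      _ ≤ _ := Real.exp_le_exp.mpr (by linarith)
  have x2 : Real.exp (-(c0 / 2 * y)) ≤ Real.exp (-(c * √y)) := by
    apply Real.exp_le_exp.mpr
    have h1 : c ≤ c0 / 2 := by rw [hc]; exact (min_le_right _ _).trans (min_le_left _ _)
    have : c * √y ≤ c0 / 2 * y := mul_le_mul h1 hsy hsy0 (by positivity)
    linarith
  have x3 : Real.exp (-(c1 / 4 * y)) ≤ Real.exp (-(c * √y)) := by
    apply Real.exp_le_exp.mpr
    have h1 : c ≤ c1 / 4 := by rw [hc]; exact (min_le_right _ _).trans (min_le_right _ _)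
    have : c * √y ≤ c1 / 4 * y := mul_le_mul h1 hsy hsy0 (by positivity)
    linarith
  have hex := Real.exp_pos (-(c * √y))
  calc _ ≤ arm q M * (1 / 4) ^ (2 ^ j) + (B1 * a * Real.exp (-(c0 / 2 * y)) +
        C * a * Real.exp (-(c1 / 4 * y))) := by linarith
    _ ≤ (C * a) * Real.exp (-(c * √y)) + (B1 * a * Real.exp (-(c * √y)) +
        C * a * Real.exp (-(c * √y))) := by
        apply add_le_add
        · exact mul_le_mul hMA x1 (by positivity) (by positivity)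
        · apply add_le_add
          · exact mul_le_mul_of_nonneg_left x2 (by positivity)
          · exact mul_le_mul_of_nonneg_left x3 (by positivity)
    _ = _ := by ring

end Q291.SA
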