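import Pool.Agent.Q291.SA.Inf
import Pool.Agent.Q291.SA.Up

/-!
The upper bounds for the size and the radius of the finite clusters above the critical point.
-/

set_option autoImplicit false

namespace Q291.SA
open Finset H974 Pool.Agent.H160R2.CV Pool.Agent.H160R2.CV.Quad H362P Pool.Agent.Y244.PC Q291.CS
open MeasureTheory Filter

theorem small_up (E : ℝ) : ∃ C : ℝ, 0 < C ∧ ∀ q : ℝ, 1 / 2 ≤ q → q ≤ 1 → ∀ N : ℕ, 1 ≤ N →
    (N : ℝ) ^ (48 / 91 : ℝ) * (q - 1 / 2) ^ (4 / 3 : ℝ) ≤ E → ∀ L : ℕ,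
    2 * ⌈(N : ℝ) ^ (48 / 91 : ℝ)⌉₊ ≤ L →
    Pr (fun _ => q) (boxE L) (fun F => Vol N ↑F) ≤ C * (N : ℝ) ^ (-(5 / 91 : ℝ)) := by
  classical
  obtain ⟨C1, hC1, harm⟩ := arm_win (2 * E)
  have hka := kap_pos
  obtain ⟨D, hD⟩ : ∃ D : ℝ, D = 6912 / kap ^ 2 := ⟨_, rfl⟩
  have hD0 : 0 < D := by rw [hD]; positivity
  refine ⟨C1 + 4 * D * C1 ^ 2, by positivity, ?_⟩
  intro q hq h1 N hN hE L hL
  have h0 : 0 ≤ q := by linarith
  have ok := okq h0 h1
  have hN1 : (1 : ℝ) ≤ N := by exact_mod_cast hN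
  have hN0 : (0 : ℝ) < N := by linarith
  obtain ⟨t, ht⟩ : ∃ t : ℝ, t = (N : ℝ) ^ (48 / 91 : ℝ) := ⟨_, rfl⟩
  obtain ⟨a, ha⟩ : ∃ a : ℝ, a = (N : ℝ) ^ (-(5 / 91 : ℝ)) := ⟨_, rfl⟩
  rw [← ht] at hE hL
  rw [← ha]
  have ht1 : 1 ≤ t := by rw [ht]; exact Real.one_le_rpow hN1 (by norm_num)
  have ht0 : 0 < t := by linarith
  have ha0 : 0 < a := by rw [ha]; positivity
  have hta : t ^ 2 * a = N := by
    rw [ht, ha, ← Real.rpow_natCast, ← Real.rpow_mul hN0.le, ← Real.rpow_add hN0]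
    norm_num
  have hat : t ^ (-(5 / 48) : ℝ) = a := by
    rw [ht, ha, ← Real.rpow_mul hN0.le]
    norm_num
  set r := ⌈t⌉₊ with hr
  have hr1 : 1 ≤ r := by
    rw [hr, Nat.one_le_ceil_iff]
    exact ht0
  have htr : t ≤ r := Nat.le_ceil t
  have hrt : (r : ℝ) ≤ 2 * t := by
    have := Nat.ceil_lt_add_one ht0.le
    rw [← hr] at this
    linarith
  have hs0 : 0 ≤ (q - 1 / 2) ^ (4 / 3 : ℝ) := Real.rpow_nonneg (by linarith) _
  have hA : arm q r ≤ C1 * a := by
    have g1 := harm q hq h1 r hr1 (by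
      calc (r : ℝ) * (q - 1 / 2) ^ (4 / 3 : ℝ) ≤ 2 * t * (q - 1 / 2) ^ (4 / 3 : ℝ) :=
            mul_le_mul_of_nonneg_right hrt hs0
        _ ≤ 2 * E := by linarith)
    refine g1.trans ?_
    apply mul_le_mul_of_nonneg_left _ hC1.le
    rw [← hat]
    exact Real.rpow_le_rpow_of_nonpos ht0 htr (by norm_num)
  have hA0 := arm_nonneg h0 h1 r
  have s1 : Pr (fun _ => q) (boxE L) (fun F => Vol N ↑F) ≤
      Pr (fun _ => q) (boxE L) (fun F => LA 0 r F ∨ (N : ℝ) ≤ VT {(0 : Vtx)} (bx r) F) := by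
    apply Pr_mono ok
    rintro F _ ⟨T, hT, hTr⟩
    by_cases hw : ∃ w : Vtx, Reach (↑F) (0, 0) w ∧ r ≤ nv w
    · obtain ⟨w, hw1, hw2⟩ := hw
      left
      apply LA_of_reach (u := w) _ hw1
      show r ≤ nv (w - 0)
      rw [sub_zero]
      exact hw2
    · right
      push Not at hw
      refine hT.trans ?_
      unfold VT
      have hsub : T ⊆ bx r := by
        intro y hy
        rw [mem_bx]
        exact (hw y (hTr y hy)).le
      calc (T.card : ℝ) = ∑ y ∈ T, (1 : ℝ) := by rw [Finset.sum_const, nsmul_eq_mul, mul_one]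
        _ = ∑ y ∈ T, ind (GT {(0 : Vtx)} {y} F) := by
            apply Finset.sum_congr rfl
            intro y hy
            rw [ind_of]
            intro u hu
            rw [Finset.mem_singleton] at hu
            rw [hu]
            exact ⟨0, Set.mem_singleton _, (hTr y hy).symm⟩
        _ ≤ _ := Finset.sum_le_sum_of_subset_of_nonneg hsub (fun _ _ _ => ind_nonneg _)
  have s2 := Pr_or_le ok (boxE L) (LA 0 r) (fun F => (N : ℝ) ≤ VT {(0 : Vtx)} (bx r) F)
  have s3 := pr_LAq h0 h1 (boxE L) 0 r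
  have s4 : Pr (fun _ => q) (boxE L) (fun F => (N : ℝ) ≤ VT {(0 : Vtx)} (bx r) F) ≤
      4 * D * C1 ^ 2 * a := by
    have hm := mom_zero hq h1 hr1 (S := boxE L) (boxE_mono hL) 0
    rw [pow_zero, mul_one, ← hD] at hm
    have hpt : ∀ F ⊆ boxE L, ind ((N : ℝ) ≤ VT {(0 : Vtx)} (bx r) F) ≤
        VT {(0 : Vtx)} (bx r) F ^ (0 + 1) * (1 / N) := by
      intro F _
      rw [zero_add, pow_one]
      by_cases hF : (N : ℝ) ≤ VT {(0 : Vtx)} (bx r) F
      · rw [ind_of hF, mul_one_div, le_div_iff₀ hN0, one_mul]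
        exact hF
      · rw [ind_not_of hF]
        have := VT_nonneg {(0 : Vtx)} (bx r) F
        positivity
    have g1 := Ex_mono ok hpt
    rw [Ex_mul_right] at g1
    have g2 : D * ((r : ℝ) ^ 2 * (arm q r) ^ 2) ≤ 4 * D * C1 ^ 2 * a * N := by
      calc D * ((r : ℝ) ^ 2 * (arm q r) ^ 2) ≤ D * ((2 * t) ^ 2 * (C1 * a) ^ 2) := by
            apply mul_le_mul_of_nonneg_left _ hD0.le
            apply mul_le_mul _ _ (by positivity) (by positivity)
            · exact pow_le_pow_left₀ (by positivity) hrt 2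
            · exact pow_le_pow_left₀ hA0 hA 2
        _ = 4 * D * C1 ^ 2 * a * (t ^ 2 * a) := by ring
        _ = _ := by rw [hta]
    have g3 : Ex (fun _ => q) (boxE L) (fun F => VT {(0 : Vtx)} (bx r) F ^ (0 + 1)) ≤
        4 * D * C1 ^ 2 * a * N := by
      refine hm.trans ?_
      rw [zero_add, Nat.factorial_one, Nat.cast_one, mul_one]
      exact g2
    calc _ ≤ Ex (fun _ => q) (boxE L) (fun F => VT {(0 : Vtx)} (bx r) F ^ (0 + 1)) * (1 / N) := g1
      _ ≤ 4 * D * C1 ^ 2 * a * N * (1 / N) := mul_le_mul_of_nonneg_right g3 (by positivity)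
      _ = _ := by field_simp
  calc _ ≤ C1 * a + 4 * D * C1 ^ 2 * a := by linarith
    _ = _ := by ring

theorem pow_eqq {s : ℝ} (hs : 0 ≤ s) : s ^ (91 / 36 : ℝ) = (s ^ (4 / 3 : ℝ)) ^ (91 / 48 : ℝ) := by
  rw [← Real.rpow_mul hs]
  norm_num

theorem sqrt_exp {c u : ℝ} (hc : 0 < c) (_hu : 0 ≤ u) :
    u * Real.exp (-(c * u)) ≤ 2 / c * Real.exp (-(c / 2 * u)) := by
  have h1 : c / 2 * u ≤ Real.exp (c / 2 * u) := by
    have := Real.add_one_le_exp (c / 2 * u)
    linarith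
  have h2 : Real.exp (-(c * u)) = Real.exp (-(c / 2 * u)) * Real.exp (-(c / 2 * u)) := by
    rw [← Real.exp_add]
    congr 1
    ring
  have h3 : Real.exp (c / 2 * u) * Real.exp (-(c / 2 * u)) = 1 := by
    rw [← Real.exp_add, add_neg_cancel, Real.exp_zero]
  have hp := Real.exp_pos (-(c / 2 * u))
  rw [h2]
  calc u * (Real.exp (-(c / 2 * u)) * Real.exp (-(c / 2 * u)))
      = 2 / c * (c / 2 * u * Real.exp (-(c / 2 * u))) * Real.exp (-(c / 2 * u)) := by
        field_simp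
    _ ≤ 2 / c * (Real.exp (c / 2 * u) * Real.exp (-(c / 2 * u))) * Real.exp (-(c / 2 * u)) := by
        apply mul_le_mul_of_nonneg_right _ hp.le
        apply mul_le_mul_of_nonneg_left _ (by positivity)
        exact mul_le_mul_of_nonneg_right h1 hp.le
    _ = _ := by rw [h3]; ring

theorem upperA : ∃ c C : ℝ, 0 < c ∧ 0 < C ∧ ∀ p : unitInterval, (1 / 2 : ℝ) ≤ p → ∀ N : ℕ, 1 ≤ N →
    tf p N ≤ C * (N : ℝ) ^ (-(5 / 91 : ℝ)) *
      Real.exp (-(c * √(N * ((p : ℝ) - 1 / 2) ^ (91 / 36 : ℝ)))) := by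
  obtain ⟨A, c, E, K, hA, hc, hE, hK, hup⟩ := up_fin
  obtain ⟨C1, hC1, hsm⟩ := small_up (K * E)
  have hK0 : 0 < K := by linarith
  have hE0 : 0 < E := by linarith
  obtain ⟨W, hW⟩ : ∃ W : ℝ, W = c / (2 * E) := ⟨_, rfl⟩
  have hW0 : 0 < W := by rw [hW]; positivity
  obtain ⟨Z, hZ⟩ : ∃ Z : ℝ, Z = Real.exp (W * √(K * E ^ 2)) := ⟨_, rfl⟩
  have hZ1 : 1 ≤ Z := by rw [hZ]; exact Real.one_le_exp (by positivity)
  refine ⟨W, C1 * Z + A * (2 / c), hW0, by positivity, fun p hp N hN => ?_⟩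
  have hN1 : (1 : ℝ) ≤ N := by exact_mod_cast hN
  have hN0 : (0 : ℝ) < N := by linarith
  have hNp : 0 < (N : ℝ) ^ (-(5 / 91 : ℝ)) := by positivity
  rw [tf_eq]
  obtain ⟨s, hs⟩ : ∃ s : ℝ, s = (p : ℝ) - 1 / 2 := ⟨_, rfl⟩
  have hs0 : 0 ≤ s := by rw [hs]; linarith
  -- the small clusters
  have small : (N : ℝ) ^ (48 / 91 : ℝ) * s ^ (4 / 3 : ℝ) ≤ K * E →
      (N : ℝ) * s ^ (91 / 36 : ℝ) ≤ K * E ^ 2 →
      (bondLaw p).real {ω | Vol N (opn ω) ∧ (cluster0 ω).Finite} ≤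
        (C1 * Z + A * (2 / c)) * (N : ℝ) ^ (-(5 / 91 : ℝ)) *
          Real.exp (-(W * √(N * s ^ (91 / 36 : ℝ)))) := by
    intro h1 h2
    have g1 : (bondLaw p).real {ω | Vol N (opn ω) ∧ (cluster0 ω).Finite} ≤
        C1 * (N : ℝ) ^ (-(5 / 91 : ℝ)) := by
      apply fin_le p (loc_vol N)
      intro n
      refine ⟨2 * ⌈(N : ℝ) ^ (48 / 91 : ℝ)⌉₊, fun L hL => ?_⟩
      rw [hs] at h1
      refine le_trans ?_ (hsm p hp p.2.2 N hN h1 L hL)
      apply Pr_mono (okq p.2.1 p.2.2)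
      intro F _ hF
      exact hF.1
    refine g1.trans ?_
    have g2 : 1 ≤ Z * Real.exp (-(W * √(N * s ^ (91 / 36 : ℝ)))) := by
      rw [hZ, ← Real.exp_add]
      apply Real.one_le_exp
      have : √(N * s ^ (91 / 36 : ℝ)) ≤ √(K * E ^ 2) := Real.sqrt_le_sqrt h2
      nlinarith
    have g3 : 0 ≤ A * (2 / c) := by positivity
    have g4 := Real.exp_pos (-(W * √(N * s ^ (91 / 36 : ℝ))))
    calc C1 * (N : ℝ) ^ (-(5 / 91 : ℝ)) = C1 * (N : ℝ) ^ (-(5 / 91 : ℝ)) * 1 := by ring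
      _ ≤ C1 * (N : ℝ) ^ (-(5 / 91 : ℝ)) * (Z * Real.exp (-(W * √(N * s ^ (91 / 36 : ℝ))))) :=
          mul_le_mul_of_nonneg_left g2 (by positivity)
      _ = (C1 * Z) * (N : ℝ) ^ (-(5 / 91 : ℝ)) * Real.exp (-(W * √(N * s ^ (91 / 36 : ℝ)))) := by
          ring
      _ ≤ _ := by
          apply mul_le_mul_of_nonneg_right _ g4.le
          apply mul_le_mul_of_nonneg_right _ hNp.le
          linarith
  rw [← hs]
  rcases hs0.eq_or_lt with h | hspos
  · apply small
    · rw [← h, Real.zero_rpow (by norm_num), mul_zero]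
      positivity
    · rw [← h, Real.zero_rpow (by norm_num), mul_zero]
      positivity
  · obtain ⟨M, hM2, hME, hM1, -, hx⟩ := hup p (by linarith) p.2.2
    rw [← hs] at hME hM1
    have hM0 : (0 : ℝ) < M := by exact_mod_cast (by omega : 0 < M)
    obtain ⟨y, hy⟩ : ∃ y : ℝ, y = (M : ℝ) ^ (91 / 48 : ℝ) := ⟨_, rfl⟩
    obtain ⟨t, ht⟩ : ∃ t : ℝ, t = s ^ (91 / 36 : ℝ) := ⟨_, rfl⟩
    have hy0 : 0 < y := by rw [hy]; positivity
    have ht0 : 0 < t := by rw [ht]; positivity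
    have hyt : y * t = ((M : ℝ) * s ^ (4 / 3 : ℝ)) ^ (91 / 48 : ℝ) := by
      rw [hy, ht, pow_eqq hspos.le, Real.mul_rpow hM0.le (by positivity)]
    have hytE : y * t ≤ E ^ 2 := by
      rw [hyt]
      calc ((M : ℝ) * s ^ (4 / 3 : ℝ)) ^ (91 / 48 : ℝ) ≤ E ^ (91 / 48 : ℝ) :=
            Real.rpow_le_rpow (by positivity) hME (by norm_num)
        _ ≤ E ^ (2 : ℝ) := Real.rpow_le_rpow_of_exponent_le hE (by norm_num)
        _ = E ^ 2 := by rw [← Real.rpow_natCast]; norm_num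
    by_cases hcase : K * y ≤ N
    · -- large clusters
      rw [← hy] at hx
      have hb := fin_le p (loc_vol N) (c := A * (M : ℝ) ^ (-(5 / 48) : ℝ) *
        Real.exp (-(c * √((N : ℝ) / y)))) (fun n => hx N hcase n)
      refine hb.trans ?_
      obtain ⟨u, hu⟩ : ∃ u : ℝ, u = √((N : ℝ) / y) := ⟨_, rfl⟩
      have hNy : 1 ≤ (N : ℝ) / y := by
        rw [le_div_iff₀ hy0]
        nlinarith
      have hu1 : 1 ≤ u := by rw [hu]; exact Real.one_le_sqrt.mpr hNy
      have hu2 : u ^ 2 = N / y := by rw [hu]; exact Real.sq_sqrt (by positivity)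
      rw [← hu]
      -- the prefactor
      have g1 : (M : ℝ) ^ (-(5 / 48) : ℝ) ≤ (N : ℝ) ^ (-(5 / 91 : ℝ)) * u := by
        have e1 : (N : ℝ) = u ^ 2 * y := by rw [hu2]; field_simp
        have e2 : (N : ℝ) ^ (-(5 / 91 : ℝ)) = (u ^ 2) ^ (-(5 / 91 : ℝ)) *
            (M : ℝ) ^ (-(5 / 48) : ℝ) := by
          rw [e1, Real.mul_rpow (by positivity) hy0.le, hy, ← Real.rpow_mul hM0.le]
          congr 2
          norm_num
        rw [e2]
        have e3 : u⁻¹ ≤ (u ^ 2) ^ (-(5 / 91 : ℝ)) := by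
          have : (u ^ 2) ^ (-(5 / 91 : ℝ)) = u ^ (-(10 / 91 : ℝ)) := by
            rw [← Real.rpow_natCast, ← Real.rpow_mul (by linarith)]
            congr 1
            norm_num
          rw [this, ← Real.rpow_neg_one]
          exact Real.rpow_le_rpow_of_exponent_le hu1 (by norm_num)
        have e4 : 0 < (M : ℝ) ^ (-(5 / 48) : ℝ) := by positivity
        have e5 : u⁻¹ * u = 1 := by field_simp
        calc (M : ℝ) ^ (-(5 / 48) : ℝ) = (M : ℝ) ^ (-(5 / 48) : ℝ) * (u⁻¹ * u) := by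
              rw [e5, mul_one]
          _ ≤ (M : ℝ) ^ (-(5 / 48) : ℝ) * ((u ^ 2) ^ (-(5 / 91 : ℝ)) * u) := by
              apply mul_le_mul_of_nonneg_left _ e4.le
              exact mul_le_mul_of_nonneg_right e3 (by linarith)
          _ = _ := by ring
      have g2 := sqrt_exp hc (show 0 ≤ u by linarith)
      have g3 : √(N * t) ≤ u * E := by
        rw [Real.sqrt_le_left (by positivity)]
        have : (N : ℝ) * t = u ^ 2 * (y * t) := by
          rw [hu2]
          field_simp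
        rw [this, mul_pow]
        exact mul_le_mul_of_nonneg_left hytE (by positivity)
      have g4 : Real.exp (-(c / 2 * u)) ≤ Real.exp (-(W * √(N * t))) := by
        apply Real.exp_le_exp.mpr
        have : W * √(N * t) ≤ W * (u * E) := mul_le_mul_of_nonneg_left g3 hW0.le
        have e : W * (u * E) = c / 2 * u := by
          rw [hW]
          field_simp
        linarith
      rw [← ht]
      have hep := Real.exp_pos (-(c * u))
      calc A * (M : ℝ) ^ (-(5 / 48) : ℝ) * Real.exp (-(c * u))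
          ≤ A * ((N : ℝ) ^ (-(5 / 91 : ℝ)) * u) * Real.exp (-(c * u)) := by
            apply mul_le_mul_of_nonneg_right _ hep.le
            exact mul_le_mul_of_nonneg_left g1 hA.le
        _ = A * (N : ℝ) ^ (-(5 / 91 : ℝ)) * (u * Real.exp (-(c * u))) := by ring
        _ ≤ A * (N : ℝ) ^ (-(5 / 91 : ℝ)) * (2 / c * Real.exp (-(c / 2 * u))) :=
            mul_le_mul_of_nonneg_left g2 (by positivity)
        _ ≤ A * (N : ℝ) ^ (-(5 / 91 : ℝ)) * (2 / c * Real.exp (-(W * √(N * t)))) := by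
            apply mul_le_mul_of_nonneg_left _ (by positivity)
            exact mul_le_mul_of_nonneg_left g4 (by positivity)
        _ = (A * (2 / c)) * (N : ℝ) ^ (-(5 / 91 : ℝ)) * Real.exp (-(W * √(N * t))) := by ring
        _ ≤ _ := by
            apply mul_le_mul_of_nonneg_right _ (Real.exp_pos _).le
            apply mul_le_mul_of_nonneg_right _ hNp.le
            have : 0 ≤ C1 * Z := by positivity
            linarith
    · push Not at hcase
      apply small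
      · -- `N ^ (48/91) ≤ K M`
        have g1 : (N : ℝ) ^ (48 / 91 : ℝ) ≤ K * M := by
          calc (N : ℝ) ^ (48 / 91 : ℝ) ≤ (K * y) ^ (48 / 91 : ℝ) :=
                Real.rpow_le_rpow hN0.le hcase.le (by norm_num)
            _ = K ^ (48 / 91 : ℝ) * M := by
                rw [Real.mul_rpow hK0.le hy0.le, hy, ← Real.rpow_mul hM0.le]
                norm_num
            _ ≤ K * M := by
                apply mul_le_mul_of_nonneg_right _ hM0.le
                calc K ^ (48 / 91 : ℝ) ≤ K ^ (1 : ℝ) :=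
                      Real.rpow_le_rpow_of_exponent_le hK (by norm_num)
                  _ = K := Real.rpow_one K
        have g2 : 0 ≤ s ^ (4 / 3 : ℝ) := by positivity
        calc (N : ℝ) ^ (48 / 91 : ℝ) * s ^ (4 / 3 : ℝ) ≤ K * M * s ^ (4 / 3 : ℝ) :=
              mul_le_mul_of_nonneg_right g1 g2
          _ = K * (M * s ^ (4 / 3 : ℝ)) := by ring
          _ ≤ K * E := mul_le_mul_of_nonneg_left hME hK0.le
      · rw [← ht]
        calc (N : ℝ) * t ≤ K * y * t := mul_le_mul_of_nonneg_right hcase.le ht0.le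
          _ = K * (y * t) := by ring
          _ ≤ K * E ^ 2 := mul_le_mul_of_nonneg_left hytE hK0.le

theorem radUp : ∃ c C : ℝ, 0 < c ∧ 0 < C ∧ ∀ p : unitInterval, (1 / 2 : ℝ) ≤ p → ∀ n : ℕ, 1 ≤ n →
    rf p n ≤ C * (n : ℝ) ^ (-(5 / 48 : ℝ)) *
      Real.exp (-(c * (n * ((p : ℝ) - 1 / 2) ^ (4 / 3 : ℝ)))) := by
  obtain ⟨A, c0, E, K, hA, _, hE, hK, hup⟩ := up_fin
  have hE0 : 0 < E := by linarith
  obtain ⟨C1, hC1, harm⟩ := arm_win (4 * E)
  obtain ⟨W, hW⟩ : ∃ W : ℝ, W = 1 / (8 * E) := ⟨_, rfl⟩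
  have hW0 : 0 < W := by rw [hW]; positivity
  obtain ⟨Z, hZ⟩ : ∃ Z : ℝ, Z = Real.exp (W * (4 * E)) := ⟨_, rfl⟩
  have hZ1 : 1 ≤ Z := by rw [hZ]; exact Real.one_le_exp (by positivity)
  refine ⟨W, C1 * Z + A * 8, hW0, by positivity, fun p hp n hn => ?_⟩
  have hn1 : (1 : ℝ) ≤ n := by exact_mod_cast hn
  have hn0 : (0 : ℝ) < n := by linarith
  have hnp : 0 < (n : ℝ) ^ (-(5 / 48 : ℝ)) := by positivity
  rw [rf_eq]
  obtain ⟨s, hs⟩ : ∃ s : ℝ, s = (p : ℝ) - 1 / 2 := ⟨_, rfl⟩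
  have hs0 : 0 ≤ s := by rw [hs]; linarith
  obtain ⟨τ, hτ⟩ : ∃ τ : ℝ, τ = s ^ (4 / 3 : ℝ) := ⟨_, rfl⟩
  have hτ0 : 0 ≤ τ := by rw [hτ]; positivity
  have small : (n : ℝ) * τ ≤ 4 * E →
      (bondLaw p).real {ω | (∃ w : Vtx, Reach (opn ω) (0, 0) w ∧ n ≤ nv w) ∧
        (cluster0 ω).Finite} ≤ (C1 * Z + A * 8) * (n : ℝ) ^ (-(5 / 48 : ℝ)) *
          Real.exp (-(W * (n * τ))) := by
    intro h1
    have g1 : (bondLaw p).real {ω | (∃ w : Vtx, Reach (opn ω) (0, 0) w ∧ n ≤ nv w) ∧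
        (cluster0 ω).Finite} ≤ C1 * (n : ℝ) ^ (-(5 / 48) : ℝ) := by
      apply fin_le p (loc_far n)
      intro k
      refine ⟨0, fun L _ => ?_⟩
      rw [hτ, hs] at h1
      refine le_trans ?_ (harm p hp p.2.2 n hn h1)
      refine le_trans (Pr_mono (okq p.2.1 p.2.2) ?_) (pr_LAq p.2.1 p.2.2 (boxE L) 0 n)
      rintro F _ ⟨⟨w, hw, hw2⟩, -⟩
      apply LA_of_reach (u := w) _ hw
      show n ≤ nv (w - 0)
      rw [sub_zero]
      exact hw2
    refine g1.trans ?_
    have g2 : 1 ≤ Z * Real.exp (-(W * (n * τ))) := by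
      rw [hZ, ← Real.exp_add]
      apply Real.one_le_exp
      nlinarith
    have g3 : 0 ≤ A * 8 := by positivity
    have g4 := Real.exp_pos (-(W * (n * τ)))
    calc C1 * (n : ℝ) ^ (-(5 / 48) : ℝ) = C1 * (n : ℝ) ^ (-(5 / 48 : ℝ)) * 1 := by ring
      _ ≤ C1 * (n : ℝ) ^ (-(5 / 48 : ℝ)) * (Z * Real.exp (-(W * (n * τ)))) :=
          mul_le_mul_of_nonneg_left g2 (by positivity)
      _ = (C1 * Z) * (n : ℝ) ^ (-(5 / 48 : ℝ)) * Real.exp (-(W * (n * τ))) := by ring
      _ ≤ _ := by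
          apply mul_le_mul_of_nonneg_right _ g4.le
          apply mul_le_mul_of_nonneg_right _ hnp.le
          linarith
  rw [← hs, ← hτ]
  rcases hs0.eq_or_lt with h | hspos
  · apply small
    rw [hτ, ← h, Real.zero_rpow (by norm_num), mul_zero]
    positivity
  · obtain ⟨M, hM2, hME, hM1, hr, -⟩ := hup p (by linarith) p.2.2
    rw [← hs, ← hτ] at hME hM1
    have hM0 : (0 : ℝ) < M := by exact_mod_cast (by omega : 0 < M)
    by_cases hcase : 4 * M ≤ n
    · obtain ⟨j, hj1, hj2⟩ := exists_nat_pow_near (x := (n : ℝ) / (2 * M)) (y := 2) (by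
        rw [le_div_iff₀ (by positivity)]
        have : (4 : ℝ) * M ≤ n := by exact_mod_cast hcase
        linarith) (by norm_num)
      have hjn : 2 * (2 ^ j * M) ≤ n := by
        rw [le_div_iff₀ (by positivity)] at hj1
        have : ((2 * (2 ^ j * M) : ℕ) : ℝ) ≤ n := by
          push_cast
          linarith
        exact_mod_cast this
      have hb := fin_le p (loc_far n) (c := A * (M : ℝ) ^ (-(5 / 48) : ℝ) * (1 / 4) ^ (2 ^ j))
        (fun k => by
          obtain ⟨L0, hL0⟩ := hr j k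
          refine ⟨L0, fun L hL => le_trans ?_ (hL0 L hL)⟩
          apply Pr_mono (okq p.2.1 p.2.2)
          rintro F _ ⟨⟨w, hw, hw2⟩, hall⟩
          exact ⟨⟨w, hw, hjn.trans hw2⟩, hall⟩)
      refine hb.trans ?_
      obtain ⟨u, hu⟩ : ∃ u : ℝ, u = (n : ℝ) / M := ⟨_, rfl⟩
      have hu4 : 4 ≤ u := by
        rw [hu, le_div_iff₀ hM0]
        exact_mod_cast hcase
      have g0 : u / 4 ≤ (2 : ℝ) ^ j := by
        rw [pow_succ] at hj2
        have : (n : ℝ) / (2 * M) = u / 2 := by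
          rw [hu]
          field_simp
        rw [this] at hj2
        linarith
      have g1 : ((1 : ℝ) / 4) ^ (2 ^ j) ≤ Real.exp (-(1 / 4 * u)) := by
        calc ((1 : ℝ) / 4) ^ (2 ^ j) ≤ (Real.exp (-1)) ^ (2 ^ j) := by
              apply pow_le_pow_left₀ (by norm_num)
              rw [Real.exp_neg, one_div]
              apply inv_anti₀ (Real.exp_pos _)
              have := Real.exp_one_lt_d9
              linarith
          _ = Real.exp (-((2 : ℝ) ^ j)) := by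
              rw [← Real.exp_nat_mul]
              congr 1
              push_cast
              ring
          _ ≤ _ := Real.exp_le_exp.mpr (by linarith)
      have g2 : (M : ℝ) ^ (-(5 / 48) : ℝ) ≤ (n : ℝ) ^ (-(5 / 48 : ℝ)) * u := by
        have e1 : (n : ℝ) = u * M := by rw [hu]; field_simp
        rw [e1, Real.mul_rpow (by linarith) hM0.le]
        have e3 : u⁻¹ ≤ u ^ (-(5 / 48 : ℝ)) := by
          rw [← Real.rpow_neg_one]
          exact Real.rpow_le_rpow_of_exponent_le (by linarith) (by norm_num)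
        have e4 : 0 < (M : ℝ) ^ (-(5 / 48) : ℝ) := by positivity
        have e5 : u⁻¹ * u = 1 := by
          have : u ≠ 0 := by linarith
          field_simp
        calc (M : ℝ) ^ (-(5 / 48) : ℝ) = (M : ℝ) ^ (-(5 / 48) : ℝ) * (u⁻¹ * u) := by
              rw [e5, mul_one]
          _ ≤ (M : ℝ) ^ (-(5 / 48) : ℝ) * (u ^ (-(5 / 48 : ℝ)) * u) := by
              apply mul_le_mul_of_nonneg_left _ e4.le
              exact mul_le_mul_of_nonneg_right e3 (by linarith)
          _ = _ := by ring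
      have g3 := sqrt_exp (c := 1 / 4) (by norm_num) (show 0 ≤ u by linarith)
      have g4 : Real.exp (-(1 / 4 / 2 * u)) ≤ Real.exp (-(W * (n * τ))) := by
        apply Real.exp_le_exp.mpr
        have e : W * (n * τ) ≤ 1 / 8 * u := by
          have e1 : (n : ℝ) = u * M := by rw [hu]; field_simp
          calc W * (n * τ) = W * u * (M * τ) := by rw [e1]; ring
            _ ≤ W * u * E := mul_le_mul_of_nonneg_left hME (by positivity)
            _ = 1 / 8 * u := by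
                rw [hW]
                field_simp
        linarith
      calc A * (M : ℝ) ^ (-(5 / 48) : ℝ) * (1 / 4) ^ (2 ^ j)
          ≤ A * ((n : ℝ) ^ (-(5 / 48 : ℝ)) * u) * Real.exp (-(1 / 4 * u)) := by
            apply mul_le_mul _ g1 (by positivity) (by positivity)
            exact mul_le_mul_of_nonneg_left g2 hA.le
        _ = A * (n : ℝ) ^ (-(5 / 48 : ℝ)) * (u * Real.exp (-(1 / 4 * u))) := by ring
        _ ≤ A * (n : ℝ) ^ (-(5 / 48 : ℝ)) * (2 / (1 / 4) * Real.exp (-(1 / 4 / 2 * u))) :=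
            mul_le_mul_of_nonneg_left g3 (by positivity)
        _ ≤ A * (n : ℝ) ^ (-(5 / 48 : ℝ)) * (2 / (1 / 4) * Real.exp (-(W * (n * τ)))) := by
            apply mul_le_mul_of_nonneg_left _ (by positivity)
            exact mul_le_mul_of_nonneg_left g4 (by positivity)
        _ = (A * 8) * (n : ℝ) ^ (-(5 / 48 : ℝ)) * Real.exp (-(W * (n * τ))) := by ring
        _ ≤ _ := by
            apply mul_le_mul_of_nonneg_right _ (Real.exp_pos _).le
            apply mul_le_mul_of_nonneg_right _ hnp.le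
            have : 0 ≤ C1 * Z := by positivity
            linarith
    · push Not at hcase
      apply small
      have : (n : ℝ) ≤ 4 * M := by exact_mod_cast hcase.le
      calc (n : ℝ) * τ ≤ 4 * M * τ := mul_le_mul_of_nonneg_right this hτ0
        _ = 4 * (M * τ) := by ring
        _ ≤ 4 * E := by linarith

end Q291.SA
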