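import Pool.Agent.Q291.SA.Sum
import Pool.Agent.Q291.CS.Lower

/-!
The lower bound for the size of the finite clusters above the critical point, in finite volume.
-/

set_option autoImplicit false

namespace Q291.SA
open Finset H974 Pool.Agent.H160R2.CV Pool.Agent.H160R2.CV.Quad H362P Pool.Agent.Y244.PC Q291.CS

variable {q : ℝ}

theorem pz {E : Type*} [DecidableEq E] {p : E → ℝ} (ok : Ok p) {S : Finset E}
    {Y : Finset E → ℝ} (hY : ∀ F, 0 ≤ Y F) {μ D : ℝ} (hμ : 0 < μ) (hD : 0 < D)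
    (h1 : μ ≤ Ex p S Y) (h2 : Ex p S (fun F => Y F ^ 2) ≤ D * μ ^ 2) :
    1 / (4 * D) ≤ Pr p S (fun F => μ / 2 ≤ Y F) := by
  have hpt : ∀ F, Y F ≤ μ / 2 + (1 / (4 * D * μ) * Y F ^ 2 + D * μ * ind (μ / 2 ≤ Y F)) := by
    intro F
    by_cases hy : μ / 2 ≤ Y F
    · rw [ind_of hy, mul_one]
      have h10 : Y F ≤ 1 / (4 * D * μ) * Y F ^ 2 + D * μ := by
        rw [← sub_nonneg]
        have : 1 / (4 * D * μ) * Y F ^ 2 + D * μ - Y F =
            1 / (4 * D * μ) * (Y F - 2 * D * μ) ^ 2 := by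
          field_simp
          ring
        rw [this]
        positivity
      linarith
    · push Not at hy
      rw [ind_not_of (not_le.mpr hy)]
      have := hY F
      have : 0 ≤ 1 / (4 * D * μ) * Y F ^ 2 := by positivity
      linarith
  have h3 := Ex_mono ok (S := S) (fun F _ => hpt F)
  rw [Ex_add, Ex_const, Ex_add, Ex_mul_left, Ex_mul_left] at h3
  have h4 : 1 / (4 * D * μ) * Ex p S (fun F => Y F ^ 2) ≤ 1 / (4 * D * μ) * (D * μ ^ 2) :=
    mul_le_mul_of_nonneg_left h2 (by positivity)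
  have h5 : 1 / (4 * D * μ) * (D * μ ^ 2) = μ / 4 := by
    field_simp
  rw [h5] at h4
  have h6 : μ / 4 ≤ D * μ * Pr p S (fun F => μ / 2 ≤ Y F) := by
    have : Ex p S (fun F => ind (μ / 2 ≤ Y F)) = Pr p S (fun F => μ / 2 ≤ Y F) := rfl
    rw [this] at h3
    linarith
  rw [div_le_iff₀ (by positivity)]
  have h7 : μ * (1 / 4) ≤ μ * (D * Pr p S (fun F => μ / 2 ≤ Y F)) := by linarith
  have h8 := le_of_mul_le_mul_left h7 hμ
  linarith

theorem Far_loc {v : Vtx} {m : ℕ} {T : Finset Edg} (h : bo v m ⊆ T) : LocE T (Far v m) := by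
  intro F
  rw [← LA_iff, ← LA_iff]
  exact LA_loc h F

/-- the number of the vertices with a long arm -/
theorem count_q : ∃ c : ℝ, 0 < c ∧ ∀ (q : ℝ) (m : ℕ), 1 / 2 ≤ q → q ≤ 1 → 1 ≤ m →
    ∀ S : Finset Edg, boxE (5 * m) ⊆ S →
      c ≤ Pr (fun _ => q) S (fun F => 2 * ((m : ℝ) ^ 2 * arm q (4 * m)) ≤ Yc m F) := by
  classical
  have hka := kap_pos
  have hK0 := K0_pos
  obtain ⟨D, hD⟩ : ∃ D : ℝ, D = 200 * (K0 / kap) ^ 2 := ⟨_, rfl⟩
  have hD0 : 0 < D := by rw [hD]; positivity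
  refine ⟨1 / (4 * D), by positivity, ?_⟩
  intro q m hq h1 hm S hS
  have h0 : 0 ≤ q := by linarith
  have ok := okq h0 h1
  have hm1 : (1 : ℝ) ≤ m := by exact_mod_cast hm
  have hap : 0 < arm q (4 * m) := Pool.Agent.W424.NC.arm_pos (by linarith) h1 _
  obtain ⟨μ, hμ⟩ : ∃ μ : ℝ, μ = 4 * ((m : ℝ) ^ 2 * arm q (4 * m)) := ⟨_, rfl⟩
  have hμ0 : 0 < μ := by rw [hμ]; positivity
  have hEY : μ ≤ Ex (fun _ => q) S (Yc m) := by
    have e0 : Ex (fun _ => q) S (Yc m) =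
        ∑ x ∈ bx m, Ex (fun _ => q) S (fun F => ind (Far x (4 * m) F)) := by
      unfold Yc
      rw [Ex_sum]
    rw [e0]
    have h5 : ∀ x ∈ bx m, arm q (4 * m) ≤ Ex (fun _ => q) S (fun F => ind (Far x (4 * m) F)) := by
      intro x hx
      apply far_prob h0 h1
      refine Finset.Subset.trans ?_ hS
      apply bo_sub_box
      rw [mem_bx] at hx
      omega
    calc μ ≤ (2 * (m : ℝ) + 1) ^ 2 * arm q (4 * m) := by
          rw [hμ]
          nlinarith
      _ = ∑ x ∈ bx m, arm q (4 * m) := by rw [Finset.sum_const, nsmul_eq_mul, w_card_bx]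
      _ ≤ _ := Finset.sum_le_sum h5
  have hEY2 : Ex (fun _ => q) S (fun F => Yc m F ^ 2) ≤ D * μ ^ 2 := by
    have g1 : ∀ F, Yc m F ≤ VT {w | 3 * m ≤ nv w} (bx m) F := by
      intro F
      unfold Yc VT
      apply Finset.sum_le_sum
      intro x hx
      apply ind_mono
      rintro ⟨u, hu, hr⟩ y hy
      rw [Finset.mem_singleton] at hy
      rw [hy]
      refine ⟨u, ?_, hr⟩
      show 3 * m ≤ nv u
      rw [mem_bx] at hx
      have := nv_tri u 0 x
      rw [sub_zero, zero_sub, nv_neg] at this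
      omega
    have g2 : Ex (fun _ => q) S (fun F => Yc m F ^ 2) ≤
        Ex (fun _ => q) S (fun F => VT {w | 3 * m ≤ nv w} (bx m) F ^ 2) := by
      apply Ex_mono ok
      intro F _
      exact pow_le_pow_left₀ (Yc_nonneg m F) (g1 F) 2
    have g3 := mom_far hq h1 (T := {w | 3 * m ≤ nv w}) (B := bx m) (S := S) (M := 2 * m)
      (by omega) (by
        intro x hx y hy
        rw [mem_bx] at hx hy
        unfold nv at *
        simp only [Prod.fst_sub, Prod.snd_sub]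
        omega) (by
        rw [w_card_bx]
        push_cast
        nlinarith) (by
        intro x hx w hw
        rw [mem_bx] at hx
        have hw' : 3 * m ≤ nv w := hw
        have := nv_tri w x 0
        rw [sub_zero, sub_zero] at this
        omega) (by
        intro x hx
        rw [mem_bx] at hx
        exact bo_sub.trans ((boxE_mono (by omega)).trans hS)) 2
    refine g2.trans (g3.trans ?_)
    have g4 : kap * arm q (2 * m) ≤ 10 * arm q (4 * m) := by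
      have h := arm_ratio hq h1 (r := 2 * m) (n := 4 * m) (by omega) (by omega)
      push_cast at h
      have h3 : (kap * arm q (2 * m)) ^ 2 ≤ (10 * arm q (4 * m)) ^ 2 := by
        have h4 : (2 * (m : ℝ)) * (kap * arm q (2 * m)) ^ 2 ≤
            (2 * (m : ℝ)) * (96 * (arm q (4 * m)) ^ 2) := by
          calc (2 * (m : ℝ)) * (kap * arm q (2 * m)) ^ 2 =
              kap ^ 2 * (2 * m) * (arm q (2 * m)) ^ 2 := by ring
            _ ≤ 48 * (4 * m) * (arm q (4 * m)) ^ 2 := h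
            _ = _ := by ring
        have h5 := le_of_mul_le_mul_left h4 (by positivity)
        nlinarith [sq_nonneg (arm q (4 * m))]
      exact (le_abs_self _).trans (abs_le_of_sq_le_sq h3 (by positivity))
    have g5 : arm q (2 * m) ≤ 10 / kap * arm q (4 * m) := by
      rw [div_mul_eq_mul_div, le_div_iff₀ hka]
      linarith
    have hb2 := arm_nonneg h0 h1 (2 * m)
    calc ((2 : ℕ).factorial : ℝ) * (K0 * (((2 * m : ℕ) : ℝ) ^ 2 * arm q (2 * m))) ^ 2
        ≤ 2 * (K0 * (((2 * m : ℕ) : ℝ) ^ 2 * (10 / kap * arm q (4 * m)))) ^ 2 := by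
          rw [Nat.factorial_two]
          push_cast
          apply mul_le_mul_of_nonneg_left _ (by norm_num)
          apply pow_le_pow_left₀ (by positivity)
          apply mul_le_mul_of_nonneg_left _ hK0.le
          exact mul_le_mul_of_nonneg_left g5 (by positivity)
      _ = D * μ ^ 2 := by
          rw [hD, hμ]
          push_cast
          ring
  have h := pz ok (Yc_nonneg m) hμ0 hD0 hEY hEY2
  have e : μ / 2 = 2 * ((m : ℝ) ^ 2 * arm q (4 * m)) := by rw [hμ]; ring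
  rwa [e] at h

/-- the closed circuit -/
theorem pr_Blk_low : ∃ c C : ℝ, 0 < c ∧ 0 < C ∧ ∀ (q : ℝ) (m : ℕ), 1 / 2 ≤ q → q ≤ 3 / 4 → 1 ≤ m →
    ∀ S : Finset Edg, annE (5 * m) (10 * m) ⊆ S →
      c * Real.exp (-(C * (m * (q - 1 / 2) ^ (4 / 3 : ℝ)))) ≤
        Pr (fun _ => q) S (Blk ((5 * m : ℕ) : ℤ) ((10 * m : ℕ) : ℤ)) := by
  obtain ⟨κ, a, C, hκ, _, hC, hnear⟩ := Pool.Agent.W424.NC.nearG
  obtain ⟨κ2, hκ2⟩ : ∃ κ2 : ℝ, κ2 = 2 * Real.log (1 / κ) := ⟨_, rfl⟩
  obtain ⟨κ1, hκ1⟩ : ∃ κ1 : ℝ, κ1 = |κ2| := ⟨_, rfl⟩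
  have hκ10 : 0 ≤ κ1 := by rw [hκ1]; exact abs_nonneg _
  refine ⟨(κ * Real.exp (-(6 * κ1))) ^ 4, 24 * κ1 * C + 1, by positivity, by positivity, ?_⟩
  intro q m hq hq2 hm S hS
  have h1 : q ≤ 1 := by linarith
  have h0 : 0 ≤ q := by linarith
  have ok := okq h0 h1
  have hm1 : (1 : ℝ) ≤ m := by exact_mod_cast hm
  have hs0 : 0 ≤ q - 1 / 2 := by linarith
  obtain ⟨σ, hσ⟩ : ∃ σ : ℝ, σ = (q - 1 / 2) ^ (4 / 3 : ℝ) := ⟨_, rfl⟩
  have hσ0 : 0 ≤ σ := by rw [hσ]; positivity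
  obtain ⟨m', hm'1, hm'2, hW, -, hor⟩ := hnear (1 - q) m (by linarith) (by linarith) hm
  have e12 : 1 / 2 - (1 - q) = q - 1 / 2 := by ring
  rw [e12, ← hσ] at hor
  rw [← hσ]
  have hm'0 : (0 : ℝ) < m' := by exact_mod_cast hm'1
  -- the long crossing of the dual lattice
  have hx := Pool.Agent.W424.NC.hh_exp hW (n := 20 * m + 1) (by omega) (by omega)
  have hdiv : ((20 * m + 1 : ℕ) : ℝ) / ((4 * m' : ℕ) : ℝ) ≤ 6 + 6 * C * (m * σ) := by
    rw [div_le_iff₀ (by positivity)]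
    push_cast
    rcases hor with h | h
    · rw [h]
      have : 0 ≤ 6 * C * (m * σ) * (4 * m) := by positivity
      nlinarith
    · have h3 : (m : ℝ) ≤ C * (m' * σ) * m := by nlinarith
      have h4 : 20 * (m : ℝ) + 1 ≤ 24 * m := by linarith
      have h5 : 6 * C * (m * σ) * (4 * m') = 24 * (C * (m' * σ) * m) := by ring
      nlinarith
  have hval : κ * Real.exp (-(6 * κ1)) * Real.exp (-(6 * κ1 * C * (m * σ))) ≤
      hh (1 - q) ((20 * m + 1 : ℕ) : ℤ) ((4 * m' : ℕ) : ℤ) := by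
    refine le_trans ?_ hx
    rw [mul_assoc, ← Real.exp_add]
    apply mul_le_mul_of_nonneg_left _ hκ.le
    apply Real.exp_le_exp.mpr
    rw [← hκ2]
    have g1 : κ2 * (((20 * m + 1 : ℕ) : ℝ) / ((4 * m' : ℕ) : ℝ)) ≤
        κ1 * (6 + 6 * C * (m * σ)) := by
      have g2 : 0 ≤ ((20 * m + 1 : ℕ) : ℝ) / ((4 * m' : ℕ) : ℝ) := by positivity
      calc κ2 * (((20 * m + 1 : ℕ) : ℝ) / ((4 * m' : ℕ) : ℝ))
          ≤ κ1 * (((20 * m + 1 : ℕ) : ℝ) / ((4 * m' : ℕ) : ℝ)) := by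
            apply mul_le_mul_of_nonneg_right _ g2
            rw [hκ1]
            exact le_abs_self _
        _ ≤ _ := mul_le_mul_of_nonneg_left hdiv hκ10
    linarith
  obtain ⟨s1, s2, s3, s4⟩ := ann_sub (n := 5 * m) (m := 10 * m) (by omega)
  set R2 : ℤ := ((10 * m : ℕ) : ℤ) with hR2
  set R1 : ℤ := ((5 * m : ℕ) : ℤ) with hR1
  have e1 := pr_LRc q (s1.trans hS)
  have e2 := pr_LRc q (s2.trans hS)
  have e3 := pr_TBc q (s3.trans hS)
  have e4 := pr_TBc q (s4.trans hS)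
  have d1 : R2 - R1 = 5 * m := by rw [hR1, hR2]; push_cast; ring
  have d2 : R2 - -R2 = 20 * m := by rw [hR2]; push_cast; ring
  have d3 : -R1 - -R2 = 5 * m := by rw [hR1, hR2]; push_cast; ring
  rw [d1, d2] at e1
  rw [d3, d2] at e2
  rw [d1, d2] at e3
  rw [d3, d2] at e4
  have hdual := hh_dual (q := q) (w := 5 * m) (h := 20 * m) (by omega) (by omega)
  have hmono : hh (1 - q) ((20 * m + 1 : ℕ) : ℤ) ((4 * m' : ℕ) : ℤ) ≤
      hh (1 - q) (20 * m + 1) (5 * m - 1) := by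
    apply hh_mono (by linarith) (by linarith) <;> push_cast <;> omega
  obtain ⟨v, hv⟩ : ∃ v : ℝ, v = κ * Real.exp (-(6 * κ1)) *
    Real.exp (-(6 * κ1 * C * (m * σ))) := ⟨_, rfl⟩
  have hv0 : 0 ≤ v := by rw [hv]; positivity
  have hval2 : v ≤ 1 - hh q (5 * m) (20 * m) := by
    rw [hv]
    linarith
  have i1 := Pr_harris_dd ok (LRc_incr S R1 R2 (-R2) R2) (LRc_incr S (-R2) (-R1) (-R2) R2)
  have i2 := Pr_harris_dd ok (TBc_incr S (-R2) R2 R1 R2) (TBc_incr S (-R2) R2 (-R2) (-R1))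
  rw [e1, e2] at i1
  rw [e3, e4] at i2
  have c1 : IncrE S (fun F => LRc R1 R2 (-R2) R2 F ∨ LRc (-R2) (-R1) (-R2) R2 F) :=
    fun F G hFG _ hF => hF.imp (LRc.mono hFG) (LRc.mono hFG)
  have c2 : IncrE S (fun F => TBc (-R2) R2 R1 R2 F ∨ TBc (-R2) R2 (-R2) (-R1) F) :=
    fun F G hFG _ hF => hF.imp (TBc.mono hFG) (TBc.mono hFG)
  have i3 := Pr_harris_dd ok c1 c2
  rw [← Pr_not, ← Pr_not] at i3
  have j1 : Pr (fun _ => q) S (fun F => ¬ (LRc R1 R2 (-R2) R2 F ∨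
      LRc (-R2) (-R1) (-R2) R2 F)) = Pr (fun _ => q) S (fun F => ¬ LRc R1 R2 (-R2) R2 F ∧
      ¬ LRc (-R2) (-R1) (-R2) R2 F) := Pr_congr (fun F _ => not_or)
  have j2 : Pr (fun _ => q) S (fun F => ¬ (TBc (-R2) R2 R1 R2 F ∨
      TBc (-R2) R2 (-R2) (-R1) F)) = Pr (fun _ => q) S (fun F => ¬ TBc (-R2) R2 R1 R2 F ∧
      ¬ TBc (-R2) R2 (-R2) (-R1) F) := Pr_congr (fun F _ => not_or)
  rw [j1, j2] at i3
  have k1 : v * v ≤ Pr (fun _ => q) S (fun F => ¬ LRc R1 R2 (-R2) R2 F ∧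
      ¬ LRc (-R2) (-R1) (-R2) R2 F) :=
    (mul_le_mul hval2 hval2 hv0 (hv0.trans hval2)).trans i1
  have k2 : v * v ≤ Pr (fun _ => q) S (fun F => ¬ TBc (-R2) R2 R1 R2 F ∧
      ¬ TBc (-R2) R2 (-R2) (-R1) F) :=
    (mul_le_mul hval2 hval2 hv0 (hv0.trans hval2)).trans i2
  have k3 : (v * v) * (v * v) ≤ Pr (fun _ => q) S (Blk R1 R2) := by
    refine le_trans (mul_le_mul k1 k2 (by positivity) (Pr_nonneg ok _ _)) (i3.trans (le_of_eq ?_))
    apply Pr_congr
    intro F _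
    unfold Blk
    rfl
  refine le_trans ?_ k3
  have e5 : (v * v) * (v * v) = (κ * Real.exp (-(6 * κ1))) ^ 4 *
      Real.exp (-(24 * κ1 * C * (m * σ))) := by
    rw [hv]
    have : Real.exp (-(24 * κ1 * C * (m * σ))) = Real.exp (-(6 * κ1 * C * (m * σ))) ^ 4 := by
      rw [← Real.exp_nat_mul]
      congr 1
      push_cast
      ring
    rw [this]
    ring
  rw [e5]
  apply mul_le_mul_of_nonneg_left _ (by positivity)
  apply Real.exp_le_exp.mpr
  have : 0 ≤ (m : ℝ) * σ := by positivity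
  linarith

/-- the lower bound in finite volume -/
theorem low_fin : ∃ c C : ℝ, 0 < c ∧ 0 < C ∧ ∀ (q : ℝ) (m : ℕ), 1 / 2 ≤ q → q ≤ 3 / 4 → 1 ≤ m →
    c * arm q (4 * m) * Real.exp (-(C * (m * (q - 1 / 2) ^ (4 / 3 : ℝ)))) ≤
      Pr (fun _ => q) (boxE (10 * m)) (fun F => (Vol (2 * ((m : ℝ) ^ 2 * arm q (4 * m))) ↑F ∧
        ∃ w : Vtx, Reach (↑F) (0, 0) w ∧ 4 * m ≤ nv w) ∧
        Blk ((5 * m : ℕ) : ℤ) ((10 * m : ℕ) : ℤ) F) := by
  classical
  obtain ⟨c1, hc1, hcount⟩ := count_q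
  obtain ⟨c2, C2, hc2, hC2, hblk⟩ := pr_Blk_low
  have hka := kap_pos
  refine ⟨kap * c1 * c2, C2, by positivity, hC2, ?_⟩
  intro q m hq hq2 hm
  have h1 : q ≤ 1 := by linarith
  have h0 : 0 ≤ q := by linarith
  have ok := okq h0 h1
  have hap : 0 ≤ arm q (4 * m) := arm_nonneg h0 h1 _
  set y : ℝ := 2 * ((m : ℝ) ^ 2 * arm q (4 * m)) with hy
  set A : Finset Edg → Prop := fun F => (Far 0 (4 * m) F ∧ CA 0 m (3 * m) F) ∧ y ≤ Yc m F with hA
  have hAinc : ∀ F G : Finset Edg, F ⊆ G → A F → A G := by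
    rintro F G h ⟨⟨⟨u, hu, hr⟩, hC⟩, hY⟩
    refine ⟨⟨⟨u, hu, hr.mono (by exact_mod_cast h)⟩, ?_⟩, hY.trans (Yc_mono h)⟩
    exact CA_incr G 0 m (3 * m) F G h (Finset.Subset.refl _) hC
  have hAloc : ∀ F : Finset Edg, A F ↔ A (F ∩ boxE (5 * m)) := by
    intro F
    have l1 : Far 0 (4 * m) F ↔ Far 0 (4 * m) (F ∩ boxE (5 * m)) := by
      apply Far_loc
      apply bo_sub_box
      have : nv (0 : Vtx) = 0 := rfl
      omega
    have l2 : CA 0 m (3 * m) F ↔ CA 0 m (3 * m) (F ∩ boxE (5 * m)) := by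
      unfold CA Circ
      rw [LSym.mp_inter]
      have e : (trl (-(0 : Vtx).1) (-(0 : Vtx).2)).mp (boxE (5 * m)) = boxE (5 * m) := by
        unfold boxE
        rw [trl_RE]
        congr 1 <;> simp
      rw [e]
      have hsub : RE (-((3 * m : ℕ) : ℤ)) ((3 * m : ℕ) : ℤ) (-((3 * m : ℕ) : ℤ)) ((3 * m : ℕ) : ℤ) ⊆
          boxE (5 * m) := by
        unfold boxE
        apply RE_subset <;> push_cast <;> omega
      rw [← LRc_local (a := -((3 * m : ℕ) : ℤ)) (b := ((3 * m : ℕ) : ℤ)) (c := (m : ℤ))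
          (d := ((3 * m : ℕ) : ℤ)) (LRE_subset_RE.trans ((RE_subset le_rfl le_rfl
            (by push_cast; omega) le_rfl).trans hsub)),
        ← LRc_local (a := -((3 * m : ℕ) : ℤ)) (b := ((3 * m : ℕ) : ℤ))
          (c := -((3 * m : ℕ) : ℤ)) (d := -(m : ℤ)) (LRE_subset_RE.trans ((RE_subset le_rfl le_rfl
            le_rfl (by push_cast; omega)).trans hsub)),
        ← TBc_local (a := (m : ℤ)) (b := ((3 * m : ℕ) : ℤ)) (c := -((3 * m : ℕ) : ℤ))
          (d := ((3 * m : ℕ) : ℤ)) (TBE_subset_RE.trans ((RE_subset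
            (by push_cast; omega) le_rfl le_rfl le_rfl).trans hsub)),
        ← TBc_local (a := -((3 * m : ℕ) : ℤ)) (b := -(m : ℤ)) (c := -((3 * m : ℕ) : ℤ))
          (d := ((3 * m : ℕ) : ℤ)) (TBE_subset_RE.trans ((RE_subset
            le_rfl (by push_cast; omega) le_rfl le_rfl).trans hsub))]
    have l3 : Yc m F = Yc m (F ∩ boxE (5 * m)) := by
      unfold Yc
      apply Finset.sum_congr rfl
      intro x hx
      apply ind_congr
      apply Far_loc
      apply bo_sub_box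
      rw [mem_bx] at hx
      omega
    show ((Far 0 (4 * m) F ∧ CA 0 m (3 * m) F) ∧ y ≤ Yc m F) ↔
      ((Far 0 (4 * m) (F ∩ boxE (5 * m)) ∧ CA 0 m (3 * m) (F ∩ boxE (5 * m))) ∧
        y ≤ Yc m (F ∩ boxE (5 * m)))
    rw [← l1, ← l2, ← l3]
  -- the probability of A
  have hPA : arm q (4 * m) * kap * c1 ≤ Pr (fun _ => q) (boxE (10 * m)) A := by
    have b1 : boxE (5 * m) ⊆ boxE (10 * m) := boxE_mono (by omega)
    have p1 : arm q (4 * m) ≤ Pr (fun _ => q) (boxE (10 * m)) (Far 0 (4 * m)) := by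
      apply far_prob h0 h1
      refine Finset.Subset.trans ?_ b1
      apply bo_sub_box
      have : nv (0 : Vtx) = 0 := rfl
      omega
    have p2 : kap ≤ Pr (fun _ => q) (boxE (10 * m)) (CA 0 m (3 * m)) := by
      unfold kap
      apply pr_CAq hq h1 hm
      refine Finset.Subset.trans ?_ b1
      apply bo_sub_box
      have : nv (0 : Vtx) = 0 := rfl
      omega
    have p3 := hcount q m hq h1 hm (boxE (10 * m)) b1
    rw [← hy] at p3
    have iF : IncrE (boxE (10 * m)) (Far 0 (4 * m)) := by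
      rintro F G h _ ⟨u, hu, hr⟩
      exact ⟨u, hu, hr.mono (by exact_mod_cast h)⟩
    have iC : IncrE (boxE (10 * m)) (CA 0 m (3 * m)) := CA_incr _ _ _ _
    have iY : IncrE (boxE (10 * m)) (fun F => y ≤ Yc m F) :=
      fun F G h _ hF => hF.trans (Yc_mono h)
    have iFC : IncrE (boxE (10 * m)) (fun F => Far 0 (4 * m) F ∧ CA 0 m (3 * m) F) :=
      fun F G h hG hF => ⟨iF F G h hG hF.1, iC F G h hG hF.2⟩
    have r1 := Pr_harris ok iF iC
    have r2 := Pr_harris ok iFC iY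
    have r3 : arm q (4 * m) * kap ≤ Pr (fun _ => q) (boxE (10 * m))
        (fun F => Far 0 (4 * m) F ∧ CA 0 m (3 * m) F) :=
      (mul_le_mul p1 p2 hka.le (hap.trans p1)).trans r1
    exact (mul_le_mul r3 p3 hc1.le (Pr_nonneg ok _ _)).trans r2
  -- independence
  have hbl := hblk q m hq hq2 hm (boxE (10 * m)) (by unfold annE; exact Finset.sdiff_subset)
  have hind : Pr (fun _ => q) (boxE (10 * m))
      (fun F => A F ∧ Blk ((5 * m : ℕ) : ℤ) ((10 * m : ℕ) : ℤ) F) =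
      Pr (fun _ => q) (boxE (10 * m)) A *
        Pr (fun _ => q) (boxE (10 * m)) (Blk ((5 * m : ℕ) : ℤ) ((10 * m : ℕ) : ℤ)) := by
    apply Pr_indep (S := boxE (5 * m)) (T := annE (5 * m) (10 * m)) (boxE_mono (by omega))
      (by unfold annE; exact Finset.sdiff_subset)
      (by unfold annE; exact Finset.disjoint_sdiff)
    · intro F _
      exact hAloc F
    · intro F _
      exact Blk_local (by omega) (Finset.Subset.refl _) F
  have hfin : kap * c1 * c2 * arm q (4 * m) *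
      Real.exp (-(C2 * (m * (q - 1 / 2) ^ (4 / 3 : ℝ)))) ≤ Pr (fun _ => q) (boxE (10 * m))
      (fun F => A F ∧ Blk ((5 * m : ℕ) : ℤ) ((10 * m : ℕ) : ℤ) F) := by
    rw [hind]
    refine le_trans (le_of_eq ?_) (mul_le_mul hPA hbl (by positivity) (Pr_nonneg ok _ _))
    ring
  refine hfin.trans ?_
  apply Pr_mono ok
  rintro F _ ⟨⟨⟨⟨u0, hu0, hr0⟩, hC⟩, hY⟩, hB⟩
  refine ⟨⟨?_, u0, hr0, by rwa [sub_zero] at hu0⟩, hB⟩
  -- the vertices with a long arm are all connected to the origin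
  obtain ⟨z, hz⟩ := CA_meet (show m < 3 * m by omega) hC
  have h0z : Reach (↑F) 0 z := by
    apply hz 0 u0 (by rw [sub_zero]; exact Nat.zero_le _) (by omega) hr0
  refine ⟨(bx m).filter (fun x => Far x (4 * m) F), ?_, ?_⟩
  · have e : Yc m F = (((bx m).filter (fun x => Far x (4 * m) F)).card : ℝ) := by
      unfold Yc
      rw [Finset.card_filter]
      push_cast
      apply Finset.sum_congr rfl
      intro x _
      by_cases hx : Far x (4 * m) F
      · rw [ind_of hx, if_pos hx]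
      · rw [ind_not_of hx, if_neg hx]
    rw [← e]
    exact hY
  · intro x hx
    rw [Finset.mem_filter, mem_bx] at hx
    obtain ⟨hx1, v, hv, hr⟩ := hx
    have hxz : Reach (↑F) x z := by
      apply hz x v (by rw [sub_zero]; exact hx1) _ hr
      rw [sub_zero]
      have := nv_tri v 0 x
      rw [sub_zero, zero_sub, nv_neg] at this
      omega
    exact h0z.trans hxz.symm

end Q291.SA
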