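import Pool.Agent.Q291.SA.Inf
import Pool.Agent.Q291.SA.Low
import Pool.Agent.Y554.NC.Theta

/-!
The lower bounds for the size and the radius of the finite clusters above the critical point.
-/

set_option autoImplicit false

namespace Q291.SA
open Finset H974 Pool.Agent.H160R2.CV Pool.Agent.H160R2.CV.Quad H362P Pool.Agent.Y244.PC Q291.CS
open MeasureTheory Filter

/-- lower bounds for the arm probability at and above the critical point -/
theorem arm_low : ∃ c : ℝ, 0 < c ∧ c ≤ 1 ∧ ∀ p : unitInterval, (1 / 2 : ℝ) ≤ p →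
    (∀ m : ℕ, 1 ≤ m → c * (m : ℝ) ^ (-(5 / 48) : ℝ) ≤ arm p (4 * m)) ∧
    (∀ m : ℕ, c * ((p : ℝ) - 1 / 2) ^ (5 / 36 : ℝ) ≤ arm p (4 * m)) := by
  obtain ⟨c1, C1, hc1, hC1, hA⟩ := Pool.Agent.W424.NC.arm_crit
  obtain ⟨c2, hc2, hth⟩ := Pool.Agent.Y554.NC.theta_lower'
  refine ⟨min 1 (min (c1 * (4 : ℝ) ^ (-(5 / 48) : ℝ)) c2), by positivity, min_le_left _ _, ?_⟩
  intro p hp
  constructor
  · intro m hm
    have hm0 : (0 : ℝ) < m := by exact_mod_cast hm
    have h1 := (hA (4 * m) (by omega)).1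
    have h2 := arm_mono_param (p := 1 / 2) (q := p) (by norm_num) hp p.2.2 (4 * m)
    refine le_trans ?_ (h1.trans h2)
    push_cast
    rw [Real.mul_rpow (by norm_num) hm0.le, ← mul_assoc]
    apply mul_le_mul_of_nonneg_right _ (by positivity)
    exact (min_le_right _ _).trans (min_le_left _ _)
  · intro m
    rcases hp.eq_or_lt with h | h
    · rw [← h, sub_self, Real.zero_rpow (by norm_num), mul_zero]
      exact arm_nonneg (by norm_num) (by norm_num) _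
    · have h1 := hth p h
      have h2 := theta_le_arm p (4 * m)
      refine le_trans ?_ (h1.trans h2)
      apply mul_le_mul_of_nonneg_right _ (Real.rpow_nonneg (by linarith) _)
      exact (min_le_right _ _).trans (min_le_right _ _)

theorem radLow : ∃ c C : ℝ, 0 < c ∧ 0 < C ∧ ∀ p : unitInterval, (1 / 2 : ℝ) ≤ p →
    (p : ℝ) ≤ 3 / 4 → ∀ n : ℕ, 1 ≤ n →
    c * (n : ℝ) ^ (-(5 / 48 : ℝ)) *
      Real.exp (-(C * (n * ((p : ℝ) - 1 / 2) ^ (4 / 3 : ℝ)))) ≤ rf p n := by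
  obtain ⟨c, C, hc, hC, hlow⟩ := low_fin
  obtain ⟨c3, hc3, hc31, harm⟩ := arm_low
  refine ⟨c * c3, C, by positivity, hC, fun p hp hp2 n hn => ?_⟩
  have hn0 : (0 : ℝ) < n := by exact_mod_cast hn
  rw [rf_eq]
  obtain ⟨m, hm⟩ : ∃ m : ℕ, m = (n + 3) / 4 := ⟨_, rfl⟩
  have hm1 : 1 ≤ m := by omega
  have hmn : m ≤ n := by omega
  have hnm : n ≤ 4 * m := by omega
  have hm0 : (0 : ℝ) < m := by exact_mod_cast hm1
  have hmn' : (m : ℝ) ≤ n := by exact_mod_cast hmn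
  have h1 := fin_ge p (loc_far n) (R := 5 * m) (m := 10 * m) (by omega)
  refine le_trans ?_ h1
  have h2 := hlow p m hp hp2 hm1
  refine le_trans ?_ (h2.trans ?_)
  · have g1 := (harm p hp).1 m hm1
    have g2 : (n : ℝ) ^ (-(5 / 48 : ℝ)) ≤ (m : ℝ) ^ (-(5 / 48) : ℝ) :=
      Real.rpow_le_rpow_of_nonpos hm0 hmn' (by norm_num)
    have hs : 0 ≤ ((p : ℝ) - 1 / 2) ^ (4 / 3 : ℝ) := Real.rpow_nonneg (by linarith) _
    apply mul_le_mul
    · rw [mul_assoc]
      apply mul_le_mul_of_nonneg_left _ hc.le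
      exact (mul_le_mul_of_nonneg_left g2 hc3.le).trans g1
    · apply Real.exp_le_exp.mpr
      have := mul_le_mul_of_nonneg_right hmn' hs
      have := mul_le_mul_of_nonneg_left this hC.le
      linarith
    · exact (Real.exp_pos _).le
    · exact mul_nonneg hc.le (arm_nonneg p.2.1 p.2.2 _)
  · apply Pr_mono (okq p.2.1 p.2.2)
    rintro F _ ⟨⟨-, w, hw, hw2⟩, hb⟩
    exact ⟨⟨w, hw, hnm.trans hw2⟩, hb⟩

theorem lowerA : ∃ c C : ℝ, 0 < c ∧ 0 < C ∧ ∀ p : unitInterval, (1 / 2 : ℝ) ≤ p →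
    (p : ℝ) ≤ 3 / 4 → ∀ N : ℕ, 1 ≤ N →
    c * (N : ℝ) ^ (-(5 / 91 : ℝ)) *
      Real.exp (-(C * √(N * ((p : ℝ) - 1 / 2) ^ (91 / 36 : ℝ)))) ≤ tf p N := by
  obtain ⟨c, C, hc, hC, hlow⟩ := low_fin
  obtain ⟨c3, hc3, hc31, harm⟩ := arm_low
  obtain ⟨K, hK⟩ : ∃ K : ℝ, K = 1 / c3 := ⟨_, rfl⟩
  have hK1 : 1 ≤ K := by rw [hK, le_div_iff₀ hc3]; linarith
  have hK0 : 0 < K := by linarith
  have hKc : K * c3 = 1 := by rw [hK]; field_simp
  -- the main step: a scale `m` with volume at least `N`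
  have step : ∀ p : unitInterval, (1 / 2 : ℝ) ≤ p → (p : ℝ) ≤ 3 / 4 → ∀ N m : ℕ, 1 ≤ m →
      (N : ℝ) ≤ (m : ℝ) ^ 2 * arm p (4 * m) →
      c * arm p (4 * m) * Real.exp (-(C * (m * ((p : ℝ) - 1 / 2) ^ (4 / 3 : ℝ)))) ≤ tf p N := by
    intro p hp hp2 N m hm hN
    rw [tf_eq]
    refine (hlow p m hp hp2 hm).trans ?_
    refine le_trans ?_ (fin_ge p (loc_vol N) (R := 5 * m) (m := 10 * m) (by omega))
    apply Pr_mono (okq p.2.1 p.2.2)
    rintro F _ ⟨⟨hv, -⟩, hb⟩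
    refine ⟨?_, hb⟩
    obtain ⟨T, hT, hr⟩ := hv
    refine ⟨T, ?_, hr⟩
    have : 0 ≤ (m : ℝ) ^ 2 * arm p (4 * m) :=
      mul_nonneg (by positivity) (arm_nonneg p.2.1 p.2.2 _)
    linarith
  refine ⟨c * c3 * (K + 1)⁻¹ * Real.exp (-(C * (K + 1))), C * K, by positivity, by positivity,
    fun p hp hp2 N hN => ?_⟩
  have hN1 : (1 : ℝ) ≤ N := by exact_mod_cast hN
  have hN0 : (0 : ℝ) < N := by linarith
  obtain ⟨s, hs⟩ : ∃ s : ℝ, s = (p : ℝ) - 1 / 2 := ⟨_, rfl⟩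
  have hs0 : 0 ≤ s := by rw [hs]; linarith
  have hs1 : s ≤ 1 := by rw [hs]; linarith
  rw [← hs]
  have hexp : ∀ m : ℕ, (m : ℝ) * s ^ (4 / 3 : ℝ) ≤ K * √(N * s ^ (91 / 36 : ℝ)) + (K + 1) →
      Real.exp (-(C * (K + 1))) * Real.exp (-(C * K * √(N * s ^ (91 / 36 : ℝ)))) ≤
      Real.exp (-(C * (m * s ^ (4 / 3 : ℝ)))) := by
    intro m hm
    rw [← Real.exp_add]
    apply Real.exp_le_exp.mpr
    have := mul_le_mul_of_nonneg_left hm hC.le
    linarith
  have hKi : (K + 1)⁻¹ ≤ (K + 1) ^ (-(5 / 48) : ℝ) := by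
    rw [← Real.rpow_neg_one]
    exact Real.rpow_le_rpow_of_exponent_le (by linarith) (by norm_num)
  by_cases hcase : (N : ℝ) * s ^ (91 / 36 : ℝ) ≤ 1
  · -- the critical regime
    obtain ⟨t, ht⟩ : ∃ t : ℝ, t = (N : ℝ) ^ (48 / 91 : ℝ) := ⟨_, rfl⟩
    have ht1 : 1 ≤ t := by rw [ht]; exact Real.one_le_rpow hN1 (by norm_num)
    have ht0 : 0 < t := by linarith
    obtain ⟨m, hm⟩ : ∃ m : ℕ, m = ⌈K * t⌉₊ := ⟨_, rfl⟩
    have hm1 : 1 ≤ m := by
      rw [hm, Nat.one_le_ceil_iff]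
      positivity
    have hm0 : (0 : ℝ) < m := by exact_mod_cast hm1
    have hmK : K * t ≤ m := by rw [hm]; exact Nat.le_ceil _
    have hmK2 : (m : ℝ) ≤ (K + 1) * t := by
      have := Nat.ceil_lt_add_one (show 0 ≤ K * t by positivity)
      rw [← hm] at this
      linarith
    have hst : t * s ^ (4 / 3 : ℝ) ≤ 1 := by
      have e : t * s ^ (4 / 3 : ℝ) = ((N : ℝ) * s ^ (91 / 36 : ℝ)) ^ (48 / 91 : ℝ) := by
        rw [ht, Real.mul_rpow hN0.le (by positivity), ← Real.rpow_mul hs0]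
        norm_num
      rw [e]
      exact Real.rpow_le_one (by positivity) hcase (by norm_num)
    have g1 := (harm p hp).1 m hm1
    have hNm : (N : ℝ) ≤ (m : ℝ) ^ 2 * arm p (4 * m) := by
      have e1 : (m : ℝ) ^ 2 * (c3 * (m : ℝ) ^ (-(5 / 48) : ℝ)) = c3 * (m : ℝ) ^ (91 / 48 : ℝ) := by
        have : (m : ℝ) ^ (91 / 48 : ℝ) = (m : ℝ) ^ 2 * (m : ℝ) ^ (-(5 / 48) : ℝ) := by
          rw [← Real.rpow_natCast, ← Real.rpow_add hm0]
          norm_num
        rw [this]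
        ring
      have e2 : (N : ℝ) ≤ c3 * (m : ℝ) ^ (91 / 48 : ℝ) := by
        have e3 : (K * t) ^ (91 / 48 : ℝ) ≤ (m : ℝ) ^ (91 / 48 : ℝ) :=
          Real.rpow_le_rpow (by positivity) hmK (by norm_num)
        have e4 : (K * t) ^ (91 / 48 : ℝ) = K ^ (91 / 48 : ℝ) * N := by
          rw [Real.mul_rpow hK0.le ht0.le, ht, ← Real.rpow_mul hN0.le]
          norm_num
        have e5 : K ≤ K ^ (91 / 48 : ℝ) := by
          calc K = K ^ (1 : ℝ) := (Real.rpow_one K).symm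
            _ ≤ _ := Real.rpow_le_rpow_of_exponent_le hK1 (by norm_num)
        calc (N : ℝ) = c3 * (K * N) := by
              rw [← mul_assoc, mul_comm c3 K, hKc, one_mul]
          _ ≤ c3 * (K ^ (91 / 48 : ℝ) * N) := by
              apply mul_le_mul_of_nonneg_left _ hc3.le
              exact mul_le_mul_of_nonneg_right e5 hN0.le
          _ ≤ _ := by
              rw [← e4]
              exact mul_le_mul_of_nonneg_left e3 hc3.le
      calc (N : ℝ) ≤ _ := e2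
        _ = _ := e1.symm
        _ ≤ _ := mul_le_mul_of_nonneg_left g1 (by positivity)
    refine le_trans ?_ (step p hp hp2 N m hm1 hNm)
    rw [← hs]
    have h3 : c3 * (K + 1)⁻¹ * (N : ℝ) ^ (-(5 / 91 : ℝ)) ≤ arm p (4 * m) := by
      refine le_trans ?_ g1
      rw [mul_assoc]
      apply mul_le_mul_of_nonneg_left _ hc3.le
      calc (K + 1)⁻¹ * (N : ℝ) ^ (-(5 / 91 : ℝ))
          ≤ (K + 1) ^ (-(5 / 48) : ℝ) * (N : ℝ) ^ (-(5 / 91 : ℝ)) :=
            mul_le_mul_of_nonneg_right hKi (by positivity)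
        _ = ((K + 1) * t) ^ (-(5 / 48) : ℝ) := by
            rw [Real.mul_rpow (by linarith) ht0.le, ht, ← Real.rpow_mul hN0.le]
            norm_num
        _ ≤ _ := Real.rpow_le_rpow_of_nonpos hm0 hmK2 (by norm_num)
    have h4 := hexp m (by
      have : (m : ℝ) * s ^ (4 / 3 : ℝ) ≤ K + 1 := by
        calc (m : ℝ) * s ^ (4 / 3 : ℝ) ≤ (K + 1) * t * s ^ (4 / 3 : ℝ) :=
              mul_le_mul_of_nonneg_right hmK2 (by positivity)
          _ = (K + 1) * (t * s ^ (4 / 3 : ℝ)) := by ring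
          _ ≤ (K + 1) * 1 := mul_le_mul_of_nonneg_left hst (by linarith)
          _ = K + 1 := mul_one _
      have : 0 ≤ K * √(N * s ^ (91 / 36 : ℝ)) := by positivity
      linarith)
    calc c * c3 * (K + 1)⁻¹ * Real.exp (-(C * (K + 1))) * (N : ℝ) ^ (-(5 / 91 : ℝ)) *
          Real.exp (-(C * K * √(N * s ^ (91 / 36 : ℝ))))
        = c * (c3 * (K + 1)⁻¹ * (N : ℝ) ^ (-(5 / 91 : ℝ))) * (Real.exp (-(C * (K + 1))) *
          Real.exp (-(C * K * √(N * s ^ (91 / 36 : ℝ))))) := by ring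
      _ ≤ c * arm p (4 * m) * Real.exp (-(C * (m * s ^ (4 / 3 : ℝ)))) := by
          apply mul_le_mul _ h4 (by positivity)
          · exact mul_nonneg hc.le (arm_nonneg p.2.1 p.2.2 _)
          · exact mul_le_mul_of_nonneg_left h3 hc.le
  · -- the supercritical regime
    push Not at hcase
    have hspos : 0 < s := by
      rcases hs0.eq_or_lt with h | h
      · exfalso
        rw [← h, Real.zero_rpow (by norm_num), mul_zero] at hcase
        linarith
      · exact h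
    obtain ⟨g, hg⟩ : ∃ g : ℝ, g = s ^ (5 / 36 : ℝ) := ⟨_, rfl⟩
    have hg0 : 0 < g := by rw [hg]; positivity
    obtain ⟨t, ht⟩ : ∃ t : ℝ, t = √(N / g) := ⟨_, rfl⟩
    have ht0 : 0 < t := by rw [ht]; exact Real.sqrt_pos.mpr (by positivity)
    have ht2 : t ^ 2 * g = N := by
      rw [ht, Real.sq_sqrt (by positivity)]
      field_simp
    obtain ⟨m, hm⟩ : ∃ m : ℕ, m = ⌈K * t⌉₊ := ⟨_, rfl⟩
    have hm1 : 1 ≤ m := by
      rw [hm, Nat.one_le_ceil_iff]
      positivity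
    have hm0 : (0 : ℝ) < m := by exact_mod_cast hm1
    have hmK : K * t ≤ m := by rw [hm]; exact Nat.le_ceil _
    have hmK2 : (m : ℝ) ≤ K * t + 1 := by
      have := Nat.ceil_lt_add_one (show 0 ≤ K * t by positivity)
      rw [← hm] at this
      linarith
    have g1 := (harm p hp).2 m
    rw [← hs, ← hg] at g1
    have hNm : (N : ℝ) ≤ (m : ℝ) ^ 2 * arm p (4 * m) := by
      calc (N : ℝ) = t ^ 2 * g := ht2.symm
        _ = (K * c3) * t ^ 2 * g := by rw [hKc, one_mul]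
        _ ≤ (K * c3) * K * t ^ 2 * g := by
            apply mul_le_mul_of_nonneg_right _ hg0.le
            apply mul_le_mul_of_nonneg_right _ (by positivity)
            rw [hKc, one_mul]
            exact hK1
        _ = (K * t) ^ 2 * (c3 * g) := by ring
        _ ≤ (m : ℝ) ^ 2 * (c3 * g) := by
            apply mul_le_mul_of_nonneg_right _ (by positivity)
            exact pow_le_pow_left₀ (by positivity) hmK 2
        _ ≤ _ := mul_le_mul_of_nonneg_left g1 (by positivity)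
    refine le_trans ?_ (step p hp hp2 N m hm1 hNm)
    rw [← hs]
    have hts : t * s ^ (4 / 3 : ℝ) = √(N * s ^ (91 / 36 : ℝ)) := by
      have e1 : s ^ (91 / 36 : ℝ) * g = (s ^ (4 / 3 : ℝ)) ^ 2 := by
        rw [hg, ← Real.rpow_add hspos, ← Real.rpow_natCast, ← Real.rpow_mul hs0]
        norm_num
      have e3 : (N : ℝ) * s ^ (91 / 36 : ℝ) = (t * s ^ (4 / 3 : ℝ)) ^ 2 := by
        calc (N : ℝ) * s ^ (91 / 36 : ℝ) = t ^ 2 * (s ^ (91 / 36 : ℝ) * g) := by
              rw [← ht2]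
              ring
          _ = _ := by rw [e1]; ring
      rw [e3, Real.sqrt_sq (by positivity)]
    have h3 : c3 * (K + 1)⁻¹ * (N : ℝ) ^ (-(5 / 91 : ℝ)) ≤ arm p (4 * m) := by
      refine le_trans ?_ g1
      rw [mul_assoc]
      apply mul_le_mul_of_nonneg_left _ hc3.le
      have e1 : (K + 1)⁻¹ ≤ 1 := inv_le_one_of_one_le₀ (by linarith)
      have e2 : (N : ℝ) ^ (-(5 / 91 : ℝ)) ≤ g := by
        have e3 : (s ^ (91 / 36 : ℝ))⁻¹ ≤ N := by
          rw [inv_le_iff_one_le_mul₀ (by positivity)]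
          linarith
        calc (N : ℝ) ^ (-(5 / 91 : ℝ)) ≤ ((s ^ (91 / 36 : ℝ))⁻¹) ^ (-(5 / 91 : ℝ)) :=
              Real.rpow_le_rpow_of_nonpos (by positivity) e3 (by norm_num)
          _ = g := by
              rw [hg, ← Real.rpow_neg hs0, ← Real.rpow_mul hs0]
              norm_num
      calc (K + 1)⁻¹ * (N : ℝ) ^ (-(5 / 91 : ℝ)) ≤ 1 * (N : ℝ) ^ (-(5 / 91 : ℝ)) :=
            mul_le_mul_of_nonneg_right e1 (by positivity)
        _ = (N : ℝ) ^ (-(5 / 91 : ℝ)) := one_mul _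
        _ ≤ g := e2
    have h4 := hexp m (by
      have h5 : s ^ (4 / 3 : ℝ) ≤ 1 := Real.rpow_le_one hs0 hs1 (by norm_num)
      calc (m : ℝ) * s ^ (4 / 3 : ℝ) ≤ (K * t + 1) * s ^ (4 / 3 : ℝ) :=
            mul_le_mul_of_nonneg_right hmK2 (by positivity)
        _ = K * (t * s ^ (4 / 3 : ℝ)) + s ^ (4 / 3 : ℝ) := by ring
        _ ≤ _ := by
            rw [hts]
            linarith)
    calc c * c3 * (K + 1)⁻¹ * Real.exp (-(C * (K + 1))) * (N : ℝ) ^ (-(5 / 91 : ℝ)) *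
          Real.exp (-(C * K * √(N * s ^ (91 / 36 : ℝ))))
        = c * (c3 * (K + 1)⁻¹ * (N : ℝ) ^ (-(5 / 91 : ℝ))) * (Real.exp (-(C * (K + 1))) *
          Real.exp (-(C * K * √(N * s ^ (91 / 36 : ℝ))))) := by ring
      _ ≤ c * arm p (4 * m) * Real.exp (-(C * (m * s ^ (4 / 3 : ℝ)))) := by
          apply mul_le_mul _ h4 (by positivity)
          · exact mul_nonneg hc.le (arm_nonneg p.2.1 p.2.2 _)
          · exact mul_le_mul_of_nonneg_left h3 hc.le

end Q291.SA
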