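import Pool.Agent.Q291.SA.FinA
import Pool.Agent.Q291.SA.FinB
import Pool.Agent.H31R3.Kes.SigUp

/-!
The mean size of the finite clusters above the critical point.
-/

set_option autoImplicit false

namespace Q291.SA
open Finset H974 Pool.Agent.H160R2.CV Pool.Agent.H160R2.CV.Quad H362P Pool.Agent.Y244.PC Q291.CS
open MeasureTheory Filter

/-- the mean size of the finite clusters (`Set.ncard` is `0` for infinite sets) -/
noncomputable def fmean (p : unitInterval) : ENNReal :=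
  ∫⁻ ω, ((cluster0 ω).ncard : ENNReal) ∂(bondLaw p)

theorem meas_fin : MeasurableSet {ω : sqLattice.edgeSet → Bool | (cluster0 ω).Finite} := by
  have e : {ω : sqLattice.edgeSet → Bool | (cluster0 ω).Finite} =
      ⋃ n : ℕ, ⋂ w : Vtx, ({ω | w ∈ cluster0 ω}ᶜ ∪ {_ω : sqLattice.edgeSet → Bool | nv w ≤ n}) := by
    ext ω
    rw [Set.mem_iUnion]
    show (cluster0 ω).Finite ↔ _
    rw [finite_iff]
    refine exists_congr fun n => ?_
    rw [Set.mem_iInter]
    refine forall_congr' fun w => ?_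
    rw [Set.mem_union, Set.mem_compl_iff, Set.mem_ofPred_eq, Set.mem_ofPred_eq, mem_cl]
    tauto
  rw [e]
  refine MeasurableSet.iUnion fun n => MeasurableSet.iInter fun w => ?_
  exact (H31K.t10_meas w).compl.union (MeasurableSet.const _)

theorem meas_card (N : ℕ) :
    MeasurableSet {ω : sqLattice.edgeSet → Bool | (N : ℕ∞) ≤ (cluster0 ω).encard} := by
  have e : {ω : sqLattice.edgeSet → Bool | (N : ℕ∞) ≤ (cluster0 ω).encard} =
      ⋃ T : {T : Finset Vtx // N ≤ T.card}, ⋂ w : {w : Vtx // w ∈ T.1},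
        {ω | w.1 ∈ cluster0 ω} := by
    ext ω
    rw [Set.mem_iUnion]
    constructor
    · intro h
      obtain ⟨T, hT, hc⟩ := Set.exists_subset_encard_eq (show (N : ℕ∞) ≤ (cluster0 ω).encard from h)
      have hf : T.Finite := Set.finite_of_encard_eq_coe hc
      refine ⟨⟨hf.toFinset, ?_⟩, ?_⟩
      · rw [hf.encard_eq_coe_toFinset_card] at hc
        have : hf.toFinset.card = N := by exact_mod_cast hc
        omega
      · rw [Set.mem_iInter]
        rintro ⟨w, hw⟩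
        exact hT (hf.mem_toFinset.mp hw)
    · rintro ⟨⟨T, hT⟩, h⟩
      rw [Set.mem_iInter] at h
      have h2 : (T : Set Vtx) ⊆ cluster0 ω := fun w hw => h ⟨w, hw⟩
      have h3 := Set.encard_le_encard h2
      rw [Set.encard_coe_eq_coe_finsetCard] at h3
      refine le_trans ?_ h3
      exact_mod_cast hT
  rw [e]
  refine MeasurableSet.iUnion fun T => MeasurableSet.iInter fun w => ?_
  exact H31K.t10_meas w.1

theorem ncard_sum (ω : sqLattice.edgeSet → Bool) : ((cluster0 ω).ncard : ENNReal) =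
    ∑' k : ℕ, Set.indicator {ω : sqLattice.edgeSet → Bool |
      ((k + 1 : ℕ) : ℕ∞) ≤ (cluster0 ω).encard ∧ (cluster0 ω).Finite} (fun _ => (1 : ENNReal)) ω := by
  by_cases hf : (cluster0 ω).Finite
  · have h1 : ∀ k : ℕ, Set.indicator {ω : sqLattice.edgeSet → Bool |
        ((k + 1 : ℕ) : ℕ∞) ≤ (cluster0 ω).encard ∧ (cluster0 ω).Finite}
        (fun _ => (1 : ENNReal)) ω = if k < (cluster0 ω).ncard then 1 else 0 := by
      intro k
      have e : ((k + 1 : ℕ) : ℕ∞) ≤ (cluster0 ω).encard ↔ k < (cluster0 ω).ncard := by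
        rw [← hf.cast_ncard_eq]
        constructor
        · intro h
          have : k + 1 ≤ (cluster0 ω).ncard := by exact_mod_cast h
          omega
        · intro h
          exact_mod_cast h
      by_cases hk : k < (cluster0 ω).ncard
      · rw [if_pos hk, Set.indicator_of_mem]
        exact ⟨e.mpr hk, hf⟩
      · rw [if_neg hk, Set.indicator_of_notMem]
        rintro ⟨h, -⟩
        exact hk (e.mp h)
    rw [tsum_congr h1]
    rw [tsum_eq_sum (s := Finset.range (cluster0 ω).ncard)]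
    · rw [Finset.sum_congr rfl (g := fun _ => (1 : ENNReal))]
      · simp
      · intro k hk
        rw [if_pos (Finset.mem_range.mp hk)]
    · intro k hk
      rw [if_neg (fun h => hk (Finset.mem_range.mpr h))]
  · rw [Set.Infinite.ncard hf]
    symm
    rw [Nat.cast_zero, ENNReal.tsum_eq_zero]
    intro k
    rw [Set.indicator_of_notMem]
    rintro ⟨-, h⟩
    exact hf h

theorem fmean_eq (p : unitInterval) : fmean p = ∑' k : ℕ, ENNReal.ofReal (tf p (k + 1)) := by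
  unfold fmean
  rw [lintegral_congr ncard_sum, lintegral_tsum]
  · apply tsum_congr
    intro k
    have hm := (meas_card (k + 1)).inter meas_fin
    rw [show {ω : sqLattice.edgeSet → Bool | ((k + 1 : ℕ) : ℕ∞) ≤ (cluster0 ω).encard ∧
      (cluster0 ω).Finite} = {ω | ((k + 1 : ℕ) : ℕ∞) ≤ (cluster0 ω).encard} ∩
        {ω | (cluster0 ω).Finite} from rfl, lintegral_indicator hm, setLIntegral_one]
    unfold tf
    rw [measureReal_def, ENNReal.ofReal_toReal (measure_ne_top _ _)]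
    rfl
  · intro k
    exact (measurable_const.indicator ((meas_card (k + 1)).inter meas_fin)).aemeasurable

/-- the sum of the powers -/
theorem sum_pow (n : ℕ) : ∑ k ∈ Finset.range n, ((k : ℝ) + 1) ^ (-(5 / 91 : ℝ)) ≤
    91 / 86 * (n : ℝ) ^ (86 / 91 : ℝ) := by
  induction n with
  | zero => simp
  | succ n ih =>
    rw [Finset.sum_range_succ]
    have hn : (0 : ℝ) < (n : ℝ) + 1 := by positivity
    have h1 : ((n : ℝ)) ^ (86 / 91 : ℝ) ≤
        ((n : ℝ) + 1) ^ (86 / 91 : ℝ) - 86 / 91 * ((n : ℝ) + 1) ^ (-(5 / 91 : ℝ)) := by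
      have e1 : (n : ℝ) = ((n : ℝ) + 1) * (1 + -(1 / ((n : ℝ) + 1))) := by
        field_simp
        ring
      have e2 : (0 : ℝ) ≤ 1 + -(1 / ((n : ℝ) + 1)) := by
        have : 1 / ((n : ℝ) + 1) ≤ 1 := by
          rw [div_le_one hn]
          linarith [Nat.cast_nonneg (α := ℝ) n]
        linarith
      have e3 := rpow_one_add_le_one_add_mul_self (s := -(1 / ((n : ℝ) + 1))) (by linarith)
        (p := 86 / 91) (by norm_num) (by norm_num)
      have e4 : ((n : ℝ)) ^ (86 / 91 : ℝ) ≤ ((n : ℝ) + 1) ^ (86 / 91 : ℝ) *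
          (1 + 86 / 91 * -(1 / ((n : ℝ) + 1))) := by
        conv_lhs => rw [e1, Real.mul_rpow hn.le e2]
        exact mul_le_mul_of_nonneg_left e3 (by positivity)
      have e5 : ((n : ℝ) + 1) ^ (-(5 / 91 : ℝ)) = ((n : ℝ) + 1) ^ (86 / 91 : ℝ) *
          (1 / ((n : ℝ) + 1)) := by
        rw [show (-(5 / 91 : ℝ)) = 86 / 91 - 1 by norm_num, Real.rpow_sub hn, Real.rpow_one]
        ring
      rw [e5]
      linarith
    push_cast
    linarith

/-- the tail of the sum -/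
theorem sum_two (Y n : ℕ) (hY : 1 ≤ Y) (hn : Y ≤ n) :
    ∑ k ∈ Finset.Ico Y n, 1 / ((k : ℝ) + 1) ^ 2 ≤ 1 / (Y : ℝ) - 1 / n := by
  induction n, hn using Nat.le_induction with
  | base => simp
  | succ n hn ih =>
    rw [Finset.sum_Ico_succ_top hn]
    have hn0 : (0 : ℝ) < n := by
      have : 0 < n := by omega
      exact_mod_cast this
    have : 1 / ((n : ℝ) + 1) ^ 2 ≤ 1 / n - 1 / ((n : ℝ) + 1) := by
      rw [div_sub_div _ _ hn0.ne' (by positivity), div_le_div_iff₀ (by positivity) (by positivity)]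
      nlinarith
    push_cast
    linarith

theorem exp_four {x : ℝ} (hx : 0 < x) : Real.exp (-x) ≤ 24 / x ^ 4 := by
  have h := Real.pow_div_factorial_le_exp x hx.le 4
  rw [Real.exp_neg, inv_eq_one_div, div_le_div_iff₀ (Real.exp_pos _) (by positivity)]
  have e : ((Nat.factorial 4 : ℕ) : ℝ) = 24 := by norm_num [Nat.factorial]
  rw [e, div_le_iff₀ (by norm_num)] at h
  linarith

theorem sum_tail {c : ℝ} (hc : 0 < c) : ∃ D : ℝ, 0 < D ∧ ∀ t : ℝ, 0 < t → t ≤ 1 → ∀ n : ℕ,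
    ∑ k ∈ Finset.range n, ((k : ℝ) + 1) ^ (-(5 / 91 : ℝ)) * Real.exp (-(c * √(((k : ℝ) + 1) * t))) ≤
      D * t ^ (-(86 / 91) : ℝ) := by
  obtain ⟨H, hH⟩ : ∃ H : ℝ, H = 24 / c ^ 4 := ⟨_, rfl⟩
  have hH0 : 0 < H := by rw [hH]; positivity
  refine ⟨91 / 86 * 2 + H, by positivity, fun t ht ht1 n => ?_⟩
  obtain ⟨Y, hY⟩ : ∃ Y : ℕ, Y = ⌈1 / t⌉₊ := ⟨_, rfl⟩
  have hY1 : 1 ≤ Y := by
    rw [hY, Nat.one_le_ceil_iff]
    positivity
  have hYt : 1 / t ≤ Y := by rw [hY]; exact Nat.le_ceil _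
  have hY2 : (Y : ℝ) ≤ 2 / t := by
    have := Nat.ceil_lt_add_one (show 0 ≤ 1 / t by positivity)
    rw [← hY] at this
    have e : (1 : ℝ) ≤ 1 / t := by rw [le_div_iff₀ ht]; linarith
    have e2 : 2 / t = 1 / t + 1 / t := by ring
    linarith
  have hY0 : (0 : ℝ) < Y := by exact_mod_cast hY1
  have hterm : ∀ k : ℕ, 0 ≤ ((k : ℝ) + 1) ^ (-(5 / 91 : ℝ)) *
      Real.exp (-(c * √(((k : ℝ) + 1) * t))) := fun k => by positivity
  have h1 : ∑ k ∈ Finset.range n, ((k : ℝ) + 1) ^ (-(5 / 91 : ℝ)) *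
      Real.exp (-(c * √(((k : ℝ) + 1) * t))) ≤ ∑ k ∈ Finset.range (max n Y),
        ((k : ℝ) + 1) ^ (-(5 / 91 : ℝ)) * Real.exp (-(c * √(((k : ℝ) + 1) * t))) := by
    apply Finset.sum_le_sum_of_subset_of_nonneg
    · exact Finset.range_subset_range.mpr (le_max_left _ _)
    · intro k _ _
      exact hterm k
  refine h1.trans ?_
  rw [← Finset.sum_range_add_sum_Ico _ (le_max_right n Y)]
  have h2 : ∑ k ∈ Finset.range Y, ((k : ℝ) + 1) ^ (-(5 / 91 : ℝ)) *
      Real.exp (-(c * √(((k : ℝ) + 1) * t))) ≤ 91 / 86 * 2 * t ^ (-(86 / 91) : ℝ) := by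
    calc _ ≤ ∑ k ∈ Finset.range Y, ((k : ℝ) + 1) ^ (-(5 / 91 : ℝ)) := by
          apply Finset.sum_le_sum
          intro k _
          have : Real.exp (-(c * √(((k : ℝ) + 1) * t))) ≤ 1 := by
            rw [Real.exp_le_one_iff]
            have : 0 ≤ c * √(((k : ℝ) + 1) * t) := by positivity
            linarith
          calc _ ≤ ((k : ℝ) + 1) ^ (-(5 / 91 : ℝ)) * 1 :=
                mul_le_mul_of_nonneg_left this (by positivity)
            _ = _ := mul_one _
      _ ≤ 91 / 86 * (Y : ℝ) ^ (86 / 91 : ℝ) := sum_pow Y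
      _ ≤ 91 / 86 * (2 / t) ^ (86 / 91 : ℝ) := by
          apply mul_le_mul_of_nonneg_left _ (by norm_num)
          exact Real.rpow_le_rpow hY0.le hY2 (by norm_num)
      _ = 91 / 86 * ((2 : ℝ) ^ (86 / 91 : ℝ) * t ^ (-(86 / 91) : ℝ)) := by
          rw [Real.div_rpow (by norm_num) ht.le, Real.rpow_neg ht.le]
          ring
      _ ≤ 91 / 86 * (2 * t ^ (-(86 / 91) : ℝ)) := by
          apply mul_le_mul_of_nonneg_left _ (by norm_num)
          apply mul_le_mul_of_nonneg_right _ (by positivity)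
          calc (2 : ℝ) ^ (86 / 91 : ℝ) ≤ (2 : ℝ) ^ (1 : ℝ) :=
                Real.rpow_le_rpow_of_exponent_le (by norm_num) (by norm_num)
            _ = 2 := Real.rpow_one 2
      _ = _ := by ring
  have h3 : ∑ k ∈ Finset.Ico Y (max n Y), ((k : ℝ) + 1) ^ (-(5 / 91 : ℝ)) *
      Real.exp (-(c * √(((k : ℝ) + 1) * t))) ≤ H * t ^ (-(86 / 91) : ℝ) := by
    calc _ ≤ ∑ k ∈ Finset.Ico Y (max n Y), t ^ (5 / 91 : ℝ) * (H / t ^ 2) *
          (1 / ((k : ℝ) + 1) ^ 2) := by
          apply Finset.sum_le_sum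
          intro k hk
          have hk1 : Y ≤ k := (Finset.mem_Ico.mp hk).1
          have hk2 : 1 / t ≤ (k : ℝ) + 1 := by
            have : (Y : ℝ) ≤ k := by exact_mod_cast hk1
            linarith
          have e1 : ((k : ℝ) + 1) ^ (-(5 / 91 : ℝ)) ≤ t ^ (5 / 91 : ℝ) := by
            calc ((k : ℝ) + 1) ^ (-(5 / 91 : ℝ)) ≤ (1 / t) ^ (-(5 / 91 : ℝ)) :=
                  Real.rpow_le_rpow_of_nonpos (by positivity) hk2 (by norm_num)
              _ = _ := by
                  rw [one_div, ← Real.rpow_neg_one, ← Real.rpow_mul ht.le]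
                  norm_num
          have e2 : Real.exp (-(c * √(((k : ℝ) + 1) * t))) ≤ H / t ^ 2 *
              (1 / ((k : ℝ) + 1) ^ 2) := by
            have e3 := exp_four (x := c * √(((k : ℝ) + 1) * t)) (by positivity)
            refine e3.trans (le_of_eq ?_)
            have e4 : (c * √(((k : ℝ) + 1) * t)) ^ 4 = c ^ 4 * (((k : ℝ) + 1) * t) ^ 2 := by
              have : √(((k : ℝ) + 1) * t) ^ 4 = (√(((k : ℝ) + 1) * t) ^ 2) ^ 2 := by ring
              rw [mul_pow, this, Real.sq_sqrt (by positivity)]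
            rw [e4, hH]
            field_simp
          rw [mul_assoc]
          exact mul_le_mul e1 e2 (Real.exp_pos _).le (by positivity)
      _ = t ^ (5 / 91 : ℝ) * (H / t ^ 2) * ∑ k ∈ Finset.Ico Y (max n Y), 1 / ((k : ℝ) + 1) ^ 2 := by
          rw [Finset.mul_sum]
      _ ≤ t ^ (5 / 91 : ℝ) * (H / t ^ 2) * t := by
          apply mul_le_mul_of_nonneg_left _ (by positivity)
          refine (sum_two Y _ hY1 (le_max_right _ _)).trans ?_
          have : 0 ≤ 1 / ((max n Y : ℕ) : ℝ) := by positivity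
          have e2 : 1 / (Y : ℝ) ≤ t := by
            rw [div_le_iff₀ hY0]
            rw [div_le_iff₀ ht] at hYt
            linarith
          linarith
      _ = H * t ^ (-(86 / 91) : ℝ) := by
          rw [show (-(86 / 91) : ℝ) = 5 / 91 - 1 by norm_num, Real.rpow_sub ht, Real.rpow_one]
          field_simp
  calc _ ≤ 91 / 86 * 2 * t ^ (-(86 / 91) : ℝ) + H * t ^ (-(86 / 91) : ℝ) := add_le_add h2 h3
    _ = _ := by ring

theorem pow_gamma {s : ℝ} (hs : 0 ≤ s) :
    (s ^ (91 / 36 : ℝ)) ^ (-(86 / 91) : ℝ) = s ^ (-(43 / 18) : ℝ) := by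
  rw [← Real.rpow_mul hs]
  norm_num

theorem meanUp : ∃ C : ℝ, 0 < C ∧ ∀ p : unitInterval, (1 / 2 : ℝ) < p →
    fmean p ≤ ENNReal.ofReal (C * ((p : ℝ) - 1 / 2) ^ (-(43 / 18) : ℝ)) := by
  obtain ⟨c, C, hc, hC, hup⟩ := upperA
  obtain ⟨D, hD, hsum⟩ := sum_tail hc
  refine ⟨C * D, by positivity, fun p hp => ?_⟩
  obtain ⟨s, hs⟩ : ∃ s : ℝ, s = (p : ℝ) - 1 / 2 := ⟨_, rfl⟩
  have hs0 : 0 < s := by rw [hs]; linarith
  have hs1 : s ≤ 1 := by
    have := p.2.2
    rw [hs]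
    linarith
  rw [fmean_eq, ← hs]
  apply ENNReal.tsum_le_of_sum_range_le
  intro n
  have hn0 : ∀ k ∈ Finset.range n, 0 ≤ tf p (k + 1) := fun k _ => measureReal_nonneg
  rw [← ENNReal.ofReal_sum_of_nonneg hn0]
  apply ENNReal.ofReal_le_ofReal
  have h1 := hsum (s ^ (91 / 36 : ℝ)) (by positivity) (Real.rpow_le_one hs0.le hs1 (by norm_num)) n
  rw [pow_gamma hs0.le] at h1
  calc ∑ k ∈ Finset.range n, tf p (k + 1)
      ≤ ∑ k ∈ Finset.range n, C * (((k : ℝ) + 1) ^ (-(5 / 91 : ℝ)) *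
          Real.exp (-(c * √(((k : ℝ) + 1) * s ^ (91 / 36 : ℝ))))) := by
        apply Finset.sum_le_sum
        intro k _
        have := hup p hp.le (k + 1) (by omega)
        rw [← hs] at this
        push_cast at this
        rw [← mul_assoc]
        exact this
    _ = C * ∑ k ∈ Finset.range n, ((k : ℝ) + 1) ^ (-(5 / 91 : ℝ)) *
          Real.exp (-(c * √(((k : ℝ) + 1) * s ^ (91 / 36 : ℝ)))) := by rw [Finset.mul_sum]
    _ ≤ C * (D * s ^ (-(43 / 18) : ℝ)) := mul_le_mul_of_nonneg_left h1 hC.le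
    _ = _ := by ring

theorem meanLow : ∃ c : ℝ, 0 < c ∧ ∀ p : unitInterval, (1 / 2 : ℝ) < p → (p : ℝ) ≤ 3 / 4 →
    ENNReal.ofReal (c * ((p : ℝ) - 1 / 2) ^ (-(43 / 18) : ℝ)) ≤ fmean p := by
  obtain ⟨c, C, hc, hC, hlow⟩ := lowerA
  refine ⟨c * Real.exp (-C) / 2, by positivity, fun p hp hp2 => ?_⟩
  obtain ⟨s, hs⟩ : ∃ s : ℝ, s = (p : ℝ) - 1 / 2 := ⟨_, rfl⟩
  have hs0 : 0 < s := by rw [hs]; linarith
  have hs1 : s ≤ 1 := by rw [hs]; linarith
  obtain ⟨t, ht⟩ : ∃ t : ℝ, t = s ^ (91 / 36 : ℝ) := ⟨_, rfl⟩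
  have ht0 : 0 < t := by rw [ht]; positivity
  have ht1 : t ≤ 1 := by rw [ht]; exact Real.rpow_le_one hs0.le hs1 (by norm_num)
  obtain ⟨Y, hY⟩ : ∃ Y : ℕ, Y = ⌊1 / t⌋₊ := ⟨_, rfl⟩
  have h1t : (1 : ℝ) ≤ 1 / t := by rw [le_div_iff₀ ht0]; linarith
  have hY1 : 1 ≤ Y := by rw [hY]; exact Nat.le_floor (by exact_mod_cast h1t)
  have hYt : (Y : ℝ) ≤ 1 / t := by rw [hY]; exact Nat.floor_le (by positivity)
  have hY2 : 1 / t ≤ 2 * Y := by
    have := Nat.lt_floor_add_one (1 / t)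
    rw [← hY] at this
    have e : (1 : ℝ) ≤ Y := by exact_mod_cast hY1
    linarith
  rw [fmean_eq, ← hs]
  refine le_trans ?_ (ENNReal.sum_le_tsum (Finset.range Y))
  have hn0 : ∀ k ∈ Finset.range Y, 0 ≤ tf p (k + 1) := fun k _ => measureReal_nonneg
  rw [← ENNReal.ofReal_sum_of_nonneg hn0]
  apply ENNReal.ofReal_le_ofReal
  have h2 : ∀ k ∈ Finset.range Y, c * t ^ (5 / 91 : ℝ) * Real.exp (-C) ≤ tf p (k + 1) := by
    intro k hk
    have hk1 : k + 1 ≤ Y := Finset.mem_range.mp hk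
    have hk2 : ((k + 1 : ℕ) : ℝ) ≤ 1 / t := (by exact_mod_cast hk1 : ((k + 1 : ℕ) : ℝ) ≤ Y).trans hYt
    have hk3 : ((k + 1 : ℕ) : ℝ) * t ≤ 1 := by
      rw [le_div_iff₀ ht0] at hk2
      exact hk2
    have h3 := hlow p hp.le hp2 (k + 1) (by omega)
    rw [← hs, ← ht] at h3
    refine le_trans ?_ h3
    have h0 : (0 : ℝ) < ((k + 1 : ℕ) : ℝ) := by positivity
    apply mul_le_mul
    · apply mul_le_mul_of_nonneg_left _ hc.le
      calc t ^ (5 / 91 : ℝ) = (1 / t) ^ (-(5 / 91 : ℝ)) := by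
            rw [one_div, ← Real.rpow_neg_one, ← Real.rpow_mul ht0.le]
            norm_num
        _ ≤ _ := Real.rpow_le_rpow_of_nonpos h0 hk2 (by norm_num)
    · apply Real.exp_le_exp.mpr
      have : √(((k + 1 : ℕ) : ℝ) * t) ≤ 1 := by
        rw [Real.sqrt_le_left (by norm_num), one_pow]
        exact hk3
      have := mul_le_mul_of_nonneg_left this hC.le
      linarith
    · exact (Real.exp_pos _).le
    · positivity
  have h4 := Finset.sum_le_sum h2
  rw [Finset.sum_const, Finset.card_range, nsmul_eq_mul] at h4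
  refine le_trans ?_ h4
  have e1 : s ^ (-(43 / 18) : ℝ) = t ^ (5 / 91 : ℝ) * (1 / t) := by
    rw [← pow_gamma hs0.le, ← ht, show (-(86 / 91) : ℝ) = 5 / 91 - 1 by norm_num,
      Real.rpow_sub ht0, Real.rpow_one]
    ring
  rw [e1]
  calc c * Real.exp (-C) / 2 * (t ^ (5 / 91 : ℝ) * (1 / t))
      ≤ c * Real.exp (-C) / 2 * (t ^ (5 / 91 : ℝ) * (2 * Y)) := by
        apply mul_le_mul_of_nonneg_left _ (by positivity)
        exact mul_le_mul_of_nonneg_left hY2 (by positivity)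
    _ = _ := by ring

end Q291.SA
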