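import Pool.Agent.Q291.CS.Fin

/-!
From finite boxes to the infinite lattice: events on the finite cluster of the origin.
-/

set_option autoImplicit false

namespace Q291.SA
open Finset H974 Pool.Agent.H160R2.CV Pool.Agent.H160R2.CV.Quad H362P Pool.Agent.Y244.PC Q291.CS
open MeasureTheory Filter

theorem staySet {G : Set Edg} {n : ℕ} (h : ∀ w : Vtx, Reach G (0, 0) w → nv w ≤ n) {v : Vtx}
    (hv : Reach G (0, 0) v) : Reach (G ∩ ↑(boxE (n + 1))) (0, 0) v := by
  by_cases hv2 : nv v ≤ n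
  · -- follow the path; it never leaves the box
    induction hv with
    | refl => exact Reach.refl _ _
    | @tail b d hb hs ih =>
      have hb' : Reach G (0, 0) b := hb
      have hd' : Reach G (0, 0) d := hb'.trans (Adj.reach hs)
      have ih' := ih (h b hb')
      refine ih'.trans (Adj.reach ?_)
      obtain ⟨e, heG, hcase⟩ := hs
      refine ⟨e, ⟨heG, ?_⟩, hcase⟩
      have nb := h b hb'
      have nd := h d hd'
      obtain ⟨x, y, _ | _⟩ := e
      · rw [Finset.mem_coe]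
        unfold boxE
        rw [mem_RE_false]
        simp only [src_mk, tgt_false] at hcase
        unfold nv at nb nd
        rcases hcase with ⟨h1, h2⟩ | ⟨h1, h2⟩
        · rw [← h1] at nb; rw [← h2] at nd; push_cast; simp only at nb nd; omega
        · rw [← h1] at nd; rw [← h2] at nb; push_cast; simp only at nb nd; omega
      · rw [Finset.mem_coe]
        unfold boxE
        rw [mem_RE_true]
        simp only [src_mk, tgt_true] at hcase
        unfold nv at nb nd
        rcases hcase with ⟨h1, h2⟩ | ⟨h1, h2⟩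
        · rw [← h1] at nb; rw [← h2] at nd; push_cast; simp only at nb nd; omega
        · rw [← h1] at nd; rw [← h2] at nb; push_cast; simp only at nb nd; omega
  · exact absurd (h v hv) hv2

/-- a property of the cluster of the origin which is increasing and seen in finite boxes -/
structure Loc (Q : Set Edg → Prop) : Prop where
  mono : ∀ F G : Set Edg, F ⊆ G → Q F → Q G
  box : ∀ (G : Set Edg) (n : ℕ), (∀ w : Vtx, Reach G (0, 0) w → nv w ≤ n) → Q G →
    Q (G ∩ ↑(boxE (n + 1)))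

theorem loc_vol (x : ℝ) : Loc (Vol x) := by
  constructor
  · exact fun F G h hF => InfAux.vol_mono h hF
  · rintro G n hG ⟨T, hT, hr⟩
    exact ⟨T, hT, fun u hu => staySet hG (hr u hu)⟩

theorem loc_far (r : ℕ) : Loc (fun G => ∃ w : Vtx, Reach G (0, 0) w ∧ r ≤ nv w) := by
  constructor
  · rintro F G h ⟨w, hw, hr⟩
    exact ⟨w, hw.mono h, hr⟩
  · rintro G n hG ⟨w, hw, hr⟩
    exact ⟨w, staySet hG hw, hr⟩

theorem mem_cl (ω : sqLattice.edgeSet → Bool) (v : Vtx) :
    v ∈ cluster0 ω ↔ Reach (opn ω) (0, 0) v := open_reach ω _ _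

theorem finite_iff (ω : sqLattice.edgeSet → Bool) :
    (cluster0 ω).Finite ↔ ∃ n : ℕ, ∀ w : Vtx, Reach (opn ω) (0, 0) w → nv w ≤ n := by
  constructor
  · intro h
    obtain ⟨n, hn⟩ := (h.image nv).bddAbove
    exact ⟨n, fun w hw => hn (Set.mem_image_of_mem _ ((mem_cl ω w).mpr hw))⟩
  · rintro ⟨n, hn⟩
    apply Set.Finite.subset (bx n).finite_toSet
    intro w hw
    rw [Finset.mem_coe]
    have := hn w ((mem_cl ω w).mp hw)
    unfold bx nv at *
    rw [Finset.mem_product, Finset.mem_Icc, Finset.mem_Icc]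
    omega

theorem fin_le (p : unitInterval) {Q : Set Edg → Prop} (hQ : Loc Q) {c : ℝ}
    (h : ∀ n : ℕ, ∃ L0 : ℕ, ∀ L : ℕ, L0 ≤ L → Pr (fun _ => (p : ℝ)) (boxE L) (fun F => Q ↑F ∧
      ∀ w : Vtx, Reach (↑F) (0, 0) w → nv w ≤ n) ≤ c) :
    (bondLaw p).real {ω | Q (opn ω) ∧ (cluster0 ω).Finite} ≤ c := by
  set En : ℕ → Set (sqLattice.edgeSet → Bool) :=
    fun n => {ω | Q (opn ω) ∧ ∀ w : Vtx, Reach (opn ω) (0, 0) w → nv w ≤ n} with hEn
  have e : {ω : sqLattice.edgeSet → Bool | Q (opn ω) ∧ (cluster0 ω).Finite} = ⋃ n : ℕ, En n := by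
    ext ω
    rw [Set.mem_iUnion]
    constructor
    · rintro ⟨h1, h2⟩
      obtain ⟨n, hn⟩ := (finite_iff ω).mp h2
      exact ⟨n, h1, hn⟩
    · rintro ⟨n, h1, h2⟩
      exact ⟨h1, (finite_iff ω).mpr ⟨n, h2⟩⟩
  have hm : Monotone En := by
    rintro n n' hnn ω ⟨h1, h2⟩
    exact ⟨h1, fun w hw => (h2 w hw).trans hnn⟩
  have h1 := tendsto_measure_iUnion_atTop (μ := bondLaw p) hm
  rw [← e] at h1
  have h2 : Tendsto (fun n : ℕ => (bondLaw p).real (En n)) atTop
      (nhds ((bondLaw p).real {ω | Q (opn ω) ∧ (cluster0 ω).Finite})) :=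
    (ENNReal.tendsto_toReal (measure_ne_top _ _)).comp h1
  refine le_of_tendsto' h2 (fun n => ?_)
  obtain ⟨L0, hL0⟩ := h n
  set L := max L0 (n + 1) with hL
  have h3 := hL0 L (le_max_left _ _)
  refine le_trans ?_ h3
  have h4 := law_event p (boxE L) (fun F => Q ↑F ∧ ∀ w : Vtx, Reach (↑F) (0, 0) w → nv w ≤ n)
  rw [← h4]
  refine measureReal_mono ?_ (measure_ne_top _ _)
  rintro ω ⟨g1, g2⟩
  show Q ↑(FF (boxE L) ω) ∧ ∀ w : Vtx, Reach (↑(FF (boxE L) ω)) (0, 0) w → nv w ≤ n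
  rw [FF_coe]
  refine ⟨?_, fun w hw => g2 w (hw.mono Set.inter_subset_left)⟩
  refine hQ.mono _ _ ?_ (hQ.box _ n g2 g1)
  apply Set.inter_subset_inter_right
  exact_mod_cast boxE_mono (le_max_right L0 (n + 1))

theorem fin_ge (p : unitInterval) {Q : Set Edg → Prop} (hQ : Loc Q) {R m : ℕ} (hRm : R < m) :
    Pr (fun _ => (p : ℝ)) (boxE m) (fun F => Q ↑F ∧ Blk (R : ℤ) (m : ℤ) F) ≤
      (bondLaw p).real {ω | Q (opn ω) ∧ (cluster0 ω).Finite} := by
  have h4 := law_event p (boxE m) (fun F => Q ↑F ∧ Blk (R : ℤ) (m : ℤ) F)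
  rw [← h4]
  refine measureReal_mono ?_ (measure_ne_top _ _)
  rintro ω ⟨g1, g2⟩
  have g1' : Q ↑(FF (boxE m) ω) := g1
  have g2' : Blk (R : ℤ) (m : ℤ) (FF (boxE m) ω) := g2
  refine ⟨hQ.mono _ _ ?_ g1', ?_⟩
  · rw [FF_coe]
    exact Set.inter_subset_left
  · rw [finite_iff]
    refine ⟨m, fun w hw => ?_⟩
    by_contra hcon
    push Not at hcon
    obtain ⟨w', k1, k2, k3⟩ := first_exit (a := -(m : ℤ)) (b := (m : ℤ))
      (c := -(m : ℤ)) (d := (m : ℤ)) (u := (0, 0))
      (by unfold inR; simp only; omega) hw (by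
        unfold nv at hcon
        omega)
    have k4 : Reach (↑(FF (boxE m) ω)) (0, 0) w' := by
      rw [FF_coe]
      exact k3
    refine not_blk_of_arm (R1 := (R : ℤ)) (R2 := (m : ℤ)) (by positivity)
      (by exact_mod_cast hRm) k4 ?_ g2'
    omega

/-- the size of the finite clusters -/
noncomputable def tf (p : unitInterval) (N : ℕ) : ℝ :=
  (bondLaw p).real {ω | (N : ℕ∞) ≤ (cluster0 ω).encard ∧ (cluster0 ω).Finite}

theorem tf_eq (p : unitInterval) (N : ℕ) :
    tf p N = (bondLaw p).real {ω | Vol N (opn ω) ∧ (cluster0 ω).Finite} := by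
  unfold tf
  congr 1
  ext ω
  exact and_congr_left fun _ => InfAux.encard_iff ω N

/-- the radius of the finite clusters -/
noncomputable def rf (p : unitInterval) (n : ℕ) : ℝ :=
  (bondLaw p).real {ω | (∃ w ∈ cluster0 ω, (n : ℤ) ≤ max |w.1| |w.2|) ∧ (cluster0 ω).Finite}

theorem rf_eq (p : unitInterval) (n : ℕ) :
    rf p n = (bondLaw p).real {ω | (∃ w : Vtx, Reach (opn ω) (0, 0) w ∧ n ≤ nv w) ∧
      (cluster0 ω).Finite} := by
  unfold rf
  congr 1
  ext ω
  refine and_congr_left fun _ => ?_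
  constructor
  · rintro ⟨w, hw, h⟩
    refine ⟨w, (mem_cl ω w).mp hw, ?_⟩
    unfold nv
    rw [Int.abs_eq_natAbs, Int.abs_eq_natAbs] at h
    omega
  · rintro ⟨w, hw, h⟩
    refine ⟨w, (mem_cl ω w).mpr hw, ?_⟩
    unfold nv at h
    rw [Int.abs_eq_natAbs, Int.abs_eq_natAbs]
    omega

end Q291.SA
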