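import Pool.Agent.H362P.Low

/-!
Adding one point to a set of points connected to a sink, for every parameter `q ≥ 1/2`.
-/

set_option autoImplicit false

namespace Q291.SA
open Finset H974 Pool.Agent.H160R2.CV Pool.Agent.H160R2.CV.Quad H362P

variable {q : ℝ}

theorem pr_le_locq (h0 : 0 ≤ q) (h1 : q ≤ 1) (S T : Finset Edg) {A : Finset Edg → Prop}
    (hA : IncA A) (hT : LocE T A) : Pr (fun _ => q) S A ≤ Pr (fun _ => q) T A := by
  have s2 : Pr (fun _ => q) S A ≤ Pr (fun _ => q) (S ∪ T) A :=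
    Pr_mono_set (okq h0 h1) Finset.subset_union_left (fun F G h _ => hA F G h)
  have s3 : Pr (fun _ => q) (S ∪ T) A = Pr (fun _ => q) T A :=
    Pr_local Finset.subset_union_right (fun F _ => hT F)
  linarith

/-- two increasing events on disjoint sets of edges -/
theorem indep2q (h0 : 0 ≤ q) (h1 : q ≤ 1) (S S1 S2 : Finset Edg) (hd : Disjoint S1 S2)
    {A B : Finset Edg → Prop}
    (hA : IncA A) (hB : IncA B) (hA' : LocE S1 A) (hB' : LocE S2 B) :
    Pr (fun _ => q) S (fun F => A F ∧ B F) ≤ Pr (fun _ => q) S1 A * Pr (fun _ => q) S2 B := by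
  have hi : IncA (fun F => A F ∧ B F) := fun F G h hF => ⟨hA F G h hF.1, hB F G h hF.2⟩
  have hl : LocE (S1 ∪ S2) (fun F => A F ∧ B F) := by
    intro F
    show (A F ∧ B F) ↔ (A (F ∩ (S1 ∪ S2)) ∧ B (F ∩ (S1 ∪ S2)))
    rw [hA' F, hB' F, hA' (F ∩ (S1 ∪ S2)), hB' (F ∩ (S1 ∪ S2))]
    have e1 : F ∩ (S1 ∪ S2) ∩ S1 = F ∩ S1 := by
      ext e; simp only [Finset.mem_inter, Finset.mem_union]; tauto
    have e2 : F ∩ (S1 ∪ S2) ∩ S2 = F ∩ S2 := by
      ext e; simp only [Finset.mem_inter, Finset.mem_union]; tauto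
    rw [e1, e2]
  have g1 := pr_le_locq h0 h1 S (S1 ∪ S2) hi hl
  have g2 : Pr (fun _ => q) (S1 ∪ S2) (fun F => A F ∧ B F) =
      Pr (fun _ => q) (S1 ∪ S2) A * Pr (fun _ => q) (S1 ∪ S2) B :=
    Pr_indep Finset.subset_union_left Finset.subset_union_right hd (fun F _ => hA' F)
      (fun F _ => hB' F)
  have g3 : Pr (fun _ => q) (S1 ∪ S2) A = Pr (fun _ => q) S1 A :=
    Pr_local Finset.subset_union_left (fun F _ => hA' F)
  have g4 : Pr (fun _ => q) (S1 ∪ S2) B = Pr (fun _ => q) S2 B :=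
    Pr_local Finset.subset_union_right (fun F _ => hB' F)
  rw [g2, g3, g4] at g1
  exact g1

theorem pr_LAq (h0 : 0 ≤ q) (h1 : q ≤ 1) (S : Finset Edg) (v : Vtx) (m : ℕ) :
    Pr (fun _ => q) S (LA v m) ≤ arm q m := by
  refine le_trans (Pr_mono (okq h0 h1) ?_) (arm_bound h0 h1 S v m)
  rintro F _ ⟨w, -, k2, k3⟩
  exact ⟨w, by omega, k3.mono Set.inter_subset_left⟩

theorem pr_CAq (hq : 1 / 2 ≤ q) (h1 : q ≤ 1) {c : Vtx} {n : ℕ} (hn : 1 ≤ n) {S : Finset Edg}
    (hS : bo c (3 * n) ⊆ S) :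
    (1 / 2 : ℝ) ^ 188 ≤ Pr (fun _ => q) S (CA c n (3 * n)) := by
  refine (pr_CA hn hS).trans ?_
  exact Pr_mono_param (p := P) (q := fun _ => q) okP (okq (by linarith) h1) (fun _ => hq)
    (CA_incr S c n (3 * n))

/-- every point of `X` is connected to the sink `T` -/
def GT (T : Set Vtx) (X : Finset Vtx) (F : Finset Edg) : Prop :=
  ∀ u ∈ X, ∃ w ∈ T, Reach (↑F) u w

theorem GT_inc (T : Set Vtx) (X : Finset Vtx) : IncA (GT T X) := by
  intro F G h hF u hu
  obtain ⟨w, hw, hr⟩ := hF u hu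
  exact ⟨w, hw, hr.mono (by exact_mod_cast h)⟩

theorem GT_insert (T : Set Vtx) (X : Finset Vtx) (x : Vtx) (F : Finset Edg) :
    GT T (insert x X) F ↔ GT T {x} F ∧ GT T X F := by
  unfold GT
  rw [Finset.forall_mem_insert]
  simp only [Finset.mem_singleton, forall_eq]

theorem GT_empty (T : Set Vtx) (F : Finset Edg) : GT T ∅ F := by
  intro u hu
  exact absurd hu (Finset.notMem_empty u)

/-- adding one point -/
theorem rec1 (hq : 1 / 2 ≤ q) (h1 : q ≤ 1) {T : Set Vtx} {X : Finset Vtx} {x : Vtx} {r : ℕ}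
    (hr1 : 1 ≤ r) (hX : ∀ u ∈ X, 3 * r ≤ nv (u - x)) (hT : ∀ w ∈ T, 3 * r ≤ nv (w - x))
    {S : Finset Edg} (hS : bo x (3 * r) ⊆ S) :
    Pr (fun _ => q) S (GT T (insert x X)) ≤
      2 ^ 188 * (arm q r * Pr (fun _ => q) S (GT T X)) := by
  classical
  have h0 : 0 ≤ q := by linarith
  have hok := okq h0 h1
  set B := bo x r with hB
  set S2 := S \ B with hS2
  set E : Finset Edg → Prop := fun F => ∀ u ∈ X, ∃ w ∈ T, Reach (↑(F ∩ S2) ∪ ↑B) u w with hE
  have hEi : IncA E := by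
    intro F G h hF u hu
    obtain ⟨w, hw, hr⟩ := hF u hu
    refine ⟨w, hw, hr.mono (Set.union_subset_union_left _ ?_)⟩
    exact_mod_cast Finset.inter_subset_inter_right h
  have hEl : LocE S2 E := by
    intro F
    rw [hE]
    simp only [Finset.inter_assoc, Finset.inter_self]
  have hd : Disjoint B S2 := by rw [hS2]; exact Finset.disjoint_sdiff
  have s1 : Pr (fun _ => q) S (GT T (insert x X)) ≤
      Pr (fun _ => q) S (fun F => LA x r F ∧ E F) := by
    apply Pr_mono hok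
    intro F hFS hF
    obtain ⟨w0, hw0, hr0⟩ := hF x (Finset.mem_insert_self _ _)
    refine ⟨LA_of_reach (u := w0) (by have := hT w0 hw0; omega) hr0, ?_⟩
    intro u hu
    obtain ⟨w, hw, hr⟩ := hF u (Finset.mem_insert_of_mem hu)
    refine ⟨w, hw, hr.mono ?_⟩
    intro e he
    by_cases h1 : e ∈ B
    · exact Or.inr (by exact_mod_cast h1)
    · left
      rw [Finset.mem_coe, Finset.mem_inter, hS2, Finset.mem_sdiff]
      exact ⟨Finset.mem_coe.mp he, hFS (Finset.mem_coe.mp he), h1⟩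
  have s2 := indep2q h0 h1 S B S2 hd (LA_inc x r) hEi (LA_loc (Finset.Subset.refl _)) hEl
  have s3 : Pr (fun _ => q) B (LA x r) ≤ arm q r := pr_LAq h0 h1 _ _ _
  have s4 : Pr (fun _ => q) S2 E ≤ Pr (fun _ => q) S E :=
    Pr_mono_set hok Finset.sdiff_subset (fun F G h _ => hEi F G h)
  have hcirc : (1 / 2 : ℝ) ^ 188 ≤ Pr (fun _ => q) S (CA x r (3 * r)) := pr_CAq hq h1 hr1 hS
  have s5 : Pr (fun _ => q) S E * Pr (fun _ => q) S (CA x r (3 * r)) ≤
      Pr (fun _ => q) S (GT T X) := by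
    refine (Pr_harris hok (fun F G h _ => hEi F G h) (CA_incr S x r (3 * r))).trans ?_
    apply Pr_mono hok
    rintro F _ ⟨g1, g2⟩
    intro u hu
    obtain ⟨w, hw, hr⟩ := g1 u hu
    refine ⟨w, hw, unwire_in (c := x) (R1 := r) (R2 := 3 * r) (by omega) g2 (A := ↑B) ?_
      (hX u hu) (hT w hw) ?_⟩
    · intro e he
      exact bo_ends (Finset.mem_coe.mp he)
    · refine hr.mono (Set.union_subset_union_left _ ?_)
      exact_mod_cast Finset.inter_subset_left
  have p0 : 0 ≤ Pr (fun _ => q) S E := Pr_nonneg hok _ _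
  have p1 : 0 ≤ arm q r := arm_nonneg h0 h1 r
  have s6 : Pr (fun _ => q) S E ≤ 2 ^ 188 * Pr (fun _ => q) S (GT T X) := by
    have g1 : Pr (fun _ => q) S E * (1 / 2 : ℝ) ^ 188 ≤ Pr (fun _ => q) S (GT T X) :=
      (mul_le_mul_of_nonneg_left hcirc p0).trans s5
    have g2 : Pr (fun _ => q) S E = 2 ^ 188 * (Pr (fun _ => q) S E * (1 / 2 : ℝ) ^ 188) := by
      rw [mul_comm (Pr (fun _ => q) S E), ← mul_assoc, ← mul_pow]; norm_num
    rw [g2]
    exact mul_le_mul_of_nonneg_left g1 (by positivity)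
  calc Pr (fun _ => q) S (GT T (insert x X))
      ≤ Pr (fun _ => q) B (LA x r) * Pr (fun _ => q) S2 E := s1.trans s2
    _ ≤ arm q r * (2 ^ 188 * Pr (fun _ => q) S (GT T X)) :=
        mul_le_mul s3 (s4.trans s6) (Pr_nonneg hok _ _) p1
    _ = _ := by ring

/-- the constant -/
noncomputable def QC : ℝ := 2 ^ 188

theorem QC_ge : 1 ≤ QC := by unfold QC; norm_num

theorem rec2 (hq : 1 / 2 ≤ q) (h1 : q ≤ 1) {T : Set Vtx} {X : Finset Vtx} {x : Vtx} {r : ℕ}
    (hr1 : 1 ≤ r) (hX : ∀ u ∈ X, 3 * r ≤ nv (u - x)) (hT : ∀ w ∈ T, 3 * r ≤ nv (w - x))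
    {S : Finset Edg} (hS : bo x (3 * r) ⊆ S) :
    Pr (fun _ => q) S (GT T (insert x X)) ≤
      QC * (arm q r * Pr (fun _ => q) S (GT T X)) := rec1 hq h1 hr1 hX hT hS

attribute [irreducible] QC

/-- the number of the vertices of `B` connected to the sink -/
noncomputable def VT (T : Set Vtx) (B : Finset Vtx) (F : Finset Edg) : ℝ :=
  ∑ y ∈ B, ind (GT T {y} F)

theorem VT_nonneg (T : Set Vtx) (B : Finset Vtx) (F : Finset Edg) : 0 ≤ VT T B F :=
  Finset.sum_nonneg fun _ _ => ind_nonneg _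

theorem VT_mono (T : Set Vtx) (B : Finset Vtx) {F G : Finset Edg} (h : F ⊆ G) :
    VT T B F ≤ VT T B G := Finset.sum_le_sum fun _ _ => ind_mono (GT_inc T _ F G h)

theorem ind_VT_succ (T : Set Vtx) (B X : Finset Vtx) (F : Finset Edg) (k : ℕ) :
    ind (GT T X F) * VT T B F ^ (k + 1) =
      ∑ x ∈ B, ind (GT T (insert x X) F) * VT T B F ^ k := by
  have h1 : ∀ x ∈ B, ind (GT T (insert x X) F) * VT T B F ^ k =
      ind (GT T {x} F) * (ind (GT T X F) * VT T B F ^ k) := by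
    intro x _
    rw [ind_congr (GT_insert T X x F), ind_and]
    ring
  rw [Finset.sum_congr rfl h1, ← Finset.sum_mul, pow_succ]
  unfold VT
  ring

/-- the moments, from the one-step bound -/
theorem mom_of (h0 : 0 ≤ q) (h1 : q ≤ 1) {T : Set Vtx} {B : Finset Vtx} {S : Finset Edg}
    {K : ℝ} (hK : 0 ≤ K)
    (hstep : ∀ X : Finset Vtx, X ⊆ B → ∑ x ∈ B, Pr (fun _ => q) S (GT T (insert x X)) ≤
      ((X.card : ℝ) + 1) * K * Pr (fun _ => q) S (GT T X)) (k : ℕ) :
    ∀ X : Finset Vtx, X ⊆ B → Ex (fun _ => q) S (fun F => ind (GT T X F) * VT T B F ^ k) ≤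
      (∏ i ∈ range k, (((X.card : ℝ) + 1 + i) * K)) * Pr (fun _ => q) S (GT T X) := by
  classical
  induction k with
  | zero =>
    intro X _
    rw [Finset.range_zero, Finset.prod_empty, one_mul]
    refine le_of_eq (Ex_congr fun F _ => ?_)
    rw [pow_zero, mul_one]
  | succ k ih =>
    intro X hX
    have e1 : Ex (fun _ => q) S (fun F => ind (GT T X F) * VT T B F ^ (k + 1)) =
        ∑ x ∈ B, Ex (fun _ => q) S (fun F => ind (GT T (insert x X) F) * VT T B F ^ k) := by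
      rw [← Ex_sum]
      exact Ex_congr fun F _ => ind_VT_succ T B X F k
    rw [e1]
    have e2 : ∀ x ∈ B, Ex (fun _ => q) S (fun F => ind (GT T (insert x X) F) * VT T B F ^ k) ≤
        (∏ i ∈ range k, (((X.card : ℝ) + 2 + i) * K)) *
          Pr (fun _ => q) S (GT T (insert x X)) := by
      intro x hx
      refine (ih (insert x X) (Finset.insert_subset hx hX)).trans ?_
      apply mul_le_mul_of_nonneg_right _ (Pr_nonneg (okq h0 h1) _ _)
      apply Finset.prod_le_prod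
      · intro i _
        positivity
      · intro i _
        apply mul_le_mul_of_nonneg_right _ hK
        have : ((insert x X).card : ℝ) ≤ X.card + 1 := by
          exact_mod_cast Finset.card_insert_le x X
        linarith
    refine (Finset.sum_le_sum e2).trans ?_
    rw [← Finset.mul_sum]
    refine (mul_le_mul_of_nonneg_left (hstep X hX) ?_).trans (le_of_eq ?_)
    · apply Finset.prod_nonneg
      intro i _
      positivity
    · rw [Finset.prod_range_succ']
      push_cast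
      have e3 : ∀ i ∈ range k, ((X.card : ℝ) + 1 + ((i : ℝ) + 1)) * K =
          ((X.card : ℝ) + 2 + i) * K := by
        intro i _
        ring
      rw [Finset.prod_congr rfl e3]
      ring

theorem prod_fac (K : ℝ) (k : ℕ) : ∏ i ∈ range k, (((0 : ℝ) + 1 + i) * K) =
    k.factorial * K ^ k := by
  induction k with
  | zero => simp
  | succ k ih =>
    rw [Finset.prod_range_succ, ih, Nat.factorial_succ, pow_succ]
    push_cast
    ring

theorem prod_fac1 (K : ℝ) (k : ℕ) : ∏ i ∈ range k, (((1 : ℝ) + 1 + i) * K) =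
    (k + 1).factorial * K ^ k := by
  induction k with
  | zero => simp
  | succ k ih =>
    rw [Finset.prod_range_succ, ih, Nat.factorial_succ (k + 1), pow_succ]
    push_cast
    ring

/-- the one-step bound, from the sums of the arm probabilities -/
theorem step_of (hq : 1 / 2 ≤ q) (h1 : q ≤ 1) {T : Set Vtx} {B : Finset Vtx} {S : Finset Edg}
    (τ : Vtx → ℕ) (hτ : ∀ x ∈ B, ∀ w ∈ T, τ x ≤ nv (w - x)) (hS : ∀ x ∈ B, bo x (τ x) ⊆ S)
    {K : ℝ} (hK1 : ∑ x ∈ B, arm q (τ x / 3) ≤ K)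
    (hK2 : ∀ u ∈ B, ∑ x ∈ B, arm q (nv (u - x) / 3) ≤ K) (X : Finset Vtx) (hX : X ⊆ B) :
    ∑ x ∈ B, Pr (fun _ => q) S (GT T (insert x X)) ≤
      ((X.card : ℝ) + 1) * (QC * K) * Pr (fun _ => q) S (GT T X) := by
  classical
  have h0 : 0 ≤ q := by linarith
  have hok := okq h0 h1
  have hP0 : 0 ≤ Pr (fun _ => q) S (GT T X) := Pr_nonneg hok _ _
  have hQ0 : 0 ≤ QC := by have := QC_ge; linarith
  have key : ∀ x ∈ B, Pr (fun _ => q) S (GT T (insert x X)) ≤
      QC * ((arm q (τ x / 3) + ∑ u ∈ X, arm q (nv (u - x) / 3)) *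
        Pr (fun _ => q) S (GT T X)) := by
    intro x hx
    have hn : ∀ n, 0 ≤ arm q n := fun n => arm_nonneg h0 h1 n
    have hsum0 : 0 ≤ ∑ u ∈ X, arm q (nv (u - x) / 3) := Finset.sum_nonneg fun _ _ => hn _
    -- the smallest distance
    have main : ∀ a : ℕ, (∀ u ∈ X, a ≤ nv (u - x)) → a ≤ τ x →
        Pr (fun _ => q) S (GT T (insert x X)) ≤
          QC * (arm q (a / 3) * Pr (fun _ => q) S (GT T X)) := by
      intro a ha1 ha2
      rcases Nat.eq_zero_or_pos (a / 3) with hz | hpos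
      · rw [hz, arm_zero, one_mul]
        have g1 : Pr (fun _ => q) S (GT T (insert x X)) ≤ Pr (fun _ => q) S (GT T X) :=
          Pr_mono hok fun F _ hF => ((GT_insert T X x F).mp hF).2
        have g2 : Pr (fun _ => q) S (GT T X) ≤ QC * Pr (fun _ => q) S (GT T X) := by
          have := QC_ge
          nlinarith
        exact g1.trans g2
      · apply rec2 hq h1 hpos
        · intro u hu
          have := ha1 u hu
          omega
        · intro w hw
          have := hτ x hx w hw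
          omega
        · refine Finset.Subset.trans ?_ (hS x hx)
          unfold bo
          apply RE_subset <;> push_cast <;> omega
    by_cases hall : ∀ u ∈ X, τ x ≤ nv (u - x)
    · refine (main (τ x) hall le_rfl).trans ?_
      apply mul_le_mul_of_nonneg_left _ hQ0
      apply mul_le_mul_of_nonneg_right _ hP0
      linarith
    · push Not at hall
      obtain ⟨u0, hu0, hlt⟩ := hall
      obtain ⟨u, hu, hmin⟩ := Finset.exists_min_image X (fun u => nv (u - x)) ⟨u0, hu0⟩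
      have hm2 := hmin u0 hu0
      refine (main (nv (u - x)) hmin (by omega)).trans ?_
      apply mul_le_mul_of_nonneg_left _ hQ0
      apply mul_le_mul_of_nonneg_right _ hP0
      have g1 : arm q (nv (u - x) / 3) ≤ ∑ u ∈ X, arm q (nv (u - x) / 3) :=
        Finset.single_le_sum (f := fun u => arm q (nv (u - x) / 3)) (fun _ _ => hn _) hu
      have g2 := hn (τ x / 3)
      linarith
  refine (Finset.sum_le_sum key).trans ?_
  rw [← Finset.mul_sum, ← Finset.sum_mul, Finset.sum_add_distrib, Finset.sum_comm]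
  have g1 : ∑ u ∈ X, ∑ x ∈ B, arm q (nv (u - x) / 3) ≤ X.card * K := by
    have := Finset.sum_le_card_nsmul X (fun u => ∑ x ∈ B, arm q (nv (u - x) / 3)) K
      (fun u hu => hK2 u (hX hu))
    rwa [nsmul_eq_mul] at this
  have g2 : (∑ x ∈ B, arm q (τ x / 3) + ∑ u ∈ X, ∑ x ∈ B, arm q (nv (u - x) / 3)) *
      Pr (fun _ => q) S (GT T X) ≤ (((X.card : ℝ) + 1) * K) * Pr (fun _ => q) S (GT T X) := by
    apply mul_le_mul_of_nonneg_right _ hP0
    linarith
  have g3 : (0 : ℝ) ≤ QC := hQ0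
  calc QC * ((∑ x ∈ B, arm q (τ x / 3) + ∑ u ∈ X, ∑ x ∈ B, arm q (nv (u - x) / 3)) *
      Pr (fun _ => q) S (GT T X)) ≤ QC * ((((X.card : ℝ) + 1) * K) *
        Pr (fun _ => q) S (GT T X)) := mul_le_mul_of_nonneg_left g2 g3
    _ = _ := by ring

end Q291.SA
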