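import Pool.Agent.Q291.SA.Rec
import Pool.Agent.W424.NC.Stab
import Pool.Agent.H160R2.CV.Ratio

/-!
Sums of the one-arm probabilities for `q ≥ 1/2`, and the one-arm probability above the critical
point in the critical window.
-/

set_option autoImplicit false

namespace Q291.SA
open Finset H974 Pool.Agent.H160R2.CV Pool.Agent.H160R2.CV.Quad H362P

variable {q : ℝ}

theorem arm3 (hq : 1 / 2 ≤ q) (h1 : q ≤ 1) {n k : ℕ} (hn : 1 ≤ n) (hk : k ≤ 3 * n) :
    ((k : ℝ) + 1) * (arm q (k / 3)) ^ 2 ≤ 288 / kap ^ 2 * n * (arm q n) ^ 2 := by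
  have hn1 : (1 : ℝ) ≤ n := by exact_mod_cast hn
  have hka := kap_pos
  have hka1 := kap_le
  have h16 := arm_half_sq hq h1 (n := n) (by omega)
  have hA : 0 ≤ (n : ℝ) * (arm q n) ^ 2 := by positivity
  have hk2 : (1 : ℝ) ≤ 1 / kap ^ 2 := by
    rw [le_div_iff₀ (by positivity)]
    nlinarith
  rcases Nat.eq_zero_or_pos (k / 3) with h | h
  · rw [h, arm_zero, one_pow, mul_one]
    have hk3 : (k : ℝ) + 1 ≤ 3 := by
      have : k ≤ 2 := by omega
      have : (k : ℝ) ≤ 2 := by exact_mod_cast this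
      linarith
    have e : 288 / kap ^ 2 * n * (arm q n) ^ 2 = 288 * (1 / kap ^ 2) * (n * (arm q n) ^ 2) := by
      ring
    rw [e]
    nlinarith
  · have g := arm_ratio hq h1 (r := k / 3) (n := n) h (by omega)
    have hk6 : (k : ℝ) + 1 ≤ 6 * ((k / 3 : ℕ) : ℝ) := by
      have : k + 1 ≤ 6 * (k / 3) := by omega
      exact_mod_cast this
    have hs : 0 ≤ (arm q (k / 3)) ^ 2 := sq_nonneg _
    have e : 288 / kap ^ 2 * n * (arm q n) ^ 2 = 288 * n * (arm q n) ^ 2 / kap ^ 2 := by ring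
    rw [e, le_div_iff₀ (by positivity)]
    calc ((k : ℝ) + 1) * (arm q (k / 3)) ^ 2 * kap ^ 2
        ≤ (6 * ((k / 3 : ℕ) : ℝ)) * (arm q (k / 3)) ^ 2 * kap ^ 2 := by
          apply mul_le_mul_of_nonneg_right _ (by positivity)
          exact mul_le_mul_of_nonneg_right hk6 hs
      _ = 6 * (kap ^ 2 * ((k / 3 : ℕ) : ℝ) * (arm q (k / 3)) ^ 2) := by ring
      _ ≤ 6 * (48 * n * (arm q n) ^ 2) := mul_le_mul_of_nonneg_left g (by norm_num)
      _ = _ := by ring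

theorem arm3' (hq : 1 / 2 ≤ q) (h1 : q ≤ 1) {n k : ℕ} (hn : 1 ≤ n) (hk : k ≤ 2 * n) :
    ((k : ℝ) + 1) * arm q (k / 3) ≤ 30 / kap * n * arm q n := by
  have h0 : 0 ≤ q := by linarith
  have hn1 : (1 : ℝ) ≤ n := by exact_mod_cast hn
  have hka := kap_pos
  have hb := arm_nonneg h0 h1 n
  have h := arm3 hq h1 hn (k := k) (by omega)
  have hk3 : (k : ℝ) + 1 ≤ 3 * n := by
    have : k + 1 ≤ 3 * n := by omega
    exact_mod_cast this
  have h2 : (((k : ℝ) + 1) * arm q (k / 3)) ^ 2 ≤ (30 / kap * n * arm q n) ^ 2 := by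
    calc (((k : ℝ) + 1) * arm q (k / 3)) ^ 2
        = ((k : ℝ) + 1) * (((k : ℝ) + 1) * (arm q (k / 3)) ^ 2) := by ring
      _ ≤ (3 * n) * (288 / kap ^ 2 * n * (arm q n) ^ 2) :=
          mul_le_mul hk3 h (by positivity) (by positivity)
      _ = 864 * (1 / kap ^ 2 * n ^ 2 * (arm q n) ^ 2) := by ring
      _ ≤ 900 * (1 / kap ^ 2 * n ^ 2 * (arm q n) ^ 2) :=
          mul_le_mul_of_nonneg_right (by norm_num) (by positivity)
      _ = _ := by
          field_simp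
          ring
  exact (le_abs_self _).trans (abs_le_of_sq_le_sq h2 (by positivity))

theorem arm3M (hq : 1 / 2 ≤ q) (h1 : q ≤ 1) {n : ℕ} (hn : 1 ≤ n) :
    arm q (n / 3) ≤ 30 / kap * arm q n := by
  have hn1 : (1 : ℝ) ≤ n := by exact_mod_cast hn
  have h0 : 0 ≤ q := by linarith
  have h := arm3' hq h1 hn (k := n) (by omega)
  have ha := arm_nonneg h0 h1 (n / 3)
  have h3 : (n : ℝ) * arm q (n / 3) ≤ n * (30 / kap * arm q n) := by
    calc (n : ℝ) * arm q (n / 3) ≤ ((n : ℝ) + 1) * arm q (n / 3) :=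
          mul_le_mul_of_nonneg_right (by linarith) ha
      _ ≤ _ := h
      _ = _ := by ring
  exact le_of_mul_le_mul_left h3 (by linarith)

/-- the sum over a box -/
theorem sumA (hq : 1 / 2 ≤ q) (h1 : q ≤ 1) {n : ℕ} (hn : 1 ≤ n) :
    ∑ x ∈ bx n, arm q (nv x / 3) ≤ 720 / kap * ((n : ℝ) ^ 2 * arm q n) := by
  have h0 : 0 ≤ q := by linarith
  have hn1 : (1 : ℝ) ≤ n := by exact_mod_cast hn
  have hka := kap_pos
  have hb := arm_nonneg h0 h1 n
  refine (sum_bx n (fun k => arm q (k / 3)) (fun k => arm_nonneg h0 h1 _)).trans ?_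
  have h2 : ∑ k ∈ range (n + 1), ((k : ℝ) + 1) * arm q (k / 3) ≤
      ∑ k ∈ range (n + 1), 30 / kap * n * arm q n := by
    apply Finset.sum_le_sum
    intro k hk
    rw [Finset.mem_range] at hk
    exact arm3' hq h1 hn (by omega)
  rw [Finset.sum_const, Finset.card_range, nsmul_eq_mul] at h2
  push_cast at h2
  have h3 : ((n : ℝ) + 1) * (30 / kap * n * arm q n) ≤ (3 * n) * (30 / kap * n * arm q n) :=
    mul_le_mul_of_nonneg_right (by linarith) (by positivity)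
  calc 8 * ∑ k ∈ range (n + 1), ((k : ℝ) + 1) * arm q (k / 3)
      ≤ 8 * ((3 * n) * (30 / kap * n * arm q n)) :=
        mul_le_mul_of_nonneg_left (h2.trans h3) (by norm_num)
    _ = _ := by ring

theorem sumA2 (hq : 1 / 2 ≤ q) (h1 : q ≤ 1) {n : ℕ} (hn : 1 ≤ n) :
    ∑ x ∈ bx n, (arm q (nv x / 3)) ^ 2 ≤ 6912 / kap ^ 2 * ((n : ℝ) ^ 2 * (arm q n) ^ 2) := by
  have hn1 : (1 : ℝ) ≤ n := by exact_mod_cast hn
  have hka := kap_pos
  refine (sum_bx n (fun k => (arm q (k / 3)) ^ 2) (fun k => sq_nonneg _)).trans ?_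
  have h2 : ∑ k ∈ range (n + 1), ((k : ℝ) + 1) * (arm q (k / 3)) ^ 2 ≤
      ∑ k ∈ range (n + 1), 288 / kap ^ 2 * n * (arm q n) ^ 2 := by
    apply Finset.sum_le_sum
    intro k hk
    rw [Finset.mem_range] at hk
    exact arm3 hq h1 hn (by omega)
  rw [Finset.sum_const, Finset.card_range, nsmul_eq_mul] at h2
  push_cast at h2
  have h3 : ((n : ℝ) + 1) * (288 / kap ^ 2 * n * (arm q n) ^ 2) ≤
      (3 * n) * (288 / kap ^ 2 * n * (arm q n) ^ 2) :=
    mul_le_mul_of_nonneg_right (by linarith) (by positivity)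
  calc 8 * ∑ k ∈ range (n + 1), ((k : ℝ) + 1) * (arm q (k / 3)) ^ 2
      ≤ 8 * ((3 * n) * (288 / kap ^ 2 * n * (arm q n) ^ 2)) :=
        mul_le_mul_of_nonneg_left (h2.trans h3) (by norm_num)
    _ = _ := by ring

theorem mem_bx {n : ℕ} {x : Vtx} : x ∈ bx n ↔ nv x ≤ n := by
  unfold bx nv
  rw [Finset.mem_product, Finset.mem_Icc, Finset.mem_Icc]
  omega

/-- the sum over a set of diameter at most `n` -/
theorem sumB (hq : 1 / 2 ≤ q) (h1 : q ≤ 1) {n : ℕ} (hn : 1 ≤ n) {B : Finset Vtx} {u : Vtx}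
    (hB : ∀ x ∈ B, nv (u - x) ≤ n) :
    ∑ x ∈ B, arm q (nv (u - x) / 3) ≤ 720 / kap * ((n : ℝ) ^ 2 * arm q n) := by
  classical
  have h0 : 0 ≤ q := by linarith
  refine le_trans ?_ (sumA hq h1 hn)
  have e1 : ∑ x ∈ B, arm q (nv (u - x) / 3) =
      ∑ z ∈ B.image (fun x => u - x), arm q (nv z / 3) := by
    rw [Finset.sum_image]
    intro a _ b _ hab
    exact sub_right_injective hab
  rw [e1]
  apply Finset.sum_le_sum_of_subset_of_nonneg
  · intro z hz
    obtain ⟨x, hx, rfl⟩ := Finset.mem_image.1 hz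
    exact mem_bx.mpr (hB x hx)
  · intro _ _ _
    exact arm_nonneg h0 h1 _

/-- the constant of the moment bounds -/
noncomputable def K0 : ℝ := QC * (720 / kap)

theorem K0_pos : 0 < K0 := by
  unfold K0
  have := kap_pos
  have hQ : 0 < QC := lt_of_lt_of_le one_pos QC_ge
  positivity

/-- moments of the number of the points of a small set connected to a far sink -/
theorem mom_far (hq : 1 / 2 ≤ q) (h1 : q ≤ 1) {T : Set Vtx} {B : Finset Vtx} {S : Finset Edg}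
    {M : ℕ} (hM : 1 ≤ M) (hB : ∀ x ∈ B, ∀ y ∈ B, nv (x - y) ≤ M)
    (hcard : (B.card : ℝ) ≤ 9 * (M : ℝ) ^ 2)
    (hT : ∀ x ∈ B, ∀ w ∈ T, M ≤ nv (w - x)) (hS : ∀ x ∈ B, bo x M ⊆ S) (k : ℕ) :
    Ex (fun _ => q) S (fun F => VT T B F ^ k) ≤
      k.factorial * (K0 * ((M : ℝ) ^ 2 * arm q M)) ^ k := by
  have h0 : 0 ≤ q := by linarith
  have hka := kap_pos
  have hQ : 0 < QC := lt_of_lt_of_le one_pos QC_ge
  have hb := arm_nonneg h0 h1 M
  have hM0 : (0 : ℝ) ≤ M := by positivity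
  have hK : 0 ≤ 720 / kap * ((M : ℝ) ^ 2 * arm q M) := by positivity
  have hs := fun X hX => step_of hq h1 (T := T) (B := B) (S := S) (fun _ => M) hT hS
    (K := 720 / kap * ((M : ℝ) ^ 2 * arm q M)) (by
      rw [Finset.sum_const, nsmul_eq_mul]
      have g := arm3M hq h1 hM
      have g2 := arm_nonneg h0 h1 (M / 3)
      calc (B.card : ℝ) * arm q (M / 3) ≤ (9 * (M : ℝ) ^ 2) * (30 / kap * arm q M) :=
            mul_le_mul hcard g g2 (by positivity)
        _ = 270 * (1 / kap * ((M : ℝ) ^ 2 * arm q M)) := by ring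
        _ ≤ 720 * (1 / kap * ((M : ℝ) ^ 2 * arm q M)) :=
            mul_le_mul_of_nonneg_right (by norm_num) (by positivity)
        _ = _ := by ring)
    (fun u hu => sumB hq h1 hM (fun x hx => hB u hu x hx)) X hX
  have h := mom_of h0 h1 (T := T) (B := B) (S := S)
    (K := QC * (720 / kap * ((M : ℝ) ^ 2 * arm q M))) (by positivity)
    hs k ∅ (Finset.empty_subset _)
  rw [Finset.card_empty, Nat.cast_zero, prod_fac] at h
  have e1 : Ex (fun _ => q) S (fun F => VT T B F ^ k) =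
      Ex (fun _ => q) S (fun F => ind (GT T ∅ F) * VT T B F ^ k) := by
    apply Ex_congr
    intro F _
    rw [ind_of (GT_empty T F), one_mul]
  rw [e1]
  refine h.trans ?_
  have h2 : Pr (fun _ => q) S (GT T ∅) ≤ 1 := Pr_le_one (okq h0 h1) _ _
  have h3 : QC * (720 / kap * ((M : ℝ) ^ 2 * arm q M)) = K0 * ((M : ℝ) ^ 2 * arm q M) := by
    unfold K0
    ring
  rw [h3]
  have hK0 := K0_pos
  have h4 : 0 ≤ (k.factorial : ℝ) * (K0 * ((M : ℝ) ^ 2 * arm q M)) ^ k := by positivity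
  calc _ ≤ (k.factorial : ℝ) * (K0 * ((M : ℝ) ^ 2 * arm q M)) ^ k * 1 :=
        mul_le_mul_of_nonneg_left h2 h4
    _ = _ := mul_one _

/-- the cluster of the origin -/
theorem pr_two (h0 : 0 ≤ q) (h1 : q ≤ 1) (S : Finset Edg) (x : Vtx) :
    Pr (fun _ => q) S (GT {(0 : Vtx)} {x}) ≤ (arm q (nv x / 3)) ^ 2 := by
  have hok := okq h0 h1
  rcases Nat.eq_zero_or_pos (nv x) with hx | hx
  · rw [hx, Nat.zero_div, arm_zero, one_pow]
    exact Pr_le_one hok _ _
  · set r := nv x / 3 with hr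
    have hd : Disjoint (bo (0 : Vtx) r) (bo x r) := by
      apply bo_disj
      rw [zero_sub, nv_neg]
      omega
    have s1 : Pr (fun _ => q) S (GT {(0 : Vtx)} {x}) ≤
        Pr (fun _ => q) S (fun F => LA 0 r F ∧ LA x r F) := by
      apply Pr_mono hok
      intro F _ hF
      obtain ⟨w, hw, hr0⟩ := hF x (Finset.mem_singleton_self x)
      rw [Set.mem_singleton_iff] at hw
      rw [hw] at hr0
      refine ⟨LA_of_reach (u := x) ?_ hr0.symm, LA_of_reach (u := 0) ?_ hr0⟩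
      · rw [sub_zero]; omega
      · rw [zero_sub, nv_neg]; omega
    have s2 := indep2q h0 h1 S (bo (0 : Vtx) r) (bo x r) hd (LA_inc 0 r) (LA_inc x r)
      (LA_loc (Finset.Subset.refl _)) (LA_loc (Finset.Subset.refl _))
    have s3 := pr_LAq h0 h1 (bo (0 : Vtx) r) 0 r
    have s4 := pr_LAq h0 h1 (bo x r) x r
    calc Pr (fun _ => q) S (GT {(0 : Vtx)} {x}) ≤ _ := s1.trans s2
      _ ≤ arm q r * arm q r := mul_le_mul s3 s4 (Pr_nonneg hok _ _) (arm_nonneg h0 h1 r)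
      _ = _ := by ring

theorem mom_zero (hq : 1 / 2 ≤ q) (h1 : q ≤ 1) {n : ℕ} (hn : 1 ≤ n) {S : Finset Edg}
    (hS : boxE (2 * n) ⊆ S) (k : ℕ) :
    Ex (fun _ => q) S (fun F => VT {(0 : Vtx)} (bx n) F ^ (k + 1)) ≤
      (6912 / kap ^ 2 * ((n : ℝ) ^ 2 * (arm q n) ^ 2)) *
        ((k + 1).factorial * (K0 * (((2 * n : ℕ) : ℝ) ^ 2 * arm q (2 * n))) ^ k) := by
  classical
  have h0 : 0 ≤ q := by linarith
  have hka := kap_pos
  have hQ : 0 < QC := lt_of_lt_of_le one_pos QC_ge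
  have hn0 : (0 : ℝ) ≤ n := by positivity
  have hb := arm_nonneg h0 h1 (2 * n)
  have hb1 := arm_nonneg h0 h1 n
  have hbx : ∀ u ∈ bx n, ∀ x ∈ bx n, nv (u - x) ≤ 2 * n := by
    intro u hu x hx
    rw [mem_bx] at hu hx
    unfold nv at *
    simp only [Prod.fst_sub, Prod.snd_sub]
    omega
  have hs := fun X hX => step_of hq h1 (T := {(0 : Vtx)}) (B := bx n) (S := S) (fun x => nv x)
    (by
      intro x _ w hw
      rw [Set.mem_singleton_iff] at hw
      rw [hw, zero_sub, nv_neg]) (by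
      intro x hx
      rw [mem_bx] at hx
      exact bo_sub.trans ((boxE_mono (by omega)).trans hS))
    (K := 720 / kap * (((2 * n : ℕ) : ℝ) ^ 2 * arm q (2 * n))) (by
      have := sumB hq h1 (n := 2 * n) (by omega) (B := bx n) (u := 0) (by
        intro x hx
        rw [mem_bx] at hx
        rw [zero_sub, nv_neg]
        omega)
      refine le_trans (le_of_eq ?_) this
      apply Finset.sum_congr rfl
      intro x _
      rw [zero_sub, nv_neg])
    (fun u hu => sumB hq h1 (n := 2 * n) (by omega) (fun x hx => hbx u hu x hx)) X hX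
  have h := fun (x : Vtx) (hx : x ∈ bx n) => mom_of h0 h1 (T := {(0 : Vtx)}) (B := bx n) (S := S)
    (K := QC * (720 / kap * (((2 * n : ℕ) : ℝ) ^ 2 * arm q (2 * n)))) (by positivity)
    hs k {x} (Finset.singleton_subset_iff.mpr hx)
  have h3 : QC * (720 / kap * (((2 * n : ℕ) : ℝ) ^ 2 * arm q (2 * n))) =
      K0 * (((2 * n : ℕ) : ℝ) ^ 2 * arm q (2 * n)) := by
    unfold K0
    ring
  rw [h3] at h
  have hK0 := K0_pos
  set K : ℝ := K0 * (((2 * n : ℕ) : ℝ) ^ 2 * arm q (2 * n)) with hK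
  have hKn : 0 ≤ K := by positivity
  have e1 : Ex (fun _ => q) S (fun F => VT {(0 : Vtx)} (bx n) F ^ (k + 1)) =
      ∑ x ∈ bx n, Ex (fun _ => q) S
        (fun F => ind (GT {(0 : Vtx)} {x} F) * VT {(0 : Vtx)} (bx n) F ^ k) := by
    rw [← Ex_sum]
    apply Ex_congr
    intro F _
    have := ind_VT_succ {(0 : Vtx)} (bx n) ∅ F k
    rw [ind_of (GT_empty _ F), one_mul] at this
    rw [this]
    rfl
  rw [e1]
  have e2 : ∀ x ∈ bx n, Ex (fun _ => q) S
      (fun F => ind (GT {(0 : Vtx)} {x} F) * VT {(0 : Vtx)} (bx n) F ^ k) ≤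
        ((k + 1).factorial * K ^ k) * (arm q (nv x / 3)) ^ 2 := by
    intro x hx
    have g := h x hx
    rw [Finset.card_singleton, Nat.cast_one, prod_fac1] at g
    refine g.trans ?_
    exact mul_le_mul_of_nonneg_left (pr_two h0 h1 S x) (by positivity)
  refine (Finset.sum_le_sum e2).trans ?_
  rw [← Finset.mul_sum]
  refine (mul_le_mul_of_nonneg_left (sumA2 hq h1 hn) (by positivity)).trans (le_of_eq ?_)
  ring

/-- the one-arm probability above the critical point, in the window -/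
theorem arm_win (E : ℝ) : ∃ C : ℝ, 0 < C ∧ ∀ q : ℝ, 1 / 2 ≤ q → q ≤ 1 → ∀ n : ℕ,
    1 ≤ n → (n : ℝ) * (q - 1 / 2) ^ (4 / 3 : ℝ) ≤ E → arm q n ≤ C * (n : ℝ) ^ (-(5 / 48) : ℝ) := by
  obtain ⟨κ, b, hκ, hb, hS⟩ := Pool.Agent.W424.NC.armS
  obtain ⟨c1, C1, hc1, hC1, hA⟩ := Pool.Agent.W424.NC.arm_crit
  have hb43 : 0 < b ^ (4 / 3 : ℝ) := by positivity
  obtain ⟨D, hD⟩ : ∃ D : ℕ, E / b ^ (4 / 3 : ℝ) ≤ D := exists_nat_ge _
  set D1 := D + 1 with hD1
  have hD1p : (0 : ℝ) < D1 := by rw [hD1]; positivity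
  refine ⟨(3 * C1 + 1) * (2 * (D1 : ℝ)), by positivity, ?_⟩
  intro q hq h1 n hn hn2
  have hn0 : (0 : ℝ) < n := by exact_mod_cast hn
  have h0 : 0 ≤ q := by linarith
  have hDge : (1 : ℝ) ≤ 2 * D1 := by
    have : (1 : ℝ) ≤ D1 := by rw [hD1]; push_cast; linarith [(Nat.cast_nonneg D : (0 : ℝ) ≤ D)]
    linarith
  -- comparison of powers
  have hpow : ∀ n' : ℕ, 1 ≤ n' → (n : ℝ) ≤ 2 * D1 * n' →
      (n' : ℝ) ^ (-(5 / 48) : ℝ) ≤ 2 * D1 * (n : ℝ) ^ (-(5 / 48) : ℝ) := by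
    intro n' hn' hle
    have hn'0 : (0 : ℝ) < n' := by exact_mod_cast hn'
    have g1 : (2 * (D1 : ℝ) * n') ^ (-(5 / 48) : ℝ) ≤ (n : ℝ) ^ (-(5 / 48) : ℝ) :=
      Real.rpow_le_rpow_of_nonpos hn0 hle (by norm_num)
    rw [Real.mul_rpow (by positivity) hn'0.le] at g1
    have g2 : (2 * (D1 : ℝ))⁻¹ ≤ (2 * (D1 : ℝ)) ^ (-(5 / 48) : ℝ) := by
      rw [← Real.rpow_neg_one]
      exact Real.rpow_le_rpow_of_exponent_le hDge (by norm_num)
    have g3 : (0 : ℝ) < (n' : ℝ) ^ (-(5 / 48) : ℝ) := by positivity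
    have g4 : (2 * (D1 : ℝ))⁻¹ * (n' : ℝ) ^ (-(5 / 48) : ℝ) ≤ (n : ℝ) ^ (-(5 / 48) : ℝ) :=
      (mul_le_mul_of_nonneg_right g2 g3.le).trans g1
    calc (n' : ℝ) ^ (-(5 / 48) : ℝ) =
        2 * D1 * ((2 * (D1 : ℝ))⁻¹ * (n' : ℝ) ^ (-(5 / 48) : ℝ)) := by
          field_simp
      _ ≤ _ := mul_le_mul_of_nonneg_left g4 (by positivity)
  have hnn : (0 : ℝ) < (n : ℝ) ^ (-(5 / 48) : ℝ) := by positivity
  rcases Nat.eq_zero_or_pos (n / D1) with hz | hpos
  · have hnlt : n < D1 := by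
      by_contra hcon
      push Not at hcon
      have : 0 < n / D1 := Nat.div_pos hcon (by omega)
      omega
    have g := hpow 1 le_rfl (by
      have : (n : ℝ) ≤ D1 := by exact_mod_cast hnlt.le
      push_cast
      linarith)
    rw [Nat.cast_one, Real.one_rpow] at g
    calc arm q n ≤ 1 := arm_le_one h0 h1 n
      _ ≤ 2 * D1 * (n : ℝ) ^ (-(5 / 48) : ℝ) := g
      _ = 1 * (2 * D1) * (n : ℝ) ^ (-(5 / 48) : ℝ) := by ring
      _ ≤ _ := by
          apply mul_le_mul_of_nonneg_right _ hnn.le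
          apply mul_le_mul_of_nonneg_right _ (by positivity)
          linarith
  · set n' := n / D1 with hn'
    have hn'0 : (0 : ℝ) < n' := by exact_mod_cast hpos
    have hle1 : n' * D1 ≤ n := Nat.div_mul_le_self n D1
    have hle2 : n ≤ 2 * D1 * n' := by
      have := Nat.lt_mul_div_succ n (show 0 < D1 by omega)
      have h3 : D1 * (n / D1 + 1) ≤ D1 * (2 * n') := Nat.mul_le_mul_left _ (by omega)
      nlinarith
    have hs0 : 0 ≤ q - 1 / 2 := by linarith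
    have hkey : (n' : ℝ) * (q - 1 / 2) ^ (4 / 3 : ℝ) ≤ b ^ (4 / 3 : ℝ) := by
      have g1 : (n' : ℝ) * D1 ≤ n := by exact_mod_cast hle1
      have g2 : (0 : ℝ) ≤ (q - 1 / 2) ^ (4 / 3 : ℝ) := by positivity
      have g3 : (n' : ℝ) * D1 * (q - 1 / 2) ^ (4 / 3 : ℝ) ≤ E :=
        (mul_le_mul_of_nonneg_right g1 g2).trans hn2
      have g4 : E ≤ b ^ (4 / 3 : ℝ) * D1 := by
        rw [div_le_iff₀ hb43] at hD
        rw [hD1]
        push_cast
        nlinarith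
      have g5 : (n' : ℝ) * (q - 1 / 2) ^ (4 / 3 : ℝ) * D1 ≤ b ^ (4 / 3 : ℝ) * D1 := by
        calc (n' : ℝ) * (q - 1 / 2) ^ (4 / 3 : ℝ) * D1 = n' * D1 * (q - 1 / 2) ^ (4 / 3 : ℝ) := by
              ring
          _ ≤ _ := g3.trans g4
      exact le_of_mul_le_mul_right g5 hD1p
    have hwin : |q - 1 / 2| ≤ b * (n' : ℝ) ^ (-(3 / 4) : ℝ) := by
      rw [abs_of_nonneg hs0]
      have g1 : (q - 1 / 2) ^ (4 / 3 : ℝ) ≤ (b * (n' : ℝ) ^ (-(3 / 4) : ℝ)) ^ (4 / 3 : ℝ) := by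
        rw [Real.mul_rpow hb.le (by positivity), ← Real.rpow_mul hn'0.le]
        have e : (-(3 / 4) : ℝ) * (4 / 3) = -1 := by norm_num
        rw [e, Real.rpow_neg_one, ← div_eq_mul_inv, le_div_iff₀ hn'0, mul_comm]
        exact hkey
      exact (Real.rpow_le_rpow_iff hs0 (by positivity) (by norm_num)).mp g1
    have g := (hS n' hpos q hwin).2.1
    have g2 := (hA n' hpos).2
    have g3 : arm q n ≤ arm q n' := arm_anti h0 h1 (Nat.div_le_self n D1)
    have g4 := hpow n' hpos (by exact_mod_cast hle2)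
    calc arm q n ≤ 3 * (C1 * (n' : ℝ) ^ (-(5 / 48) : ℝ)) := by linarith
      _ = 3 * C1 * (n' : ℝ) ^ (-(5 / 48) : ℝ) := by ring
      _ ≤ 3 * C1 * (2 * D1 * (n : ℝ) ^ (-(5 / 48) : ℝ)) :=
          mul_le_mul_of_nonneg_left g4 (by positivity)
      _ = 3 * C1 * (2 * D1) * (n : ℝ) ^ (-(5 / 48) : ℝ) := by ring
      _ ≤ _ := by
          apply mul_le_mul_of_nonneg_right _ hnn.le
          apply mul_le_mul_of_nonneg_right _ (by positivity)
          linarith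

end Q291.SA
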